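import Mathlib

/-!
General preliminaries: first coordinate decomposition of an i.i.d. sequence, and facts on the
exponential law.
-/

set_option autoImplicit false

open MeasureTheory ProbabilityTheory Filter Topology Set
open scoped ENNReal

namespace Pool.Agent.Lib.MP_db3298_pr

/-- Put a new first term in front of a sequence. -/
def consSeq {X : Type} (x : X) (ω : ℕ → X) : ℕ → X
  | 0 => x
  | n + 1 => ω n

@[simp] lemma consSeq_zero {X : Type} (x : X) (ω : ℕ → X) : consSeq x ω 0 = x := rfl
@[simp] lemma consSeq_succ {X : Type} (x : X) (ω : ℕ → X) (n : ℕ) :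
    consSeq x ω (n + 1) = ω n := rfl

lemma measurable_consSeq {X : Type} [MeasurableSpace X] :
    Measurable (fun p : X × (ℕ → X) => consSeq p.1 p.2) := by
  refine measurable_pi_lambda _ fun n => ?_
  cases n with
  | zero => exact measurable_fst
  | succ n => exact (measurable_pi_apply n).comp measurable_snd

lemma map_consSeq {X : Type} [MeasurableSpace X] (μ : Measure X) [IsProbabilityMeasure μ] :
    (μ.prod (Measure.infinitePi fun _ : ℕ => μ)).map (fun p : X × (ℕ → X) => consSeq p.1 p.2)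
      = Measure.infinitePi fun _ : ℕ => μ := by
  classical
  refine Measure.eq_infinitePi (fun _ : ℕ => μ) fun s t ht => ?_
  rw [Measure.map_apply measurable_consSeq (MeasurableSet.pi s.countable_toSet fun i _ => ht i)]
  set s' : Finset ℕ := (s.erase 0).image (fun n => n - 1) with hs'
  have hmem : ∀ n, n ∈ s' ↔ n + 1 ∈ s := by
    intro n
    simp only [hs', Finset.mem_image, Finset.mem_erase]
    constructor
    · rintro ⟨a, ⟨ha0, ha⟩, rfl⟩
      have : a - 1 + 1 = a := by omega
      rwa [this]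
    · intro h
      exact ⟨n + 1, ⟨by omega, h⟩, by omega⟩
  have hpre : (fun p : X × (ℕ → X) => consSeq p.1 p.2) ⁻¹' (Set.pi (s : Set ℕ) t)
      = (if 0 ∈ s then t 0 else univ) ×ˢ (Set.pi (s' : Set ℕ) fun n => t (n + 1)) := by
    ext ⟨x, ω⟩
    simp only [mem_preimage, Set.mem_pi, Finset.mem_coe, mem_prod, hmem]
    constructor
    · intro h
      refine ⟨?_, fun n hn => h (n + 1) hn⟩
      split_ifs with h0
      · exact h 0 h0
      · trivial
    · rintro ⟨h0, h1⟩ n hn
      cases n with
      | zero => simpa [hn] using h0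
      | succ n => exact h1 n hn
  rw [hpre, Measure.prod_prod, Measure.infinitePi_pi _ fun i _ => ht (i + 1)]
  have hprod : ∏ i ∈ s', μ (t (i + 1)) = ∏ i ∈ s.erase 0, μ (t i) := by
    rw [hs', Finset.prod_image]
    · refine Finset.prod_congr rfl fun i hi => ?_
      have : i - 1 + 1 = i := by have := (Finset.mem_erase.1 hi).1; omega
      rw [this]
    · intro a ha b hb hab
      have h1 := (Finset.mem_erase.1 (Finset.mem_coe.1 ha)).1
      have h2 := (Finset.mem_erase.1 (Finset.mem_coe.1 hb)).1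
      simp only at hab
      omega
  rw [hprod]
  split_ifs with h0
  · rw [Finset.mul_prod_erase s (fun i => μ (t i)) h0]
  · rw [measure_univ, one_mul, Finset.erase_eq_of_notMem h0]

lemma lintegral_consSeq {X : Type} [MeasurableSpace X] (μ : Measure X) [IsProbabilityMeasure μ]
    {F : (ℕ → X) → ℝ≥0∞} (hF : Measurable F) :
    ∫⁻ ω, F ω ∂(Measure.infinitePi fun _ : ℕ => μ)
      = ∫⁻ x, ∫⁻ ω, F (consSeq x ω) ∂(Measure.infinitePi fun _ : ℕ => μ) ∂μ := by
  conv_lhs => rw [← map_consSeq μ]
  rw [lintegral_map hF measurable_consSeq]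
  exact lintegral_prod _ (hF.comp measurable_consSeq).aemeasurable

/-! ### The exponential law -/

lemma expMeasure_eq (r : ℝ) : expMeasure r = volume.withDensity (exponentialPDF r) := rfl

lemma measurable_expPDF (r : ℝ) : Measurable (exponentialPDF r) :=
  (measurable_exponentialPDFReal r).ennreal_ofReal

lemma expPDF_lt_top (r x : ℝ) : exponentialPDF r x < ∞ := ENNReal.ofReal_lt_top

lemma lintegral_exp (r : ℝ) (g : ℝ → ℝ≥0∞) :
    ∫⁻ s, g s ∂(expMeasure r) = ∫⁻ s, exponentialPDF r s * g s := by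
  rw [expMeasure_eq, lintegral_withDensity_eq_lintegral_mul_non_measurable _ (measurable_expPDF r)
    (Eventually.of_forall (expPDF_lt_top r))]
  rfl

lemma exp_ac (r : ℝ) : expMeasure r ≪ volume := withDensity_absolutelyContinuous _ _

lemma exp_Iic {r : ℝ} (hr : 0 < r) {t : ℝ} (ht : 0 ≤ t) :
    expMeasure r (Iic t) = ENNReal.ofReal (1 - Real.exp (-(r * t))) := by
  rw [expMeasure_eq, withDensity_apply _ measurableSet_Iic,
    lintegral_exponentialPDF_eq_antiDeriv hr, if_pos ht]

lemma exp_Ioi {r : ℝ} (hr : 0 < r) {t : ℝ} (ht : 0 ≤ t) :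
    expMeasure r (Ioi t) = ENNReal.ofReal (Real.exp (-(r * t))) := by
  have := isProbabilityMeasure_expMeasure hr
  have h1 : Real.exp (-(r * t)) ≤ 1 := by
    rw [Real.exp_le_one_iff]; nlinarith [mul_nonneg hr.le ht]
  rw [← compl_Iic, prob_compl_eq_one_sub measurableSet_Iic, exp_Iic hr ht,
    ← ENNReal.ofReal_one, ← ENNReal.ofReal_sub _ (by linarith)]
  congr 1; ring

lemma exp_ae_pos {r : ℝ} (hr : 0 < r) : ∀ᵐ s ∂(expMeasure r), 0 < s := by
  have := isProbabilityMeasure_expMeasure hr
  have : expMeasure r (Iic 0) = 0 := by rw [exp_Iic hr le_rfl]; simp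
  rw [ae_iff]
  convert this using 2
  ext s; simp

lemma exp_Iic_lt_one {r : ℝ} (hr : 0 < r) (t : ℝ) : expMeasure r (Iic t) < 1 := by
  have h : expMeasure r (Iic t) ≤ expMeasure r (Iic (max t 0)) :=
    measure_mono (Iic_subset_Iic.2 (le_max_left _ _))
  refine h.trans_lt ?_
  rw [exp_Iic hr (le_max_right _ _), ENNReal.ofReal_lt_one]
  linarith [Real.exp_pos (-(r * max t 0))]

/-- Lack of memory. -/
lemma lintegral_exp_Ioi (r : ℝ) {t : ℝ} (ht : 0 ≤ t) (g : ℝ → ℝ≥0∞) :
    ∫⁻ s, (Ioi t).indicator g s ∂(expMeasure r)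
      = ENNReal.ofReal (Real.exp (-(r * t))) * ∫⁻ s, g (t + s) ∂(expMeasure r) := by
  rw [lintegral_exp, lintegral_exp, ← lintegral_add_left_eq_self _ t,
    ← lintegral_const_mul' _ _ ENNReal.ofReal_ne_top]
  refine lintegral_congr_ae ?_
  have : ∀ᵐ s : ℝ, s ≠ 0 := by
    rw [ae_iff]; simp
  filter_upwards [this] with s hs
  rcases lt_or_gt_of_ne hs with h | h
  · rw [indicator_of_notMem (by simp; linarith), exponentialPDF_of_neg h]; simp
  · rw [indicator_of_mem (by simp; linarith), exponentialPDF_of_nonneg (by linarith),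
      exponentialPDF_of_nonneg h.le, ← mul_assoc, ← ENNReal.ofReal_mul (Real.exp_pos _).le]
    congr 2
    rw [show -(r * (t + s)) = -(r * t) + -(r * s) by ring, Real.exp_add]; ring

/-- Upper bound of an integral against the exponential law through a primitive. -/
lemma lintegral_exp_Iic_le {r : ℝ} {t : ℝ} (ht : 0 ≤ t) (g G G' : ℝ → ℝ)
    (hG : ∀ s, HasDerivAt G (G' s) s) (hc : Continuous G')
    (hG0 : ∀ s, 0 ≤ s → s ≤ t → 0 ≤ G' s)
    (hg : ∀ s, 0 ≤ s → s ≤ t → r * Real.exp (-(r * s)) * g s ≤ G' s) (hr : 0 < r) :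
    ∫⁻ s, (Iic t).indicator (fun s => ENNReal.ofReal (g s)) s ∂(expMeasure r)
      ≤ ENNReal.ofReal (G t - G 0) := by
  rw [lintegral_exp]
  have h1 : ∫⁻ s, exponentialPDF r s * (Iic t).indicator (fun s => ENNReal.ofReal (g s)) s
      ≤ ∫⁻ s, (Icc 0 t).indicator (fun s => ENNReal.ofReal (G' s)) s := by
    refine lintegral_mono fun s => ?_
    by_cases h0 : s < 0
    · rw [exponentialPDF_of_neg h0]; simp
    push Not at h0
    by_cases h1 : s ≤ t
    · rw [indicator_of_mem (by exact h1), indicator_of_mem (by exact ⟨h0, h1⟩),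
        exponentialPDF_of_nonneg h0, ← ENNReal.ofReal_mul (by positivity)]
      exact ENNReal.ofReal_le_ofReal (hg s h0 h1)
    · rw [indicator_of_notMem (by exact h1)]; simp
  refine h1.trans (le_of_eq ?_)
  rw [lintegral_indicator measurableSet_Icc, ← ofReal_integral_eq_lintegral_ofReal
    (hc.integrableOn_Icc) ?_, integral_Icc_eq_integral_Ioc, ← intervalIntegral.integral_of_le ht,
    intervalIntegral.integral_eq_sub_of_hasDerivAt (fun s _ => hG s) (hc.intervalIntegrable _ _)]
  filter_upwards [ae_restrict_mem measurableSet_Icc] with s hs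
  exact hG0 s hs.1 hs.2

end Pool.Agent.Lib.MP_db3298_pr
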