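import Pool.Agent.Lib.MP_db3298_pr.Defs
import Pool.Agent.Lib.MP_db3298_pr.Prelim

/-!
The workload process as a Markov process: first step equation, comparison principle and
semigroup property.
-/

set_option autoImplicit false

open MeasureTheory ProbabilityTheory Filter Topology Set
open scoped ENNReal

namespace Pool.Agent.Lib.MP_db3298_pr

abbrev St := Fin 3 → ℝ
abbrev Mk := Fin 3 × ℝ × ℝ × ℝ
abbrev Om := ℕ → ℝ × Mk

lemma measurable_drain : Measurable (fun p : St × ℝ => drain p.1 p.2) := by
  unfold drain; fun_prop

lemma drain_drain (w : St) (t : ℝ) {s : ℝ} (hs : 0 ≤ s) :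
    drain (drain w t) s = drain w (t + s) := by
  funext i
  simp only [drain]
  rcases le_total (w i - t) 0 with h | h
  · rw [max_eq_right h, max_eq_right (by linarith), max_eq_right (by linarith)]
  · rw [max_eq_left h]; congr 1; ring

lemma drain_nonneg (w : St) (t : ℝ) (i : Fin 3) : 0 ≤ drain w t i := le_max_right _ _

lemma measurable_arrTime (n : ℕ) : Measurable (fun ω : Om => arrTime ω n) := by
  unfold arrTime
  exact Finset.measurable_sum _ fun k _ => measurable_fst.comp (measurable_pi_apply k)

lemma arrTime_cons (x : ℝ × Mk) (ω : Om) (n : ℕ) :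
    arrTime (consSeq x ω) (n + 1) = x.1 + arrTime ω n := by
  simp [arrTime, Finset.sum_range_succ', add_comm]

@[simp] lemma arrTime_zero (ω : Om) : arrTime ω 0 = 0 := by simp [arrTime]

lemma measurable_sInf_nat {α : Type} [MeasurableSpace α] {p : α → ℕ → Prop}
    (hp : ∀ n, MeasurableSet {a | p a n}) : Measurable (fun a => sInf {n | p a n}) := by
  refine measurable_to_countable' fun n => ?_
  have : (fun a => sInf {n | p a n}) ⁻¹' {n}
      = ({a | p a n} ∩ ⋂ k : ℕ, ⋂ _ : k < n, {a | p a k}ᶜ)
        ∪ ((⋂ k : ℕ, {a | p a k}ᶜ) ∩ {_a | n = 0}) := by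
    ext a
    simp only [mem_preimage, mem_singleton_iff, mem_union, mem_inter_iff, mem_ofPred_eq,
      mem_iInter, mem_compl_iff]
    by_cases hne : {n | p a n}.Nonempty
    · constructor
      · intro h
        left
        refine ⟨h ▸ Nat.sInf_mem hne, fun k hk hk' => ?_⟩
        have := Nat.sInf_le (s := {n | p a n}) hk'
        omega
      · rintro (⟨h1, h2⟩ | ⟨h1, _⟩)
        · apply le_antisymm (Nat.sInf_le h1)
          by_contra hlt
          push Not at hlt
          exact h2 _ hlt (Nat.sInf_mem hne)
        · obtain ⟨k, hk⟩ := hne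
          exact absurd hk (h1 k)
    · have he : {n | p a n} = ∅ := not_nonempty_iff_eq_empty.1 hne
      have hk : ∀ k, ¬ p a k := fun k hk => hne ⟨k, hk⟩
      rw [he, Nat.sInf_empty]
      constructor
      · intro h; right; exact ⟨hk, h.symm⟩
      · rintro (⟨h1, _⟩ | ⟨_, h⟩)
        · exact absurd h1 (hk n)
        · exact h.symm
  rw [this]
  refine MeasurableSet.union ((hp n).inter ?_) (MeasurableSet.inter ?_ (MeasurableSet.const _))
  · exact MeasurableSet.iInter fun k => MeasurableSet.iInter fun _ => (hp k).compl
  · exact MeasurableSet.iInter fun k => (hp k).compl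

lemma measurable_count : Measurable (fun p : Om × ℝ => count p.1 p.2) := by
  unfold count
  exact measurable_sInf_nat fun n =>
    measurableSet_lt measurable_snd ((measurable_arrTime _).comp measurable_fst)

/-- The data of the model. -/
structure Model where
  J : St → Mk → St
  lam : ℝ
  ν : Measure Mk
  hJ : Measurable (fun p : St × Mk => J p.1 p.2)
  hlam : 0 < lam
  hν : IsProbabilityMeasure ν

namespace Model

variable (M : Model)

instance : IsProbabilityMeasure M.ν := M.hν
instance : IsProbabilityMeasure (expMeasure M.lam) := isProbabilityMeasure_expMeasure M.hlam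

/-- Law of the input. -/
noncomputable def PP : Measure Om := Measure.infinitePi fun _ : ℕ => (expMeasure M.lam).prod M.ν

instance : IsProbabilityMeasure M.PP := by unfold PP; infer_instance

lemma measurable_postArr (n : ℕ) : Measurable (fun p : St × Om => postArr M.J p.1 p.2 n) := by
  induction n with
  | zero => exact measurable_fst
  | succ n ih =>
    have h1 : Measurable (fun p : St × Om => p.2 n) := (measurable_pi_apply n).comp measurable_snd
    exact M.hJ.comp ((measurable_drain.comp (ih.prodMk (measurable_fst.comp h1))).prodMk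
      (measurable_snd.comp h1))

lemma measurable_workload :
    Measurable (fun p : (ℝ × St) × Om => workload M.J p.1.2 p.2 p.1.1) := by
  have h1 : Measurable (fun q : ((ℝ × St) × Om) × ℕ =>
      drain (postArr M.J q.1.1.2 q.1.2 q.2) (q.1.1.1 - arrTime q.1.2 q.2)) := by
    refine measurable_from_prod_countable_left fun n => ?_
    refine measurable_drain.comp (Measurable.prodMk ?_ ?_)
    · exact (M.measurable_postArr n).comp
        ((measurable_snd.comp measurable_fst).prodMk measurable_snd)
    · exact (measurable_fst.comp measurable_fst).sub ((measurable_arrTime n).comp measurable_snd)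
  exact h1.comp (measurable_id.prodMk (measurable_count.comp
    (measurable_snd.prodMk (measurable_fst.comp measurable_fst))))

lemma measurable_workload' (w : St) (t : ℝ) : Measurable (fun ω : Om => workload M.J w ω t) :=
  M.measurable_workload.comp ((measurable_const (a := (t, w))).prodMk measurable_id)

lemma postArr_cons (w : St) (x : ℝ × Mk) (ω : Om) (n : ℕ) :
    postArr M.J w (consSeq x ω) (n + 1) = postArr M.J (M.J (drain w x.1) x.2) ω n := by
  induction n with
  | zero => rfl
  | succ n ih => rw [postArr, ih]; rfl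

lemma workload_of_lt (w : St) (ω : Om) {t : ℝ} (h : t < (ω 0).1) :
    workload M.J w ω t = drain w t := by
  have : count ω t = 0 := by
    unfold count
    apply Nat.eq_zero_of_le_zero
    apply Nat.sInf_le
    simpa [arrTime] using h
  simp [workload, this, postArr]

lemma workload_cons (w : St) (x : ℝ × Mk) (ω : Om) {t : ℝ} (h : ¬ t < x.1)
    (hω : ∃ n, t - x.1 < arrTime ω (n + 1)) :
    workload M.J w (consSeq x ω) t = workload M.J (M.J (drain w x.1) x.2) ω (t - x.1) := by
  have hc : count (consSeq x ω) t = count ω (t - x.1) + 1 := by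
    unfold count
    have hne : {n : ℕ | t - x.1 < arrTime ω (n + 1)}.Nonempty := hω
    apply le_antisymm
    · apply Nat.sInf_le
      have := Nat.sInf_mem hne
      simp only [mem_ofPred_eq, arrTime_cons] at this ⊢
      linarith
    · have hne' : {n : ℕ | t < arrTime (consSeq x ω) (n + 1)}.Nonempty := by
        obtain ⟨n, hn⟩ := hω
        exact ⟨n + 1, by simp only [mem_ofPred_eq, arrTime_cons]; linarith⟩
      have hm := Nat.sInf_mem hne'
      generalize sInf {n : ℕ | t < arrTime (consSeq x ω) (n + 1)} = k at hm
      cases k with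
      | zero => simp [arrTime_cons] at hm; exact absurd hm (by simpa using h)
      | succ k =>
        have : sInf {n : ℕ | t - x.1 < arrTime ω (n + 1)} ≤ k := by
          apply Nat.sInf_le
          simp only [mem_ofPred_eq, arrTime_cons] at hm ⊢
          linarith
        omega
  unfold workload
  rw [hc, postArr_cons, arrTime_cons]
  congr 1; ring

lemma lintegral_PP {F : Om → ℝ≥0∞} (hF : Measurable F) :
    ∫⁻ ω, F ω ∂M.PP
      = ∫⁻ s, ∫⁻ m, ∫⁻ ω, F (consSeq (s, m) ω) ∂M.PP ∂M.ν ∂(expMeasure M.lam) := by
  unfold PP
  rw [lintegral_consSeq _ hF]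
  exact lintegral_prod _
    (Measurable.lintegral_prod_right' (hF.comp measurable_consSeq)).aemeasurable

/-- No explosion. -/
lemma nonexplosive (t : ℝ) : ∀ᵐ ω ∂M.PP, ∃ n, t < arrTime ω (n + 1) := by
  set A : Set Om := {ω | ∀ n, arrTime ω (n + 1) ≤ t} with hA
  have hAm : MeasurableSet A := by
    have : A = ⋂ n, {ω | arrTime ω (n + 1) ≤ t} := by ext; simp [hA]
    rw [this]
    exact MeasurableSet.iInter fun n => measurableSet_le (measurable_arrTime _) measurable_const
  have key : M.PP A ≤ expMeasure M.lam (Iic t) * M.PP A := by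
    calc M.PP A = ∫⁻ ω, A.indicator 1 ω ∂M.PP := (lintegral_indicator_one hAm).symm
      _ = _ := M.lintegral_PP (measurable_one.indicator hAm)
      _ ≤ ∫⁻ s, (Iic t).indicator (fun _ => M.PP A) s ∂(expMeasure M.lam) := by
        refine lintegral_mono_ae ?_
        filter_upwards [exp_ae_pos M.hlam] with s hs
        calc ∫⁻ m, ∫⁻ ω, A.indicator 1 (consSeq (s, m) ω) ∂M.PP ∂M.ν
            ≤ ∫⁻ _m, (Iic t).indicator (fun _ => M.PP A) s ∂M.ν := by
              refine lintegral_mono fun m => ?_
              by_cases hst : s ≤ t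
              · rw [indicator_of_mem (by exact hst), ← lintegral_indicator_one hAm]
                refine lintegral_mono fun ω => ?_
                by_cases h : consSeq (s, m) ω ∈ A
                · have : ω ∈ A := fun n => by
                    have := h (n + 1)
                    rw [arrTime_cons] at this
                    simp only at this
                    linarith
                  simp [h, this]
                · simp [h]
              · have : ∀ ω, consSeq (s, m) ω ∉ A := fun ω h => by
                  have := h 0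
                  rw [arrTime_cons] at this
                  simp at this
                  exact hst this
                simp [this]
          _ = _ := by simp
      _ = _ := by rw [lintegral_indicator_const measurableSet_Iic, mul_comm]
  have h0 : M.PP A = 0 := by
    by_contra hne
    have := ENNReal.mul_lt_mul_left hne (measure_ne_top M.PP A) (exp_Iic_lt_one M.hlam t)
    rw [one_mul] at this
    exact absurd key (not_le.2 this)
  rw [ae_iff]
  convert h0 using 2
  ext ω; simp [hA]

/-- The transition operator at time `t`. -/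
noncomputable def Pt (t : ℝ) (f : St → ℝ≥0∞) (w : St) : ℝ≥0∞ :=
  ∫⁻ ω, f (workload M.J w ω t) ∂M.PP

/-- The jump operator. -/
noncomputable def Q (f : St → ℝ≥0∞) (y : St) : ℝ≥0∞ := ∫⁻ m, f (M.J y m) ∂M.ν

lemma measurable_Pt {f : St → ℝ≥0∞} (hf : Measurable f) :
    Measurable (fun p : ℝ × St => M.Pt p.1 f p.2) :=
  Measurable.lintegral_prod_right' (hf.comp M.measurable_workload)

lemma measurable_Pt' {f : St → ℝ≥0∞} (hf : Measurable f) (t : ℝ) : Measurable (M.Pt t f) :=
  (M.measurable_Pt hf).comp (measurable_const.prodMk measurable_id)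

lemma Pt_mono (t : ℝ) {f g : St → ℝ≥0∞} (h : ∀ y, f y ≤ g y) (w : St) :
    M.Pt t f w ≤ M.Pt t g w := lintegral_mono fun _ => h _

lemma Pt_le (t : ℝ) {f : St → ℝ≥0∞} {C : ℝ≥0∞} (h : ∀ y, f y ≤ C) (w : St) :
    M.Pt t f w ≤ C := by
  refine (M.Pt_mono t h w).trans ?_
  simp [Pt]

lemma Q_mono {f g : St → ℝ≥0∞} (h : ∀ y, f y ≤ g y) (w : St) :
    M.Q f w ≤ M.Q g w := lintegral_mono fun _ => h _

/-- The right hand side of the first step equation. -/
noncomputable def step (f : St → ℝ≥0∞) (u : ℝ → St → ℝ≥0∞) (t : ℝ) (w : St) : ℝ≥0∞ :=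
  ∫⁻ s, (if t < s then f (drain w t) else M.Q (u (t - s)) (drain w s)) ∂(expMeasure M.lam)

theorem first_step {f : St → ℝ≥0∞} (hf : Measurable f) (t : ℝ) (w : St) :
    M.Pt t f w = M.step f (fun s => M.Pt s f) t w := by
  unfold step
  rw [Pt, M.lintegral_PP (F := fun ω => f (workload M.J w ω t))
    (hf.comp (M.measurable_workload' w t))]
  refine lintegral_congr fun s => ?_
  split_ifs with h
  · have : ∀ m ω, workload M.J w (consSeq (s, m) ω) t = drain w t := fun m ω =>
      M.workload_of_lt w _ (by simpa using h)
    simp [this]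
  · refine lintegral_congr fun m => lintegral_congr_ae ?_
    filter_upwards [M.nonexplosive (t - s)] with ω hω
    rw [M.workload_cons w (s, m) ω h hω]

lemma step_eq (f : St → ℝ≥0∞) (u : ℝ → St → ℝ≥0∞) {t : ℝ} (ht : 0 ≤ t) (w : St) :
    M.step f u t w = ENNReal.ofReal (Real.exp (-(M.lam * t))) * f (drain w t)
      + ∫⁻ s, (Iic t).indicator (fun s => M.Q (u (t - s)) (drain w s)) s ∂(expMeasure M.lam) := by
  unfold step
  rw [← exp_Ioi M.hlam ht, mul_comm, ← lintegral_indicator_const measurableSet_Ioi,
    ← lintegral_add_left (measurable_const.indicator measurableSet_Ioi)]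
  refine lintegral_congr fun s => ?_
  split_ifs with h
  · rw [indicator_of_mem (by exact h), indicator_of_notMem (by simpa using h), add_zero]
  · rw [indicator_of_notMem (by exact h), indicator_of_mem (by simpa using h), zero_add]

/-- Comparison principle: a bounded subsolution is below a supersolution. -/
theorem comparison {f : St → ℝ≥0∞} {u v : ℝ → St → ℝ≥0∞} {C : ℝ≥0∞} (hC : C ≠ ∞)
    (hu : ∀ t w, 0 ≤ t → u t w ≤ C)
    (hsub : ∀ t w, 0 ≤ t → u t w ≤ M.step f u t w)
    (hsup : ∀ t w, 0 ≤ t → M.step f v t w ≤ v t w) :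
    ∀ t w, 0 ≤ t → u t w ≤ v t w := by
  have key : ∀ n : ℕ, ∀ t w, 0 ≤ t →
      u t w ≤ v t w + C * (expMeasure M.lam (Iic t)) ^ n := by
    intro n
    induction n with
    | zero => intro t w ht; simpa using (hu t w ht).trans le_add_self
    | succ n ih =>
      intro t w ht
      refine (hsub t w ht).trans ?_
      refine le_trans ?_ (add_le_add_left (hsup t w ht) _)
      rw [step_eq _ _ _ ht, step_eq _ _ _ ht, add_assoc]
      refine add_le_add_right ?_ _
      rw [pow_succ, ← mul_assoc, ← lintegral_indicator_const measurableSet_Iic,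
        ← lintegral_add_right _ (measurable_const.indicator measurableSet_Iic)]
      refine lintegral_mono_ae ?_
      filter_upwards [exp_ae_pos M.hlam] with s hs
      by_cases h : s ≤ t
      · rw [indicator_of_mem (by exact h), indicator_of_mem (by exact h),
          indicator_of_mem (by exact h)]
        calc M.Q (u (t - s)) (drain w s)
            ≤ M.Q (fun y => v (t - s) y + C * (expMeasure M.lam (Iic t)) ^ n) (drain w s) := by
              refine M.Q_mono (fun y => (ih (t - s) y (by linarith)).trans ?_) _
              gcongr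
              linarith
          _ = _ := by
              unfold Q
              rw [lintegral_add_right _ measurable_const]; simp
      · rw [indicator_of_notMem (by exact h)]; exact zero_le
  intro t w ht
  have hlim : Tendsto (fun n : ℕ => v t w + C * (expMeasure M.lam (Iic t)) ^ n) atTop
      (𝓝 (v t w + C * 0)) :=
    tendsto_const_nhds.add (ENNReal.Tendsto.const_mul
      (ENNReal.tendsto_pow_atTop_nhds_zero_of_lt_one (exp_Iic_lt_one M.hlam t)) (Or.inr hC))
  rw [mul_zero, add_zero] at hlim
  exact ge_of_tendsto' hlim fun n => key n t w ht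

/-- A supersolution dominates the transition operator, bounded case. -/
theorem Pt_le_of_super {f : St → ℝ≥0∞} (hf : Measurable f) {C : ℝ≥0∞} (hC : C ≠ ∞)
    (hfC : ∀ y, f y ≤ C) {v : ℝ → St → ℝ≥0∞}
    (hsup : ∀ t w, 0 ≤ t → M.step f v t w ≤ v t w) (t : ℝ) (w : St) (ht : 0 ≤ t) :
    M.Pt t f w ≤ v t w :=
  M.comparison (u := fun s => M.Pt s f) hC (fun t w _ => M.Pt_le t hfC w)
    (fun t w _ => (M.first_step hf t w).le) hsup t w ht

/-- A supersolution dominates the transition operator. -/
theorem Pt_le_of_super' {f : St → ℝ≥0∞} (hf : Measurable f) {v : ℝ → St → ℝ≥0∞}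
    (hsup : ∀ t w, 0 ≤ t → M.step f v t w ≤ v t w) (t : ℝ) (w : St) (ht : 0 ≤ t) :
    M.Pt t f w ≤ v t w := by
  have h1 : M.Pt t f w = ⨆ n : ℕ, M.Pt t (fun y => min (f y) n) w := by
    unfold Pt
    rw [← lintegral_iSup]
    · refine lintegral_congr fun ω => ?_
      change _ = ⨆ n : ℕ, f _ ⊓ (n : ℝ≥0∞)
      rw [← inf_iSup_eq, ENNReal.iSup_natCast, inf_top_eq]
    · intro n
      exact (hf.comp (M.measurable_workload' w t)).min measurable_const
    · intro a b hab ω
      exact min_le_min le_rfl (by exact_mod_cast hab)
  rw [h1]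
  refine iSup_le fun n => M.Pt_le_of_super (C := n) (hf.min measurable_const) (by simp)
    (fun y => min_le_right _ _) (fun t w ht => le_trans ?_ (hsup t w ht)) t w ht
  refine lintegral_mono fun s => ?_
  split_ifs
  · exact min_le_left _ _
  · exact le_rfl

theorem semigroup {f : St → ℝ≥0∞} (hf : Measurable f) (hf1 : ∀ y, f y ≤ 1) {r : ℝ} (hr : 0 ≤ r)
    {t : ℝ} (ht : 0 ≤ t) (w : St) : M.Pt (t + r) f w = M.Pt t (M.Pt r f) w := by
  have key : ∀ t w, 0 ≤ t →
      M.Pt (t + r) f w = M.step (M.Pt r f) (fun s => M.Pt (s + r) f) t w := by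
    intro t w ht
    rw [M.first_step hf, step_eq _ _ _ ht, M.first_step hf r]
    unfold step
    have h1 := lintegral_exp_Ioi M.lam ht (fun s => if t + r < s then f (drain w (t + r))
      else M.Q (M.Pt (t + r - s) f) (drain w s))
    have h2 : ∫⁻ s, (if r < s then f (drain (drain w t) r)
          else M.Q (M.Pt (r - s) f) (drain (drain w t) s)) ∂(expMeasure M.lam)
        = ∫⁻ s, (if t + r < t + s then f (drain w (t + r))
          else M.Q (M.Pt (t + r - (t + s)) f) (drain w (t + s))) ∂(expMeasure M.lam) := by
      refine lintegral_congr_ae ?_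
      filter_upwards [exp_ae_pos M.hlam] with s hs
      rw [drain_drain _ _ hr, drain_drain _ _ hs.le, add_sub_add_left_eq_sub]
      simp
    rw [h2, ← h1, lintegral_indicator measurableSet_Ioi, lintegral_indicator measurableSet_Iic,
      ← lintegral_add_compl _ (measurableSet_Ioi (a := t)), compl_Ioi]
    congr 1
    refine setLIntegral_congr_fun measurableSet_Iic fun s hs => ?_
    have : ¬ t + r < s := by simp only [mem_Iic] at hs; linarith
    simp only [this, if_false]
    congr 2; ring
  have hm := M.measurable_Pt' hf r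
  have hb : ∀ y, M.Pt r f y ≤ 1 := fun y => M.Pt_le r hf1 y
  apply le_antisymm
  · exact M.comparison (u := fun s => M.Pt (s + r) f) (v := fun s => M.Pt s (M.Pt r f))
      ENNReal.one_ne_top (fun t w _ => M.Pt_le _ hf1 w) (fun t w ht => (key t w ht).le)
      (fun t w _ => (M.first_step hm t w).ge) t w ht
  · exact M.comparison (v := fun s => M.Pt (s + r) f) (u := fun s => M.Pt s (M.Pt r f))
      ENNReal.one_ne_top (fun t w _ => M.Pt_le _ hb w) (fun t w _ => (M.first_step hm t w).le)
      (fun t w ht => (key t w ht).ge) t w ht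

end Model

end Pool.Agent.Lib.MP_db3298_pr
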