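import Pool.Agent.Lib.MP_db3298_pr.Transient

/-!
The concrete model: jump operator for a deterministic left service time and a two-valued right
service time.
-/

set_option autoImplicit false

open MeasureTheory ProbabilityTheory Filter Topology Set
open scoped ENNReal NNReal

namespace Pool.Agent.Lib.MP_db3298_pr

abbrev Tie := Fin 3 → St → ℝ → Bool

/-- Measurability of a tie-breaking rule. -/
abbrev TieMeas (tie : Tie) : Prop := ∀ c, Measurable (fun p : St × ℝ => tie c p.1 p.2)

/-- Add work `x` to server `k`. -/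
def bump (y : St) (k : Fin 3) (x : ℝ) : St := Function.update y k (y k + x)

/-- The decision: `true` for the left server. -/
noncomputable def dec (tie : Tie) (y : St) (c : Fin 3) (u : ℝ) : Bool :=
  decide (y c < y (c + 1) ∨ (y c = y (c + 1) ∧ tie c y u = true))

lemma join_eq (tie : Tie) (y : St) (c : Fin 3) (u x x' : ℝ) :
    join tie y (c, u, x, x') = if dec tie y c u then bump y c x else bump y (c + 1) x' := by
  simp only [join, dec, bump, decide_eq_true_eq]

lemma dec_of_lt (tie : Tie) {y : St} {c : Fin 3} (u : ℝ) (h : y c < y (c + 1)) :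
    dec tie y c u = true := by simp [dec, h]

lemma dec_of_gt (tie : Tie) {y : St} {c : Fin 3} (u : ℝ) (h : y (c + 1) < y c) :
    dec tie y c u = false := by simp [dec, h.le, h.ne']

lemma dec_of_eq (tie : Tie) {y : St} {c : Fin 3} (u : ℝ) (h : y c = y (c + 1)) :
    dec tie y c u = tie c y u := by simp [dec, h]

lemma le_of_dec_true {tie : Tie} {y : St} {c : Fin 3} {u : ℝ} (h : dec tie y c u = true) :
    y c ≤ y (c + 1) := by
  by_contra hc
  rw [dec_of_gt tie u (not_le.1 hc)] at h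
  exact absurd h (by simp)

lemma le_of_dec_false {tie : Tie} {y : St} {c : Fin 3} {u : ℝ} (h : dec tie y c u = false) :
    y (c + 1) ≤ y c := by
  by_contra hc
  rw [dec_of_lt tie u (not_le.1 hc)] at h
  exact absurd h (by simp)

lemma measurable_join {tie : Tie} (h : TieMeas tie) :
    Measurable (fun p : St × Mk => join tie p.1 p.2) := by
  have h1 : Measurable (fun q : (St × (ℝ × ℝ × ℝ)) × Fin 3 => join tie q.1.1 (q.2, q.1.2)) := by
    refine measurable_from_prod_countable_left fun c => ?_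
    unfold join
    have e0 : ∀ i, Measurable (fun p : St × (ℝ × ℝ × ℝ) => p.1 i) := fun i =>
      (measurable_pi_apply i).comp measurable_fst
    refine Measurable.ite ?_ ?_ ?_
    · refine (measurableSet_lt (e0 c) (e0 (c + 1))).union
        ((measurableSet_eq_fun (e0 c) (e0 (c + 1))).inter ?_)
      exact measurableSet_eq_fun ((h c).comp (f := fun p : St × (ℝ × ℝ × ℝ) => (p.1, p.2.1))
        (by fun_prop)) measurable_const
    · exact measurable_update'.comp
        (f := fun p : St × (ℝ × ℝ × ℝ) => (p.1, p.1 c + p.2.2.1)) (by fun_prop)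
    · exact measurable_update'.comp
        (f := fun p : St × (ℝ × ℝ × ℝ) => (p.1, p.1 (c + 1) + p.2.2.2)) (by fun_prop)
  exact h1.comp (f := fun p : St × Mk => ((p.1, p.2.2), p.2.1)) (by fun_prop)

lemma measurable_dec {tie : Tie} (h : TieMeas tie) (y : St) (c : Fin 3) :
    Measurable (dec tie y c) := by
  have h1 : Measurable (fun u => tie c y u) := (h c).comp (f := fun u : ℝ => (y, u)) (by fun_prop)
  rcases lt_trichotomy (y c) (y (c + 1)) with hlt | heq | hgt
  · have : dec tie y c = fun _ => true := funext fun u => dec_of_lt tie u hlt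
    rw [this]; exact measurable_const
  · have : dec tie y c = fun u => tie c y u := funext fun u => dec_of_eq tie u heq
    rw [this]; exact h1
  · have : dec tie y c = fun _ => false := funext fun u => dec_of_gt tie u hgt
    rw [this]; exact measurable_const

instance : IsProbabilityMeasure (volume.restrict (Icc (0 : ℝ) 1)) := ⟨by simp⟩

/-- The model of the problem. -/
noncomputable def mkModel (lam : ℝ) (hlam : 0 < lam) (Fl Fr : Measure ℝ) [IsProbabilityMeasure Fl]
    [IsProbabilityMeasure Fr] (tie : Tie) (h : TieMeas tie) : Model where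
  J := join tie
  lam := lam
  ν := (uniformOn (Set.univ : Set (Fin 3))).prod
      ((volume.restrict (Set.Icc (0 : ℝ) 1)).prod (Fl.prod Fr))
  hJ := measurable_join h
  hlam := hlam
  hν := inferInstance

lemma stableFrom_iff (lam : ℝ) (hlam : 0 < lam) (Fl Fr : Measure ℝ) [IsProbabilityMeasure Fl]
    [IsProbabilityMeasure Fr] (tie : Tie) (h : TieMeas tie) (w : St) :
    StableFrom lam Fl Fr tie w ↔ (mkModel lam hlam Fl Fr tie h).Stable w := Iff.rfl

lemma lintegral_uniform3 (g : Fin 3 → ℝ≥0∞) :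
    ∫⁻ c, g c ∂(uniformOn (Set.univ : Set (Fin 3))) = 3⁻¹ * (g 0 + g 1 + g 2) := by
  rw [uniformOn, ProbabilityTheory.cond, lintegral_smul_measure, Measure.restrict_univ,
    lintegral_count, tsum_fintype, Fin.sum_univ_three]
  simp

/-- Expected value of `g` after a class `c` customer has joined on side `σ`. -/
noncomputable def val (a b1 b2 : ℝ) (p1 p2 : ℝ≥0∞) (g : St → ℝ≥0∞) (y : St) (c : Fin 3)
    (σ : Bool) : ℝ≥0∞ :=
  if σ then g (bump y c a) else p1 * g (bump y (c + 1) b1) + p2 * g (bump y (c + 1) b2)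

/-- `F` is the law with masses `p1, p2` at `b1, b2`. -/
def TwoPoint (F : Measure ℝ) (b1 b2 : ℝ) (p1 p2 : ℝ≥0∞) : Prop :=
  ∀ g : ℝ → ℝ≥0∞, Measurable g → ∫⁻ x, g x ∂F = p1 * g b1 + p2 * g b2

lemma twoPoint_dirac (b : ℝ) : TwoPoint (Measure.dirac b) b b 1 0 := fun g _ => by simp

lemma twoPoint_mix (b1 b2 : ℝ) (p1 p2 : ℝ≥0∞) :
    TwoPoint (p1 • Measure.dirac b1 + p2 • Measure.dirac b2) b1 b2 p1 p2 := fun g _ => by
  simp [lintegral_add_measure, lintegral_smul_measure]

lemma measurable_bump (y : St) (k : Fin 3) : Measurable (bump y k) :=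
  measurable_update'.comp (f := fun x : ℝ => (y, y k + x)) (by fun_prop)

lemma Q_eq {lam : ℝ} (hlam : 0 < lam) (a : ℝ) {Fr : Measure ℝ} [IsProbabilityMeasure Fr]
    {b1 b2 : ℝ} {p1 p2 : ℝ≥0∞} (hF : TwoPoint Fr b1 b2 p1 p2) {tie : Tie} (h : TieMeas tie)
    {g : St → ℝ≥0∞} (hg : Measurable g) (y : St) :
    (mkModel lam hlam (Measure.dirac a) Fr tie h).Q g y
      = ∫⁻ u in Icc (0 : ℝ) 1, 3⁻¹ * (val a b1 b2 p1 p2 g y 0 (dec tie y 0 u)
        + val a b1 b2 p1 p2 g y 1 (dec tie y 1 u) + val a b1 b2 p1 p2 g y 2 (dec tie y 2 u)) := by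
  have hm : Measurable (fun m : Mk => g (join tie y m)) :=
    hg.comp ((measurable_join h).comp (f := fun m : Mk => (y, m)) (by fun_prop))
  have h1 : ∀ c : Fin 3, ∫⁻ z : ℝ × ℝ × ℝ, g (join tie y (c, z))
      ∂((volume.restrict (Set.Icc (0 : ℝ) 1)).prod ((Measure.dirac a).prod Fr))
      = ∫⁻ u in Icc (0 : ℝ) 1, val a b1 b2 p1 p2 g y c (dec tie y c u) := by
    intro c
    rw [lintegral_prod (fun z : ℝ × ℝ × ℝ => g (join tie y (c, z)))
      (hm.comp (f := fun z : ℝ × ℝ × ℝ => (c, z)) (by fun_prop)).aemeasurable]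
    refine lintegral_congr fun u => ?_
    rw [lintegral_prod (fun z : ℝ × ℝ => g (join tie y (c, u, z)))
      (hm.comp (f := fun z : ℝ × ℝ => (c, u, z)) (by fun_prop)).aemeasurable,
      lintegral_dirac]
    simp only [join_eq, val]
    split_ifs
    · simp
    · exact hF _ (hg.comp (measurable_bump y (c + 1)))
  have hv : ∀ c : Fin 3, Measurable fun u => val a b1 b2 p1 p2 g y c (dec tie y c u) := fun c =>
    (measurable_of_finite (val a b1 b2 p1 p2 g y c)).comp (measurable_dec h y c)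
  change ∫⁻ m, g (join tie y m) ∂((uniformOn (Set.univ : Set (Fin 3))).prod
      ((volume.restrict (Set.Icc (0 : ℝ) 1)).prod ((Measure.dirac a).prod Fr))) = _
  rw [lintegral_prod _ hm.aemeasurable, lintegral_uniform3, h1, h1, h1,
    lintegral_const_mul' _ _ (by simp), lintegral_add_right _ (hv 2), lintegral_add_right _ (hv 1)]

lemma Q_le {lam : ℝ} (hlam : 0 < lam) (a : ℝ) {Fr : Measure ℝ} [IsProbabilityMeasure Fr]
    {b1 b2 : ℝ} {p1 p2 : ℝ≥0∞} (hF : TwoPoint Fr b1 b2 p1 p2) {tie : Tie} (h : TieMeas tie)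
    {g : St → ℝ≥0∞} (hg : Measurable g) (y : St) {B : ℝ≥0∞}
    (hB : ∀ u, 3⁻¹ * (val a b1 b2 p1 p2 g y 0 (dec tie y 0 u)
        + val a b1 b2 p1 p2 g y 1 (dec tie y 1 u) + val a b1 b2 p1 p2 g y 2 (dec tie y 2 u)) ≤ B) :
    (mkModel lam hlam (Measure.dirac a) Fr tie h).Q g y ≤ B := by
  rw [Q_eq hlam a hF h hg]
  exact (lintegral_mono hB).trans (by simp)

lemma Q_ne_zero {lam : ℝ} (hlam : 0 < lam) (a : ℝ) {Fr : Measure ℝ} [IsProbabilityMeasure Fr]
    {b1 b2 : ℝ} {p1 p2 : ℝ≥0∞} (hF : TwoPoint Fr b1 b2 p1 p2) {tie : Tie} (h : TieMeas tie)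
    {g : St → ℝ≥0∞} (hg : Measurable g) (y : St) (c : Fin 3)
    (hc : ∀ u, val a b1 b2 p1 p2 g y c (dec tie y c u) ≠ 0) :
    (mkModel lam hlam (Measure.dirac a) Fr tie h).Q g y ≠ 0 := by
  rw [Q_eq hlam a hF h hg]
  obtain ⟨m, hm0, hm⟩ : ∃ m : ℝ≥0∞, m ≠ 0 ∧ ∀ u, m ≤ val a b1 b2 p1 p2 g y c (dec tie y c u) := by
    by_cases h1 : ∃ u, dec tie y c u = true
    · by_cases h2 : ∃ u, dec tie y c u = false
      · obtain ⟨u1, hu1⟩ := h1
        obtain ⟨u2, hu2⟩ := h2
        refine ⟨min (val a b1 b2 p1 p2 g y c true) (val a b1 b2 p1 p2 g y c false), ?_, fun u => ?_⟩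
        · have e1 := hc u1
          have e2 := hc u2
          rw [hu1] at e1; rw [hu2] at e2
          exact (lt_min (pos_iff_ne_zero.2 e1) (pos_iff_ne_zero.2 e2)).ne'
        · cases dec tie y c u
          exacts [min_le_right _ _, min_le_left _ _]
      · refine ⟨_, hc 0, fun u => ?_⟩
        push Not at h2
        rw [eq_true_of_ne_false (h2 u), eq_true_of_ne_false (h2 0)]
    · refine ⟨_, hc 0, fun u => ?_⟩
      push Not at h1
      rw [eq_false_of_ne_true (h1 u), eq_false_of_ne_true (h1 0)]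
  have : ∫⁻ _u in Icc (0 : ℝ) 1, 3⁻¹ * m ≤ ∫⁻ u in Icc (0 : ℝ) 1,
      3⁻¹ * (val a b1 b2 p1 p2 g y 0 (dec tie y 0 u)
        + val a b1 b2 p1 p2 g y 1 (dec tie y 1 u) + val a b1 b2 p1 p2 g y 2 (dec tie y 2 u)) := by
    refine lintegral_mono fun u => mul_le_mul_right ((hm u).trans ?_) _
    fin_cases c
    · exact le_self_add.trans le_self_add
    · exact le_add_self.trans le_self_add
    · exact le_add_self
  intro h0
  rw [h0] at this
  simp at this
  exact hm0 this

end Pool.Agent.Lib.MP_db3298_pr
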