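import Mathlib

/-!
The three-server cyclic routing system: definitions.
Servers and classes 1, 2, 3 of the problem are indexed here by 0, 1, 2 in `Fin 3`.
-/

set_option autoImplicit false

open MeasureTheory ProbabilityTheory Filter Topology
open scoped BoundedContinuousFunction

namespace Pool.Agent.Lib.MP_db3298_pr

/-- The workload vector `w` after all servers have worked at unit rate for a time `s`
without arrivals. -/
def drain (w : Fin 3 → ℝ) (s : ℝ) : Fin 3 → ℝ := fun i => max (w i - s) 0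

/-- A customer with mark `m = (c, u, x, y)` (class `c`, tie-breaking coin `u`, left service time
`x`, right service time `y`) finds the workload vector `w`. It joins the less loaded one of its
left server `c` and its right server `c + 1`; at a tie it goes left iff `tie c w u = true`. -/
noncomputable def join (tie : Fin 3 → (Fin 3 → ℝ) → ℝ → Bool) (w : Fin 3 → ℝ)
    (m : Fin 3 × ℝ × ℝ × ℝ) : Fin 3 → ℝ :=
  if w m.1 < w (m.1 + 1) ∨ (w m.1 = w (m.1 + 1) ∧ tie m.1 w m.2.1 = true)
  then Function.update w m.1 (w m.1 + m.2.2.1)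
  else Function.update w (m.1 + 1) (w (m.1 + 1) + m.2.2.2)

/-- Time of the `n`-th arrival (`0` for `n = 0`); `(ω k).1` are the interarrival times. -/
def arrTime (ω : ℕ → ℝ × (Fin 3 × ℝ × ℝ × ℝ)) (n : ℕ) : ℝ := ∑ k ∈ Finset.range n, (ω k).1

/-- Workload vector just after the `n`-th arrival (the initial vector `w` for `n = 0`), when an
arrival with mark `m` changes the vector `v` it finds to `J v m`. -/
def postArr (J : (Fin 3 → ℝ) → Fin 3 × ℝ × ℝ × ℝ → (Fin 3 → ℝ)) (w : Fin 3 → ℝ)
    (ω : ℕ → ℝ × (Fin 3 × ℝ × ℝ × ℝ)) : ℕ → (Fin 3 → ℝ)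
  | 0 => w
  | n + 1 => J (drain (postArr J w ω n) (ω n).1) (ω n).2

/-- Number of arrivals in the time interval `[0, t]`. -/
noncomputable def count (ω : ℕ → ℝ × (Fin 3 × ℝ × ℝ × ℝ)) (t : ℝ) : ℕ :=
  sInf {n : ℕ | t < arrTime ω (n + 1)}

/-- The workload vector `W(t)`. -/
noncomputable def workload (J : (Fin 3 → ℝ) → Fin 3 × ℝ × ℝ × ℝ → (Fin 3 → ℝ)) (w : Fin 3 → ℝ)
    (ω : ℕ → ℝ × (Fin 3 × ℝ × ℝ × ℝ)) (t : ℝ) : Fin 3 → ℝ :=
  drain (postArr J w ω (count ω t)) (t - arrTime ω (count ω t))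

/-- The law of the input: customers are i.i.d., each with independent exponential interarrival
time of rate `lam`, uniform class, coin uniform on `[0,1]`, left service time of law `Fl` and
right service time of law `Fr`. -/
noncomputable def inputLaw (lam : ℝ) (Fl Fr : Measure ℝ) :
    Measure (ℕ → ℝ × (Fin 3 × ℝ × ℝ × ℝ)) :=
  Measure.infinitePi fun _ : ℕ =>
    (expMeasure lam).prod ((uniformOn (Set.univ : Set (Fin 3))).prod
      ((volume.restrict (Set.Icc (0 : ℝ) 1)).prod (Fl.prod Fr)))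

/-- A service time law: a probability distribution on `(0, ∞)` with finite mean. -/
def ServiceLaw (F : Measure ℝ) : Prop :=
  IsProbabilityMeasure F ∧ F (Set.Ioi 0) = 1 ∧ Integrable (fun x : ℝ => x) F

/-- The system is stable from `w`: the law of `W(t)` converges weakly, as `t → ∞`, to a
probability measure on the nonnegative orthant. -/
def StableFrom (lam : ℝ) (Fl Fr : Measure ℝ) (tie : Fin 3 → (Fin 3 → ℝ) → ℝ → Bool)
    (w : Fin 3 → ℝ) : Prop :=
  ∃ μ : Measure (Fin 3 → ℝ), IsProbabilityMeasure μ ∧ μ {v | ∀ i, 0 ≤ v i} = 1 ∧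
    ∀ f : (Fin 3 → ℝ) →ᵇ ℝ,
      Tendsto (fun t : ℝ => ∫ ω, f (workload (join tie) w ω t) ∂(inputLaw lam Fl Fr)) atTop
        (𝓝 (∫ v, f v ∂μ))

end Pool.Agent.Lib.MP_db3298_pr
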