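import Pool.Agent.Lib.MP_db3298_pr.Inst
import Pool.Agent.Lib.MP_db3298_pr.Tables

/-!
The examples.
-/

set_option autoImplicit false

open MeasureTheory ProbabilityTheory Filter Topology Set
open scoped ENNReal NNReal

namespace Pool.Agent.Lib.MP_db3298_pr

lemma log_lower : (1 / 1001 : ℝ) ≤ Real.log ((1001 / 1000 : ℚ) : ℝ) := by
  have := Real.one_sub_inv_le_log_of_pos (x := ((1001 / 1000 : ℚ) : ℝ)) (by norm_num)
  refine le_trans (le_of_eq ?_) this
  norm_num

lemma log_upper : Real.log ((1001 / 1000 : ℚ) : ℝ) ≤ 1 / 1000 := by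
  have := Real.log_le_sub_one_of_pos (x := ((1001 / 1000 : ℚ) : ℝ)) (by norm_num)
  refine this.trans (le_of_eq ?_)
  norm_num

lemma serviceLaw_dirac {x : ℝ} (hx : 0 < x) : ServiceLaw (Measure.dirac x) :=
  ⟨inferInstance, by simp [hx], integrable_dirac (by simp)⟩

lemma good_zero : Good 0 := fun h => lt_irrefl _ (h.1 0)

lemma tieMeas_const (side : Bool) : TieMeas (fun _ _ _ => side) := fun _ => measurable_const

lemma inv_r : ((1001 / 1000 : ℚ))⁻¹ = 1000 / 1001 := by norm_num

/-- Stability from the empty state for deterministic service times `1, 2`. -/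
theorem stable_12 {tie : Tie} (ht : TieMeas tie) :
    StableFrom (19 / 10) (Measure.dirac 1) (Measure.dirac 2) tie 0 := by
  have H := stabCert_of_check (r := 1001 / 1000) (by norm_num) (K := 6) (B := 2) (L := 8) rfl
    (tab := tabS12) (a := 1) (b1 := 2) (b2 := 2) (by norm_num) le_rfl le_rfl (p1 := 1) (p2 := 0)
    (ρ := 10005245 / 10000000) (by norm_num) le_rfl (by norm_num) (by norm_num)
    (by rw [inv_r]; exact chk_S12)
  have := H.stable (lam := 19 / 10) (c := 1 / 1000000) (by norm_num) (by norm_num)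
    (by have := log_lower; push_cast at this ⊢; linarith) (Fr := Measure.dirac 2)
    (by simpa using twoPoint_dirac 2) ht good_zero
  rw [← stableFrom_iff] at this
  simpa using this

/-- Stability from the empty state for deterministic service times `2, 1`. -/
theorem stable_21 {tie : Tie} (ht : TieMeas tie) :
    StableFrom (19 / 10) (Measure.dirac 2) (Measure.dirac 1) tie 0 := by
  have H := stabCert_of_check (r := 1001 / 1000) (by norm_num) (K := 6) (B := 2) (L := 8) rfl
    (tab := tabS21) (a := 2) (b1 := 1) (b2 := 1) le_rfl (by norm_num) (by norm_num) (p1 := 1)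
    (p2 := 0) (ρ := 10005245 / 10000000) (by norm_num) le_rfl (by norm_num) (by norm_num)
    (by rw [inv_r]; exact chk_S21)
  have := H.stable (lam := 19 / 10) (c := 1 / 1000000) (by norm_num) (by norm_num)
    (by have := log_lower; push_cast at this ⊢; linarith) (Fr := Measure.dirac 1)
    (by simpa using twoPoint_dirac 1) ht good_zero
  rw [← stableFrom_iff] at this
  simpa using this

/-- The law with masses `3/4` at `1` and `1/4` at `13`. -/
noncomputable def mixLaw : Measure ℝ :=
  ENNReal.ofReal (3 / 4) • Measure.dirac 1 + ENNReal.ofReal (1 / 4) • Measure.dirac 13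

instance : IsProbabilityMeasure mixLaw := ⟨by
  simp only [mixLaw, Measure.add_apply, Measure.smul_apply, measure_univ, smul_eq_mul, mul_one]
  rw [← ENNReal.ofReal_add (by norm_num) (by norm_num)]; norm_num⟩

lemma integrable_mix1 : Integrable (fun x : ℝ => x) (ENNReal.ofReal (3 / 4) • Measure.dirac 1) :=
  (integrable_dirac (by simp)).smul_measure ENNReal.ofReal_ne_top

lemma integrable_mix2 : Integrable (fun x : ℝ => x) (ENNReal.ofReal (1 / 4) • Measure.dirac 13) :=
  (integrable_dirac (by simp)).smul_measure ENNReal.ofReal_ne_top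

lemma serviceLaw_mix : ServiceLaw mixLaw := by
  refine ⟨inferInstance, ?_, integrable_mix1.add_measure integrable_mix2⟩
  simp only [mixLaw, Measure.add_apply, Measure.smul_apply, smul_eq_mul]
  rw [Measure.dirac_apply_of_mem (by simp), Measure.dirac_apply_of_mem (by simp), mul_one, mul_one,
    ← ENNReal.ofReal_add (by norm_num) (by norm_num)]
  norm_num

lemma mean_mix : ∫ x, x ∂mixLaw = 4 := by
  rw [mixLaw, integral_add_measure integrable_mix1 integrable_mix2, integral_smul_measure,
    integral_smul_measure, integral_dirac, integral_dirac, ENNReal.toReal_ofReal (by norm_num),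
    ENNReal.toReal_ofReal (by norm_num)]
  norm_num

theorem stable_mix {tie : Tie} (ht : TieMeas tie) :
    StableFrom (79 / 80) (Measure.dirac 2) mixLaw tie 0 := by
  have H := stabCert_of_check (r := 1001 / 1000) (by norm_num) (K := 24) (B := 13) (L := 37) rfl
    (tab := tabSm) (a := 2) (b1 := 1) (b2 := 13) (by norm_num) (by norm_num) le_rfl (p1 := 3 / 4)
    (p2 := 1 / 4) (ρ := 1001010 / 1000000) (by norm_num) (by norm_num) (by norm_num) (by norm_num)
    (by rw [inv_r]; exact chk_Sm)
  have := H.stable (lam := 79 / 80) (c := 1 / 1000000) (by norm_num) (by norm_num)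
    (by have := log_lower; push_cast at this ⊢; linarith) (Fr := mixLaw)
    (by simpa [mixLaw] using twoPoint_mix 1 13 (ENNReal.ofReal (3 / 4)) (ENNReal.ofReal (1 / 4)))
    ht good_zero
  rw [← stableFrom_iff] at this
  simpa using this

/-! ### Instability on the diagonal lattice -/

lemma measurableSet_P0 : MeasurableSet {p : ℝ × ℝ | p.1 = 0 ∧ p.2 = 0} :=
  (measurableSet_eq_fun measurable_fst measurable_const).inter
    (measurableSet_eq_fun measurable_snd measurable_const)

lemma decOK_const (side : Bool) :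
    DecOK (fun x y => x = 0 ∧ y = 0) 1 (fun _ _ _ => side) side side side := by
  intro w u hw
  have e0 := nf_add_ff one_pos w 0
  have e1 := nf_add_ff one_pos w 1
  rw [hw.2.1] at e0
  rw [hw.2.2] at e1
  simp only [Nat.cast_one, add_zero, one_mul] at e0 e1
  have f1 : ((0 : Fin 3) + 1) = 1 := rfl
  have f2 : ((1 : Fin 3) + 1) = 2 := rfl
  have f3 : ((2 : Fin 3) + 1) = 0 := rfl
  have c : ∀ {x y : ℤ}, x < y → (x : ℝ) < y := fun h => by exact_mod_cast h
  have c' : ∀ {x y : ℤ}, x = y → (x : ℝ) = y := fun h => by exact_mod_cast h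
  refine ⟨fun h => dec_of_lt _ _ ?_, fun h => dec_of_gt _ _ ?_, fun h => dec_of_eq _ _ ?_,
    fun h => dec_of_lt _ _ ?_, fun h => dec_of_gt _ _ ?_, fun h => dec_of_eq _ _ ?_,
    fun h => dec_of_lt _ _ ?_, fun h => dec_of_gt _ _ ?_, fun h => dec_of_eq _ _ ?_⟩ <;>
  simp only [f1, f2, f3] <;>
  first
    | (have := c h; push_cast at this; linarith)
    | (have := c' h; push_cast at this; linarith)

theorem unstable_diag {tab a b : ℕ} (ha0 : 0 < a) (hb0 : 0 < b) (ha : a ≤ 2) (hb : b ≤ 2)
    (side : Bool) (hchk : chkAll (Gam (1000 / 1001) (6 : ℕ) tab) a b b 1 0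
      (99947 / 100000) (okTie (8 : ℕ) side side side) 8 = true) :
    ∃ L : ℝ, 0 < L ∧ ¬ StableFrom (19 / 10) (Measure.dirac a) (Measure.dirac b)
      (fun _ _ _ => side) (fun _ => L) := by
  have H := instCert_of_check (r := 1001 / 1000) (R := 1000 / 1001) (by norm_num) (h := 1) one_pos
    (by norm_num) (K := 6) (B := 2) (L := 8) rfl ha0 hb0 ha hb (by norm_num) hchk
  obtain ⟨L, hL0, hL⟩ := H.exists_level
  refine ⟨L, hL0, ?_⟩
  have := H.not_stable (lam := 19 / 10) (c := 1 / 1000000) (by norm_num) (by norm_num)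
    (by have := log_upper; push_cast at this ⊢; linarith) (tieMeas_const side) measurableSet_P0
    (decOK_const side) (w := fun _ => L) le_rfl (Model.Pt_ne_zero_of_drain _
      (measurable_one.indicator (measurableSet_le (measurable_GG _ _ _ measurableSet_P0)
        measurable_const)) le_rfl ?_)
  · rw [← stableFrom_iff] at this
    simpa using this
  · have hd : drain (fun _ => L) 0 = fun _ => L := by
      funext i; simp [drain, hL0.le]
    have hD : InD (fun x y => x = 0 ∧ y = 0) 1 (fun _ => L) := ⟨fun _ => hL0, by simp [ff]⟩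
    rw [hd, indicator_of_mem]
    · simp
    · simp only [mem_ofPred_eq, GG, hD, if_true]
      exact hL _ fun _ => le_rfl

/-! ### Instability from the empty state -/

lemma measurableSet_Pm : MeasurableSet {p : ℝ × ℝ | 0 < p.2 ∧ p.2 < p.1} :=
  (measurableSet_lt measurable_const measurable_snd).inter
    (measurableSet_lt measurable_snd measurable_fst)

lemma decOK_m (tie : Tie) : DecOK (fun x y => 0 < y ∧ y < x) 2 tie false false true := by
  intro w u hw
  have e0 := nf_add_ff two_pos w 0
  have e1 := nf_add_ff two_pos w 1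
  have g1 := hw.2.1
  have g2 := hw.2.2
  have g3 : ff 2 w 0 < 1 := Int.fract_lt_one _
  push_cast at e0 e1
  have f1 : ((0 : Fin 3) + 1) = 1 := rfl
  have f2 : ((1 : Fin 3) + 1) = 2 := rfl
  have f3 : ((2 : Fin 3) + 1) = 0 := rfl
  have c : ∀ {x y : ℤ}, x < y → (x : ℝ) + 1 ≤ y := fun h => by exact_mod_cast h
  have c' : ∀ {x y : ℤ}, x = y → (x : ℝ) = y := fun h => by exact_mod_cast h
  refine ⟨fun h => dec_of_lt _ _ ?_, fun h => dec_of_gt _ _ ?_, fun h => dec_of_gt _ _ ?_,
    fun h => dec_of_lt _ _ ?_, fun h => dec_of_gt _ _ ?_, fun h => dec_of_gt _ _ ?_,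
    fun h => dec_of_lt _ _ ?_, fun h => dec_of_gt _ _ ?_, fun h => dec_of_lt _ _ ?_⟩ <;>
  simp only [f1, f2, f3] <;>
  first
    | (have := c h; push_cast at this; linarith)
    | (have := c' h; push_cast at this; linarith)

lemma fract_of {x f : ℝ} (n : ℤ) (h0 : 0 ≤ f) (h1 : f < 1) (h : x = n + f) : Int.fract x = f := by
  rw [h, Int.fract_intCast_add, Int.fract_eq_self.2 ⟨h0, h1⟩]

theorem unstable_24 {tie : Tie} (ht : TieMeas tie) :
    ¬ StableFrom (79 / 80) (Measure.dirac 2) (Measure.dirac 4) tie 0 := by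
  have H := instCert_of_check (r := 1001 / 1000) (R := 1000000 / 1002001) (by norm_num) (h := 2)
    two_pos (by norm_num) (K := 6) (B := 2) (L := 8) rfl (tab := tabUm) (a := 1) (b := 2) one_pos
    two_pos (by norm_num) le_rfl (ρ := 998985 / 1000000) (by norm_num) chk_Um
  have hl : (0 : ℝ) < 79 / 80 := by norm_num
  have := H.not_stable (lam := 79 / 80) (c := 1 / 1000000) hl (by norm_num)
    (by have := log_upper; push_cast at this ⊢; linarith) ht measurableSet_Pm
    (decOK_m tie) (w := 0) zero_le_one ?_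
  · rw [← stableFrom_iff] at this
    have e1 : ((2 * 1 : ℕ) : ℝ) = 2 := by norm_num
    have e2 : ((2 * 2 : ℕ) : ℝ) = 4 := by norm_num
    rwa [e1, e2] at this
  have hreach := fun w hw t ht0 hwt => H.reach hl ht (P := fun x y => 0 < y ∧ y < x)
    measurableSet_Pm (w := w) hw (t := t) ht0 hwt
  generalize hf : indicator {v | GG _ _ 2 (fun x y => 0 < y ∧ y < x) v ≤ 1 / 2}
    (1 : St → ℝ≥0∞) = f at hreach ⊢
  have hfm : Measurable f := hf ▸ measurable_one.indicator
    (measurableSet_le (measurable_GG _ _ _ measurableSet_Pm) measurable_const)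
  have e1 : ((2 * 1 : ℕ) : ℝ) = 2 := by norm_num
  have e2 : ((2 * 2 : ℕ) : ℝ) = 4 := by norm_num
  have f1 : ((0 : Fin 3) + 1) = 1 := rfl
  have f2 : ((1 : Fin 3) + 1) = 2 := rfl
  have f3 : ((2 : Fin 3) + 1) = 0 := rfl
  have left : ∀ (y : St) (c : Fin 3) (t : ℝ), y c < y (c + 1) →
      (mkModel (79 / 80) hl (Measure.dirac ((2 * 1 : ℕ) : ℝ)) (Measure.dirac ((2 * 2 : ℕ) : ℝ))
        tie ht).Pt t f (bump y c 2) ≠ 0 →
      (mkModel (79 / 80) hl (Measure.dirac ((2 * 1 : ℕ) : ℝ)) (Measure.dirac ((2 * 2 : ℕ) : ℝ))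
        tie ht).Q ((mkModel (79 / 80) hl (Measure.dirac ((2 * 1 : ℕ) : ℝ))
          (Measure.dirac ((2 * 2 : ℕ) : ℝ)) tie ht).Pt t f) y ≠ 0 := by
    intro y c t hlt hne
    refine Q_ne_zero hl _ (twoPoint_dirac _) ht (Model.measurable_Pt' _ hfm _) _ c fun u => ?_
    rw [dec_of_lt _ _ hlt]
    simp only [val, if_true]
    rw [← e1] at hne
    exact hne
  refine Model.Pt_ne_zero_of_jump _ hfm one_pos fun s1 h1 h1' => ?_
  have d0 : drain 0 s1 = 0 := by funext i; simp [drain, h1.le]
  rw [d0]
  refine Q_ne_zero hl _ (twoPoint_dirac _) ht (Model.measurable_Pt' _ hfm _) _ 0 fun u => ?_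
  unfold val
  cases dec tie 0 0 u
  · simp only [Bool.false_eq_true, if_false, one_mul, zero_mul, add_zero, f1]
    refine Model.Pt_ne_zero_of_jump _ hfm (by linarith) fun s2 h2 h2' => ?_
    have d1 : drain (bump 0 1 ((2 * 2 : ℕ) : ℝ)) s2 = ![0, 4 - s2, 0] := by
      funext i; fin_cases i <;> simp [drain, bump, h2.le] <;> norm_num <;> linarith
    rw [d1]
    refine left _ 0 _ (by simp; linarith) ?_
    refine Model.Pt_ne_zero_of_jump _ hfm (by linarith) fun s3 h3 h3' => ?_
    have d2 : drain (bump ![0, 4 - s2, 0] 0 2) s3 = ![2 - s3, 4 - s2 - s3, 0] := by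
      funext i; fin_cases i <;> simp [drain, bump, h3.le] <;> linarith
    rw [d2]
    refine left _ 2 _ (by simp; linarith) ?_
    have d3 : bump ![2 - s3, 4 - s2 - s3, 0] 2 2 = ![2 - s3, 4 - s2 - s3, 2] := by
      funext i; fin_cases i <;> simp [bump]
    rw [d3]
    refine hreach _ ⟨fun i => ?_, ?_⟩ _ (by linarith) fun i => ?_
    · fin_cases i <;> simp <;> linarith
    · unfold ff
      rw [fract_of (f := 1 - s3 / 2) (-1) (by linarith) (by linarith) (by simp; ring),
        fract_of (f := 1 - (s2 + s3) / 2) 0 (by linarith) (by linarith) (by simp; ring)]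
      constructor <;> linarith
    · fin_cases i <;> simp <;> linarith
  · simp only [if_true]
    refine Model.Pt_ne_zero_of_jump _ hfm (by linarith) fun s2 h2 h2' => ?_
    have d1 : drain (bump 0 0 ((2 * 1 : ℕ) : ℝ)) s2 = ![2 - s2, 0, 0] := by
      funext i; fin_cases i <;> simp [drain, bump, h2.le] <;> linarith
    rw [d1]
    refine left _ 2 _ (by simp; linarith) ?_
    refine Model.Pt_ne_zero_of_jump _ hfm (by linarith) fun s3 h3 h3' => ?_
    have d2 : drain (bump ![2 - s2, 0, 0] 2 2) s3 = ![2 - s2 - s3, 0, 2 - s3] := by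
      funext i; fin_cases i <;> simp [drain, bump, h3.le] <;> linarith
    rw [d2]
    refine left _ 1 _ (by simp; linarith) ?_
    have d3 : bump ![2 - s2 - s3, 0, 2 - s3] 1 2 = ![2 - s2 - s3, 2, 2 - s3] := by
      funext i; fin_cases i <;> simp [bump]
    rw [d3]
    refine hreach _ ⟨fun i => ?_, ?_⟩ _ (by linarith) fun i => ?_
    · fin_cases i <;> simp <;> linarith
    · unfold ff
      rw [fract_of (f := 1 - s2 / 2) (-1) (by linarith) (by linarith) (by simp; ring),
        fract_of (f := s3 / 2) 0 (by linarith) (by linarith) (by simp)]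
      constructor <;> linarith
    · fin_cases i <;> simp <;> linarith

end Pool.Agent.Lib.MP_db3298_pr
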