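import Pool.Agent.Lib.MP_db3298_pr.Basic

/-!
A Lyapunov function gives convergence in total variation.
-/

set_option autoImplicit false

open MeasureTheory ProbabilityTheory Filter Topology Set
open scoped ENNReal NNReal

namespace Pool.Agent.Lib.MP_db3298_pr

/-- A uniformly Cauchy family of probability measures converges setwise. -/
theorem exists_setwise_limit {E : Type} [MeasurableSpace E] (μ : ℝ → Measure E)
    [∀ t, IsProbabilityMeasure (μ t)]
    (h : ∀ ε : ℝ≥0∞, 0 < ε → ∃ T : ℝ, ∀ t t', T ≤ t → T ≤ t' → ∀ A, MeasurableSet A →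
      μ t A ≤ μ t' A + ε) :
    ∃ π : Measure E, IsProbabilityMeasure π ∧
      ∀ A, MeasurableSet A → Tendsto (fun t => μ t A) atTop (𝓝 (π A)) := by
  set m : Set E → ℝ≥0∞ := fun A => limsup (fun t => μ t A) atTop with hm
  have hclose : ∀ ε : ℝ≥0∞, 0 < ε → ∃ T : ℝ, ∀ t, T ≤ t → ∀ A, MeasurableSet A →
      m A ≤ μ t A + ε ∧ μ t A ≤ m A + ε := by
    intro ε hε
    obtain ⟨T, hT⟩ := h ε hε
    refine ⟨T, fun t ht A hA => ⟨?_, ?_⟩⟩
    · refine limsup_le_of_le (by isBoundedDefault) ?_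
      filter_upwards [eventually_ge_atTop T] with t' ht' using hT t' t ht' ht A hA
    · rw [← tsub_le_iff_right]
      refine le_limsup_of_frequently_le (Eventually.frequently ?_)
      filter_upwards [eventually_ge_atTop T] with t' ht'
      exact tsub_le_iff_right.2 (hT t t' ht ht' A hA)
  have hm1 : ∀ A, m A ≤ 1 := fun A =>
    limsup_le_of_le (by isBoundedDefault) (Eventually.of_forall fun t => prob_le_one)
  have htend : ∀ A, MeasurableSet A → Tendsto (fun t => μ t A) atTop (𝓝 (m A)) := by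
    intro A hA
    rw [ENNReal.tendsto_nhds (ne_top_of_le_ne_top ENNReal.one_ne_top (hm1 A))]
    intro ε hε
    obtain ⟨T, hT⟩ := hclose ε hε
    filter_upwards [eventually_ge_atTop T] with t ht
    exact ⟨tsub_le_iff_right.2 (hT t ht A hA).1, (hT t ht A hA).2⟩
  have hempty : m ∅ = 0 := by simp [hm]
  have hadd : ∀ f : ℕ → Set E, (∀ i, MeasurableSet (f i)) → Pairwise (Function.onFun Disjoint f) →
      m (⋃ i, f i) = ∑' i, m (f i) := by
    intro f hf hd
    have hfin : ∀ s : Finset ℕ, m (⋃ i ∈ s, f i) = ∑ i ∈ s, m (f i) := by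
      intro s
      have h1 := htend _ (Finset.measurableSet_biUnion s fun i _ => hf i)
      have h2 : Tendsto (fun t => ∑ i ∈ s, μ t (f i)) atTop (𝓝 (∑ i ∈ s, m (f i))) :=
        tendsto_finsetSum _ fun i _ => htend _ (hf i)
      refine tendsto_nhds_unique h1 (h2.congr fun t => ?_)
      rw [measure_biUnion_finset (fun i _ j _ hij => hd hij) fun i _ => hf i]
    apply le_antisymm
    · refine ENNReal.le_of_forall_pos_le_add fun ε hε _ => ?_
      obtain ⟨T, hT⟩ := hclose ((ε : ℝ≥0∞) / 2) (ENNReal.half_pos (by exact_mod_cast hε.ne'))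
      have h1 := (hT T le_rfl _ (MeasurableSet.iUnion hf)).1
      have h2 : μ T (⋃ i, f i) ≤ ∑' i, m (f i) + (ε : ℝ≥0∞) / 2 := by
        rw [measure_iUnion hd hf, ENNReal.tsum_eq_iSup_sum]
        refine iSup_le fun s => ?_
        rw [← measure_biUnion_finset (fun i _ j _ hij => hd hij) fun i _ => hf i]
        refine (hT T le_rfl _ (Finset.measurableSet_biUnion s fun i _ => hf i)).2.trans ?_
        rw [hfin]
        gcongr
        exact ENNReal.sum_le_tsum s
      calc m (⋃ i, f i) ≤ μ T (⋃ i, f i) + (ε : ℝ≥0∞) / 2 := h1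
        _ ≤ ∑' i, m (f i) + (ε : ℝ≥0∞) / 2 + (ε : ℝ≥0∞) / 2 := by gcongr
        _ = _ := by rw [add_assoc, ENNReal.add_halves]
    · rw [ENNReal.tsum_eq_iSup_sum]
      refine iSup_le fun s => ?_
      rw [← hfin]
      refine le_of_tendsto_of_tendsto' (htend _ (Finset.measurableSet_biUnion s fun i _ => hf i))
        (htend _ (MeasurableSet.iUnion hf)) fun t => measure_mono ?_
      exact iUnion₂_subset fun i _ => subset_iUnion f i
  refine ⟨Measure.ofMeasurable (fun A _ => m A) hempty (fun f hf hd => hadd f hf hd), ⟨?_⟩, ?_⟩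
  · rw [Measure.ofMeasurable_apply _ MeasurableSet.univ]
    simp [hm]
  · intro A hA
    rw [Measure.ofMeasurable_apply _ hA]
    exact htend A hA

namespace Model

variable (M : Model)

lemma Q_affine {V : St → ℝ≥0∞} {a b : ℝ≥0∞} (ha : a ≠ ∞) (y : St) :
    M.Q (fun z => a * V z + b) y = a * M.Q V y + b := by
  unfold Q
  rw [lintegral_add_right _ measurable_const, lintegral_const_mul' _ _ ha]; simp

theorem lyapunov {V : St → ℝ≥0∞} (hV : Measurable V) {θ c ρ C0 : ℝ} (hc : 0 < c) (hρ : 0 ≤ ρ)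
    (hC0 : 0 ≤ C0) (hrate : M.lam * ρ ≤ M.lam + θ - c)
    (H1 : ∀ w t, 0 ≤ t →
      V (drain w t) ≤ ENNReal.ofReal (Real.exp (-(θ * t))) * V w + ENNReal.ofReal C0)
    (H2 : ∀ w, V w ≠ ∞ → ∀ᵐ s ∂(expMeasure M.lam), M.Q V (drain w s)
      ≤ ENNReal.ofReal (ρ * Real.exp (-(θ * s))) * V w + ENNReal.ofReal C0) :
    ∃ K : ℝ≥0, ∀ t w, 0 ≤ t →
      M.Pt t V w ≤ ENNReal.ofReal (Real.exp (-(c * t))) * V w + K := by
  have hl := M.hlam
  set β := C0 * M.lam / c with hβ
  have hβ0 : 0 ≤ β := by positivity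
  have hβc : β * c = C0 * M.lam := by rw [hβ]; field_simp
  set α := β + C0 with hα
  refine ⟨α.toNNReal, fun t w ht => ?_⟩
  have := M.Pt_le_of_super' hV (v := fun t w => ENNReal.ofReal (Real.exp (-(c * t))) * V w
    + ENNReal.ofReal (α - β * Real.exp (-(c * t)))) ?_ t w ht
  · refine this.trans (add_le_add_right (ENNReal.ofReal_le_ofReal ?_) _)
    have := mul_nonneg hβ0 (Real.exp_pos (-(c * t))).le
    linarith
  intro t w ht
  by_cases hw : V w = ∞
  · simp only [hw]
    rw [ENNReal.mul_top (by simpa using Real.exp_pos _)]; simp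
  obtain ⟨x, hx0, hx⟩ : ∃ x : ℝ, 0 ≤ x ∧ V w = ENNReal.ofReal x :=
    ⟨(V w).toReal, ENNReal.toReal_nonneg, (ENNReal.ofReal_toReal hw).symm⟩
  have hexp : ∀ s, s ≤ t → Real.exp (-(c * (t - s))) ≤ 1 := fun s hs => by
    rw [Real.exp_le_one_iff]; nlinarith
  rw [M.step_eq _ _ ht]
  have hI := lintegral_exp_Iic_le (r := M.lam) ht
    (fun s => Real.exp (-(c * (t - s))) * (ρ * Real.exp (-(θ * s)) * x + C0)
      + (α - β * Real.exp (-(c * (t - s)))))
    (fun s => -(Real.exp (-(M.lam * s)) * (Real.exp (-(c * (t - s))) * Real.exp (-(θ * s)) * x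
      + α - β * Real.exp (-(c * (t - s))))))
    (fun s => Real.exp (-(M.lam * s)) * ((M.lam + θ - c) * Real.exp (-(c * (t - s)))
      * Real.exp (-(θ * s)) * x + M.lam * α + β * (c - M.lam) * Real.exp (-(c * (t - s)))))
    ?_ (by fun_prop) ?_ ?_ hl
  · have h2 : ∫⁻ s, (Iic t).indicator (fun s => M.Q (fun w =>
          ENNReal.ofReal (Real.exp (-(c * (t - s)))) * V w
          + ENNReal.ofReal (α - β * Real.exp (-(c * (t - s))))) (drain w s)) s ∂(expMeasure M.lam)
        ≤ ∫⁻ s, (Iic t).indicator (fun s => ENNReal.ofReal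
          (Real.exp (-(c * (t - s))) * (ρ * Real.exp (-(θ * s)) * x + C0)
            + (α - β * Real.exp (-(c * (t - s)))))) s ∂(expMeasure M.lam) := by
      refine lintegral_mono_ae ?_
      filter_upwards [H2 w hw] with s hs
      by_cases h : s ≤ t
      · rw [indicator_of_mem (by exact h), indicator_of_mem (by exact h),
          M.Q_affine ENNReal.ofReal_ne_top,
          ENNReal.ofReal_add (by positivity) (by nlinarith [hexp s h]),
          ENNReal.ofReal_mul (Real.exp_pos _).le, ENNReal.ofReal_add (by positivity) hC0,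
          ENNReal.ofReal_mul (by positivity), ← hx]
        gcongr
      · rw [indicator_of_notMem (by exact h)]; exact zero_le
    refine (add_le_add (mul_le_mul_right (H1 w t ht) _) (h2.trans hI)).trans ?_
    rw [hx, ← ENNReal.ofReal_mul (Real.exp_pos _).le, ← ENNReal.ofReal_add (by positivity) hC0,
      ← ENNReal.ofReal_mul (Real.exp_pos _).le, ← ENNReal.ofReal_mul (Real.exp_pos _).le,
      ← ENNReal.ofReal_add (p := Real.exp (-(c * t)) * x) (by positivity)
        (by have := hexp 0 ht; rw [sub_zero] at this; nlinarith)]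
    have h0 : 0 ≤ -(Real.exp (-(M.lam * t)) * (Real.exp (-(c * (t - t))) * Real.exp (-(θ * t)) * x
        + α - β * Real.exp (-(c * (t - t)))))
        - -(Real.exp (-(M.lam * 0)) * (Real.exp (-(c * (t - 0))) * Real.exp (-(θ * 0)) * x
        + α - β * Real.exp (-(c * (t - 0))))) := by
      have e1 : Real.exp (-(M.lam * t)) * Real.exp (-(θ * t)) ≤ Real.exp (-(c * t)) := by
        rw [← Real.exp_add, Real.exp_le_exp]; nlinarith [mul_nonneg hl.le hρ]
      have e2 : Real.exp (-(M.lam * t)) ≤ 1 := by rw [Real.exp_le_one_iff]; nlinarith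
      have e3 := hexp 0 ht
      simp only [sub_self, mul_zero, neg_zero, Real.exp_zero, sub_zero] at e3 ⊢
      nlinarith [mul_le_mul_of_nonneg_right e1 hx0]
    rw [← ENNReal.ofReal_add (by positivity) h0]
    refine ENNReal.ofReal_le_ofReal (le_of_eq ?_)
    simp only [sub_self, mul_zero, neg_zero, Real.exp_zero, sub_zero]
    ring
  · intro s
    have d1 : HasDerivAt (fun s => Real.exp (-(M.lam * s))) (Real.exp (-(M.lam * s)) * -M.lam) s := by
      simpa using ((hasDerivAt_id s).const_mul M.lam).neg.exp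
    have d2 : HasDerivAt (fun s => Real.exp (-(θ * s))) (Real.exp (-(θ * s)) * -θ) s := by
      simpa using ((hasDerivAt_id s).const_mul θ).neg.exp
    have d3 : HasDerivAt (fun s => Real.exp (-(c * (t - s)))) (Real.exp (-(c * (t - s))) * c) s := by
      simpa using (((hasDerivAt_id s).const_sub t).const_mul c).neg.exp
    refine ((d1.fun_mul ((((d3.fun_mul d2).mul_const x).add_const α).fun_sub
      (d3.const_mul β))).fun_neg).congr_deriv ?_
    ring
  · intro s hs hst
    have e1 := hexp s hst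
    have e2 := Real.exp_pos (-(c * (t - s)))
    have e3 := Real.exp_pos (-(θ * s))
    have e4 : 0 ≤ M.lam + θ - c := le_trans (by positivity) hrate
    refine mul_nonneg (Real.exp_pos _).le ?_
    have : 0 ≤ (M.lam + θ - c) * Real.exp (-(c * (t - s))) * Real.exp (-(θ * s)) * x := by
      positivity
    have h5 : M.lam * β * Real.exp (-(c * (t - s))) ≤ M.lam * β :=
      mul_le_of_le_one_right (by positivity) e1
    nlinarith [mul_nonneg (mul_nonneg hβ0 hc.le) e2.le, mul_nonneg hl.le hC0]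
  · intro s hs hst
    have e2 := Real.exp_pos (-(c * (t - s)))
    have e3 := Real.exp_pos (-(θ * s))
    have e4 := Real.exp_pos (-(M.lam * s))
    have : M.lam * ρ * (Real.exp (-(c * (t - s))) * Real.exp (-(θ * s)) * x)
        ≤ (M.lam + θ - c) * (Real.exp (-(c * (t - s))) * Real.exp (-(θ * s)) * x) :=
      mul_le_mul_of_nonneg_right hrate (by positivity)
    rw [mul_comm M.lam, mul_assoc]
    refine mul_le_mul_of_nonneg_left ?_ e4.le
    have h6 : β * c * Real.exp (-(c * (t - s))) = C0 * M.lam * Real.exp (-(c * (t - s))) := by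
      rw [hβc]
    nlinarith

lemma PP_first (h : ℝ) :
    ∫⁻ ω, (Iic h).indicator (fun _ => (1 : ℝ≥0∞)) (ω 0).1 ∂M.PP = expMeasure M.lam (Iic h) := by
  rw [M.lintegral_PP (F := fun ω => (Iic h).indicator (fun _ => (1 : ℝ≥0∞)) (ω 0).1)
    ((measurable_const.indicator measurableSet_Iic).comp
      (measurable_fst.comp (measurable_pi_apply 0)))]
  simp

theorem contraction {V : St → ℝ≥0∞} (hV : Measurable V) {c : ℝ} (hc : 0 < c) {K : ℝ≥0}
    (hK : ∀ t w, 0 ≤ t → M.Pt t V w ≤ ENNReal.ofReal (Real.exp (-(c * t))) * V w + K)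
    (H3 : ∀ R : ℝ≥0, ∃ h : ℝ, ∀ w, V w ≤ R → ∀ i, w i ≤ h) :
    ∃ (h : ℝ) (β a : ℝ≥0), 0 < h ∧ 0 < β ∧ 0 < a ∧ a < 1 ∧ ∀ (φ : St → ℝ≥0∞) (L : ℝ≥0), 0 < L →
      Measurable φ → (∀ x y, φ x ≤ φ y + L * (1 + β * (V x + V y))) →
      ∀ x y, M.Pt h φ x ≤ M.Pt h φ y + (a * L : ℝ≥0) * (1 + β * (V x + V y)) := by
  obtain ⟨h0, hh0⟩ := H3 (8 * K + 1)
  set h := max h0 (1 / c) with hh
  have hpos : 0 < h := lt_of_lt_of_le (by positivity) (le_max_right _ _)
  have hγ : ENNReal.ofReal (Real.exp (-(c * h))) ≤ (1 / 2 : ℝ≥0) := by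
    have h1 : 1 ≤ c * h := by
      have := mul_le_mul_of_nonneg_left (le_max_right h0 (1 / c)) hc.le
      rwa [mul_one_div_cancel hc.ne'] at this
    have h2 : Real.exp (-(c * h)) ≤ 1 / 2 := by
      rw [Real.exp_neg, inv_eq_one_div]
      apply one_div_le_one_div_of_le (by norm_num)
      linarith [Real.add_one_le_exp (c * h)]
    rw [← ENNReal.ofReal_coe_nnreal]
    exact ENNReal.ofReal_le_ofReal (by simpa using h2)
  obtain ⟨p, hp, hp1⟩ : ∃ p : ℝ≥0, expMeasure M.lam (Iic h) = p ∧ p < 1 := by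
    have := exp_Iic_lt_one M.hlam h
    lift expMeasure M.lam (Iic h) to ℝ≥0 using measure_ne_top _ _ with p
    exact ⟨p, rfl, by exact_mod_cast this⟩
  have hp1' : (p : ℝ) < 1 := by exact_mod_cast hp1
  set β : ℝ≥0 := ⟨(1 - p) / (4 * K + 1), by have := K.2; apply div_nonneg <;> [linarith; positivity]⟩
    with hβ
  have hβv : (β : ℝ) = (1 - p) / (4 * K + 1) := rfl
  have hβpos : (0 : ℝ) < β := by rw [hβv]; apply div_pos <;> [linarith; positivity]
  have hβK : (β : ℝ) * (4 * K + 1) = 1 - p := by rw [hβv]; field_simp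
  set ar : ℝ := max (7 / 8) (max ((1 + p) / 2) (1 - β / 8)) with har
  have har1 : ar < 1 := by
    rw [har, max_lt_iff, max_lt_iff]
    refine ⟨by norm_num, by linarith, by linarith⟩
  have a1 : 7 / 8 ≤ ar := le_max_left _ _
  have a2 : (1 + p) / 2 ≤ ar := (le_max_left _ _).trans (le_max_right _ _)
  have a3 : 1 - β / 8 ≤ ar := (le_max_right _ _).trans (le_max_right _ _)
  set a : ℝ≥0 := ⟨ar, by linarith⟩ with ha
  have hav : (a : ℝ) = ar := rfl
  refine ⟨h, β, a, hpos, by exact_mod_cast hβpos, by rw [← NNReal.coe_pos, hav]; linarith,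
    by rw [← NNReal.coe_lt_one, hav]; exact har1, fun φ L hL hφ hLip x y => ?_⟩
  have ha0 : a ≠ 0 := by rw [← NNReal.coe_ne_zero, hav]; linarith
  have hβ0 : β ≠ 0 := by rw [← NNReal.coe_ne_zero]; linarith
  by_cases hS : V x + V y = ∞
  · rw [hS, ENNReal.mul_top (by exact_mod_cast hβ0), add_top,
      ENNReal.mul_top (by exact_mod_cast mul_ne_zero ha0 hL.ne'), add_top]
    exact le_top
  have hx := ENNReal.add_ne_top.1 hS
  obtain ⟨vx, hvx⟩ : ∃ vx : ℝ≥0, V x = vx := ⟨(V x).toNNReal, (ENNReal.coe_toNNReal hx.1).symm⟩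
  obtain ⟨vy, hvy⟩ : ∃ vy : ℝ≥0, V y = vy := ⟨(V y).toNNReal, (ENNReal.coe_toNNReal hx.2).symm⟩
  have mx := M.measurable_workload' x h
  have my := M.measurable_workload' y h
  have gen : ∀ (I : Om → ℝ≥0∞) (q : ℝ≥0), Measurable I → ∫⁻ ω, I ω ∂M.PP ≤ q →
      (∀ ω, φ (workload M.J x ω h) ≤ φ (workload M.J y ω h)
        + L * (I ω + β * (V (workload M.J x ω h) + V (workload M.J y ω h)))) →
      (q : ℝ) + β * (vx / 2 + vy / 2 + 2 * K) ≤ ar * (1 + β * (vx + vy)) →
      M.Pt h φ x ≤ M.Pt h φ y + (a * L : ℝ≥0) * (1 + β * (V x + V y)) := by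
    intro I q hI hq hpt hineq
    refine (lintegral_mono hpt).trans ?_
    rw [lintegral_add_left (f := fun ω => φ (workload M.J y ω h)) (hφ.comp my),
      lintegral_const_mul' _ _ ENNReal.coe_ne_top,
      lintegral_add_left hI, lintegral_const_mul' _ _ ENNReal.coe_ne_top,
      lintegral_add_left (f := fun ω => V (workload M.J x ω h)) (hV.comp mx)]
    refine add_le_add le_rfl ?_
    have h1 : M.Pt h V x ≤ (1 / 2 : ℝ≥0) * vx + K :=
      (hK h x hpos.le).trans (by rw [hvx]; gcongr)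
    have h2 : M.Pt h V y ≤ (1 / 2 : ℝ≥0) * vy + K :=
      (hK h y hpos.le).trans (by rw [hvy]; gcongr)
    calc (L : ℝ≥0∞) * (∫⁻ ω, I ω ∂M.PP + β * (M.Pt h V x + M.Pt h V y))
        ≤ L * (q + β * (((1 / 2 : ℝ≥0) * vx + K) + ((1 / 2 : ℝ≥0) * vy + K))) := by gcongr
      _ ≤ _ := by
        rw [hvx, hvy]
        norm_cast
        rw [← NNReal.coe_le_coe]
        push_cast
        rw [hav]
        have := mul_le_mul_of_nonneg_left hineq L.2
        change (L : ℝ) * _ ≤ (L : ℝ) * _ at this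
        nlinarith
  have hK0 : (0 : ℝ) ≤ K := K.2
  have hvx0 : (0 : ℝ) ≤ vx := vx.2
  have hvy0 : (0 : ℝ) ≤ vy := vy.2
  by_cases hR : (vx : ℝ) + vy ≤ 8 * K + 1
  · refine gen (fun ω => (Iic h).indicator (fun _ => (1 : ℝ≥0∞)) (ω 0).1) p
      ((measurable_const.indicator measurableSet_Iic).comp
      (measurable_fst.comp (measurable_pi_apply 0))) (by rw [PP_first, hp]) (fun ω => ?_) ?_
    · by_cases hω : (ω 0).1 ≤ h
      · rw [indicator_of_mem (by exact hω)]; exact hLip _ _
      · have e1 : ∀ z : St, V z ≤ (8 * K + 1 : ℝ≥0) → workload M.J z ω h = 0 := fun z hz => by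
          rw [M.workload_of_lt z ω (not_le.1 hω)]
          funext i
          have := hh0 z hz i
          have := le_max_left h0 (1 / c)
          simp only [drain, Pi.zero_apply]
          exact max_eq_right (by linarith)
        rw [e1 x, e1 y]
        · exact le_self_add
        · rw [hvy]; norm_cast; rw [← NNReal.coe_le_coe]; push_cast; linarith
        · rw [hvx]; norm_cast; rw [← NNReal.coe_le_coe]; push_cast; linarith
    · nlinarith [mul_nonneg hβpos.le (add_nonneg hvx0 hvy0)]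
  · refine gen (fun _ => 1) 1 measurable_const (by simp) (fun ω => hLip _ _) ?_
    push Not at hR
    push_cast
    have e1 : (β : ℝ) * (2 * K) ≤ β * ((vx + vy) / 4) :=
      mul_le_mul_of_nonneg_left (by linarith) hβpos.le
    have e2 : (β : ℝ) * 1 ≤ β * (vx + vy) := mul_le_mul_of_nonneg_left (by linarith) hβpos.le
    have e3 : 7 / 8 * ((β : ℝ) * (vx + vy)) ≤ ar * (β * (vx + vy)) :=
      mul_le_mul_of_nonneg_right a1 (by positivity)
    nlinarith

theorem cauchy {V : St → ℝ≥0∞} (hV : Measurable V) {c : ℝ} (hc : 0 < c) {K : ℝ≥0}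
    (hK : ∀ t w, 0 ≤ t → M.Pt t V w ≤ ENNReal.ofReal (Real.exp (-(c * t))) * V w + K)
    (H3 : ∀ R : ℝ≥0, ∃ h : ℝ, ∀ w, V w ≤ R → ∀ i, w i ≤ h) {w : St} (hw : V w ≠ ∞)
    (ε : ℝ≥0∞) (hε : 0 < ε) : ∃ T : ℝ, ∀ t t', T ≤ t → T ≤ t' → ∀ φ : St → ℝ≥0∞,
      Measurable φ → (∀ y, φ y ≤ 1) → M.Pt t φ w ≤ M.Pt t' φ w + ε := by
  obtain ⟨h, β, a, hh, hβ, ha, ha1, hcon⟩ := M.contraction hV hc hK H3
  have hiter : ∀ φ : St → ℝ≥0∞, Measurable φ → (∀ y, φ y ≤ 1) → ∀ n : ℕ, ∀ x y,
      M.Pt ((n + 1) * h) φ x ≤ M.Pt ((n + 1) * h) φ y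
        + (a ^ (n + 1) : ℝ≥0) * (1 + β * (V x + V y)) := by
    intro φ hφ hφ1 n
    induction n with
    | zero =>
      have := hcon φ 1 one_pos hφ fun x y => (hφ1 x).trans (by
        refine le_add_left ?_
        simp)
      simpa using this
    | succ n ih =>
      intro x y
      have := hcon _ (a ^ (n + 1)) (by positivity) (M.measurable_Pt' hφ _) ih x y
      rw [← M.semigroup hφ hφ1 (by positivity) hh.le, ← M.semigroup hφ hφ1 (by positivity) hh.le,
        ← pow_succ'] at this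
      have e : h + ((n : ℝ) + 1) * h = (((n + 1 : ℕ) : ℝ) + 1) * h := by push_cast; ring
      rwa [e] at this
  set D : ℝ≥0∞ := 1 + β * (V w + K + V w) with hD
  have hDtop : D ≠ ∞ := by
    rw [hD]
    refine ENNReal.add_ne_top.2 ⟨by simp, ENNReal.mul_ne_top (by simp) ?_⟩
    exact ENNReal.add_ne_top.2 ⟨ENNReal.add_ne_top.2 ⟨hw, by simp⟩, hw⟩
  have hlim : Tendsto (fun n : ℕ => ((a : ℝ≥0∞)) ^ (n + 1) * D) atTop (𝓝 (0 * D)) :=
    ENNReal.Tendsto.mul_const ((ENNReal.tendsto_pow_atTop_nhds_zero_of_lt_one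
      (by exact_mod_cast ha1)).comp (tendsto_add_atTop_nat 1)) (Or.inr hDtop)
  rw [zero_mul] at hlim
  obtain ⟨n, hn⟩ := (hlim.eventually (ge_mem_nhds (ENNReal.half_pos hε.ne'))).exists
  refine ⟨(n + 1) * h, fun t t' ht ht' φ hφ hφ1 => ?_⟩
  set ψ := M.Pt ((n + 1) * h) φ with hψ
  have hint : ∀ s, 0 ≤ s → ∫⁻ ω, (a ^ (n + 1) : ℝ≥0) * (1 + β * (V (workload M.J w ω s) + V w))
      ∂M.PP ≤ ε / 2 := by
    intro s hs
    refine le_trans ?_ hn
    rw [lintegral_const_mul' _ _ ENNReal.coe_ne_top, lintegral_add_left measurable_const,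
      lintegral_const_mul' _ _ ENNReal.coe_ne_top, lintegral_add_right _ measurable_const]
    have h1 : M.Pt s V w ≤ V w + K := by
      refine (hK s w hs).trans (add_le_add_left ?_ _)
      refine mul_le_of_le_one_left' ?_
      rw [ENNReal.ofReal_le_one, Real.exp_le_one_iff]; nlinarith
    simp only [lintegral_const, measure_univ, mul_one, ENNReal.coe_pow]
    rw [hD]
    gcongr
    exact h1
  have hsg : ∀ s, (n + 1) * h ≤ s → M.Pt s φ w = M.Pt (s - (n + 1) * h) ψ w := fun s hs => by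
    rw [hψ, ← M.semigroup hφ hφ1 (by positivity) (by linarith), sub_add_cancel]
  have up : M.Pt t φ w ≤ ψ w + ε / 2 := by
    rw [hsg t ht]
    refine (lintegral_mono fun ω => hiter φ hφ hφ1 n _ w).trans ?_
    rw [lintegral_add_left measurable_const]
    simp only [lintegral_const, measure_univ, mul_one]
    exact add_le_add_right (hint _ (by linarith)) _
  have lo : ψ w ≤ M.Pt t' φ w + ε / 2 := by
    rw [hsg t' ht']
    calc ψ w = ∫⁻ _ω, ψ w ∂M.PP := by simp
      _ ≤ ∫⁻ ω, ψ (workload M.J w ω (t' - (n + 1) * h)) + (a ^ (n + 1) : ℝ≥0)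
          * (1 + β * (V (workload M.J w ω (t' - (n + 1) * h)) + V w)) ∂M.PP := by
        refine lintegral_mono fun ω => ?_
        rw [add_comm (V _) (V w)]
        exact hiter φ hφ hφ1 n w _
      _ ≤ _ := by
        rw [lintegral_add_left (f := fun ω => ψ (workload M.J w ω (t' - (n + 1) * h)))
          ((M.measurable_Pt' hφ _).comp (M.measurable_workload' w _))]
        exact add_le_add_right (hint _ (by linarith)) _
  calc M.Pt t φ w ≤ ψ w + ε / 2 := up
    _ ≤ M.Pt t' φ w + ε / 2 + ε / 2 := by gcongr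
    _ = _ := by rw [add_assoc, ENNReal.add_halves]

/-- The law of the workload at time `t`. -/
noncomputable def law (w : St) (t : ℝ) : ProbabilityMeasure St :=
  ⟨M.PP.map (fun ω => workload M.J w ω t),
    Measure.isProbabilityMeasure_map (M.measurable_workload' w t).aemeasurable⟩

lemma law_apply (w : St) (t : ℝ) {A : Set St} (hA : MeasurableSet A) :
    (M.law w t : Measure St) A = M.Pt t (A.indicator 1) w := by
  rw [← lintegral_indicator_one hA]
  exact lintegral_map (measurable_one.indicator hA) (M.measurable_workload' w t)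

lemma integral_law (w : St) (t : ℝ) (f : BoundedContinuousFunction St ℝ) :
    ∫ v, f v ∂(M.law w t : Measure St) = ∫ ω, f (workload M.J w ω t) ∂M.PP :=
  integral_map (M.measurable_workload' w t).aemeasurable f.continuous.aestronglyMeasurable

/-- Weak convergence of the law of the workload to a probability measure on the orthant. -/
def Stable (w : St) : Prop :=
  ∃ μ : Measure St, IsProbabilityMeasure μ ∧ μ {v | ∀ i, 0 ≤ v i} = 1 ∧
    ∀ f : BoundedContinuousFunction St ℝ,
      Tendsto (fun t : ℝ => ∫ ω, f (workload M.J w ω t) ∂M.PP) atTop (𝓝 (∫ v, f v ∂μ))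

theorem stable_of_lyapunov {V : St → ℝ≥0∞} (hV : Measurable V) {θ c ρ C0 : ℝ} (hc : 0 < c)
    (hρ : 0 ≤ ρ) (hC0 : 0 ≤ C0) (hrate : M.lam * ρ ≤ M.lam + θ - c)
    (H1 : ∀ w t, 0 ≤ t →
      V (drain w t) ≤ ENNReal.ofReal (Real.exp (-(θ * t))) * V w + ENNReal.ofReal C0)
    (H2 : ∀ w, V w ≠ ∞ → ∀ᵐ s ∂(expMeasure M.lam), M.Q V (drain w s)
      ≤ ENNReal.ofReal (ρ * Real.exp (-(θ * s))) * V w + ENNReal.ofReal C0)
    (H3 : ∀ R : ℝ≥0, ∃ h : ℝ, ∀ w, V w ≤ R → ∀ i, w i ≤ h) {w : St} (hw : V w ≠ ∞) :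
    M.Stable w := by
  obtain ⟨K, hK⟩ := M.lyapunov hV hc hρ hC0 hrate H1 H2
  obtain ⟨π, hπ, hlim⟩ := exists_setwise_limit (fun t => (M.law w t : Measure St)) fun ε hε => by
    obtain ⟨T, hT⟩ := M.cauchy hV hc hK H3 hw ε hε
    refine ⟨T, fun t t' ht ht' A hA => ?_⟩
    rw [M.law_apply w t hA, M.law_apply w t' hA]
    exact hT t t' ht ht' _ (measurable_one.indicator hA) fun y => indicator_le_self' (by simp) y
  have hO : MeasurableSet {v : St | ∀ i, 0 ≤ v i} := by
    have : {v : St | ∀ i, 0 ≤ v i} = ⋂ i, {v : St | 0 ≤ v i} := by ext; simp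
    rw [this]
    exact MeasurableSet.iInter fun i => measurableSet_le measurable_const (measurable_pi_apply i)
  refine ⟨π, hπ, ?_, fun f => ?_⟩
  · refine tendsto_nhds_unique (hlim _ hO) (tendsto_const_nhds.congr fun t => ?_)
    rw [M.law_apply w t hO]
    unfold Pt
    rw [lintegral_congr (g := fun _ => 1) fun ω => ?_]
    · simp
    · rw [indicator_of_mem (by exact fun i => drain_nonneg _ _ i)]; rfl
  · have : Tendsto (fun t => M.law w t) atTop (𝓝 ⟨π, hπ⟩) :=
      tendsto_of_forall_isOpen_le_liminf' fun G hG => by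
        rw [(hlim G hG.measurableSet).liminf_eq]; rfl
    have := ProbabilityMeasure.tendsto_iff_forall_integral_tendsto.1 this f
    simp only [integral_law] at this
    exact this

end Model

end Pool.Agent.Lib.MP_db3298_pr
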