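import Pool.Agent.Lib.MP_db3298_pr.Stab

/-!
From a lattice certificate to instability.
-/

set_option autoImplicit false

open MeasureTheory ProbabilityTheory Filter Topology Set
open scoped ENNReal NNReal

namespace Pool.Agent.Lib.MP_db3298_pr

/-- A lattice certificate for instability. -/
structure InstCert (Γ : ℤ → ℤ → ℤ → ℝ) (θ ρ C : ℝ) (h a b : ℕ) (t0 t1 t2 : Bool) : Prop where
  hθ : 0 < θ
  hρ : 1 / 2 ≤ ρ
  hC : 0 < C
  hh : 0 < h
  ha : 0 < a
  hb : 0 < b
  shift : ∀ x y z k, Γ (x + k) (y + k) (z + k) = Real.exp (-(θ * h * k)) * Γ x y z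
  lower : ∀ x y z, 2 * Real.exp (-(θ * h * (min x (min y z) : ℤ))) ≤ Γ x y z
  upper : ∀ x y z, Γ x y z ≤ C * Real.exp (-(θ * h * (min x (min y z) : ℤ)))
  drift : ∀ (x y z : ℤ) (s0 s1 s2 : Bool), (x < y → s0 = true) → (y < x → s0 = false) →
    (x = y → s0 = t0) → (y < z → s1 = true) → (z < y → s1 = false) → (y = z → s1 = t1) →
    (z < x → s2 = true) → (x < z → s2 = false) → (z = x → s2 = t2) →
    lhs Γ a b b 1 0 x y z s0 s1 s2 ≤ ρ * Γ x y z

/-- Integer part of the normalised difference. -/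
noncomputable def nf (h : ℕ) (w : St) (i : Fin 3) : ℤ := ⌊(w i - w 2) / h⌋

/-- Fractional part of the normalised difference. -/
noncomputable def ff (h : ℕ) (w : St) (i : Fin 3) : ℝ := Int.fract ((w i - w 2) / h)

lemma nf_add_ff {h : ℕ} (hh : 0 < h) (w : St) (i : Fin 3) :
    w i = w 2 + h * (nf h w i + ff h w i) := by
  have : (h : ℝ) ≠ 0 := by positivity
  unfold nf ff
  rw [Int.floor_add_fract]; field_simp; ring

noncomputable def G0 (Γ : ℤ → ℤ → ℤ → ℝ) (θ : ℝ) (h : ℕ) (w : St) : ℝ≥0∞ :=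
  ENNReal.ofReal (Real.exp (-(θ * w 2)) * Γ (nf h w 0) (nf h w 1) 0)

def InD (P : ℝ → ℝ → Prop) (h : ℕ) (w : St) : Prop := (∀ i, 0 < w i) ∧ P (ff h w 0) (ff h w 1)

open Classical in
noncomputable def GG (Γ : ℤ → ℤ → ℤ → ℝ) (θ : ℝ) (h : ℕ) (P : ℝ → ℝ → Prop) (w : St) : ℝ≥0∞ :=
  if InD P h w then G0 Γ θ h w else ∞

lemma measurable_GG (Γ : ℤ → ℤ → ℤ → ℝ) (θ : ℝ) (h : ℕ) {P : ℝ → ℝ → Prop}
    (hP : MeasurableSet {p : ℝ × ℝ | P p.1 p.2}) : Measurable (GG Γ θ h P) := by
  refine Measurable.ite ?_ ?_ measurable_const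
  · have : {w : St | InD P h w} = (⋂ i, {w : St | 0 < w i})
        ∩ (fun w : St => (ff h w 0, ff h w 1)) ⁻¹' {p : ℝ × ℝ | P p.1 p.2} := by
      ext w; simp [InD]
    rw [this]
    refine (MeasurableSet.iInter fun i =>
      measurableSet_lt measurable_const (measurable_pi_apply i)).inter (hP.preimage ?_)
    unfold ff
    exact (measurable_fract.comp (by fun_prop)).prodMk (measurable_fract.comp (by fun_prop))
  · unfold G0 nf
    have h1 : Measurable (fun n : ℤ × ℤ => Γ n.1 n.2 0) := measurable_of_countable _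
    refine Measurable.ennreal_ofReal (Measurable.mul (by fun_prop) ?_)
    exact h1.comp (f := fun w : St => (⌊(w 0 - w 2) / h⌋, ⌊(w 1 - w 2) / h⌋)) (by fun_prop)

lemma nf_bump {h : ℕ} (hh : 0 < h) (w : St) (x : ℕ) :
    (nf h (bump w 0 ((h * x : ℕ) : ℝ)) 0 = nf h w 0 + x ∧
      nf h (bump w 0 ((h * x : ℕ) : ℝ)) 1 = nf h w 1) ∧
    (nf h (bump w 1 ((h * x : ℕ) : ℝ)) 0 = nf h w 0 ∧
      nf h (bump w 1 ((h * x : ℕ) : ℝ)) 1 = nf h w 1 + x) ∧
    (nf h (bump w 2 ((h * x : ℕ) : ℝ)) 0 = nf h w 0 - x ∧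
      nf h (bump w 2 ((h * x : ℕ) : ℝ)) 1 = nf h w 1 - x) := by
  have h0 : (h : ℝ) ≠ 0 := by positivity
  have e1 : ∀ p q : ℝ, (p + h * x - q) / h = (p - q) / h + x := fun p q => by field_simp; ring
  have e2 : ∀ p q : ℝ, (p - (q + h * x)) / h = (p - q) / h - x := fun p q => by field_simp; ring
  simp [nf, bump, e1, e2]

lemma ff_bump {h : ℕ} (hh : 0 < h) (w : St) (x : ℕ) (k : Fin 3) :
    ff h (bump w k ((h * x : ℕ) : ℝ)) 0 = ff h w 0 ∧
      ff h (bump w k ((h * x : ℕ) : ℝ)) 1 = ff h w 1 := by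
  have h0 : (h : ℝ) ≠ 0 := by positivity
  have e1 : ∀ p q : ℝ, (p + h * x - q) / h = (p - q) / h + x := fun p q => by field_simp; ring
  have e2 : ∀ p q : ℝ, (p - (q + h * x)) / h = (p - q) / h - x := fun p q => by field_simp; ring
  fin_cases k <;> simp [ff, bump, e1, e2]

lemma le_bump (w : St) (k : Fin 3) {x : ℝ} (hx : 0 ≤ x) (i : Fin 3) : w i ≤ bump w k x i := by
  by_cases hik : i = k
  · subst hik; simp [bump, hx]
  · simp [bump, Function.update_of_ne hik]

lemma InD.bump {P : ℝ → ℝ → Prop} {h : ℕ} (hh : 0 < h) {w : St} (hw : InD P h w) (x : ℕ)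
    (k : Fin 3) : InD P h (bump w k ((h * x : ℕ) : ℝ)) := by
  refine ⟨fun i => (hw.1 i).trans_le (le_bump w k (by positivity) i), ?_⟩
  rw [(ff_bump hh w x k).1, (ff_bump hh w x k).2]
  exact hw.2

lemma drain_eq_sub {w : St} {s : ℝ} (h : ∀ i, s < w i) : drain w s = fun i => w i - s :=
  funext fun i => max_eq_left (by linarith [h i])

lemma InD.drain {P : ℝ → ℝ → Prop} {h : ℕ} {w : St} (hw : InD P h w) {s : ℝ}
    (hs : ∀ i, s < w i) : InD P h (drain w s) := by
  rw [drain_eq_sub hs]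
  refine ⟨fun i => by simpa using hs i, ?_⟩
  simpa [ff] using hw.2

/-- The decisions taken on the set `InD P h` follow the lattice rule with ties `t0, t1, t2`. -/
def DecOK (P : ℝ → ℝ → Prop) (h : ℕ) (tie : Tie) (t0 t1 t2 : Bool) : Prop :=
  ∀ w u, InD P h w →
    (nf h w 0 < nf h w 1 → dec tie w 0 u = true) ∧ (nf h w 1 < nf h w 0 → dec tie w 0 u = false) ∧
    (nf h w 0 = nf h w 1 → dec tie w 0 u = t0) ∧
    (nf h w 1 < 0 → dec tie w 1 u = true) ∧ (0 < nf h w 1 → dec tie w 1 u = false) ∧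
    (nf h w 1 = 0 → dec tie w 1 u = t1) ∧
    (0 < nf h w 0 → dec tie w 2 u = true) ∧ (nf h w 0 < 0 → dec tie w 2 u = false) ∧
    (0 = nf h w 0 → dec tie w 2 u = t2)

namespace InstCert

variable {Γ : ℤ → ℤ → ℤ → ℝ} {θ ρ C : ℝ} {h a b : ℕ} {t0 t1 t2 : Bool}
  (H : InstCert Γ θ ρ C h a b t0 t1 t2)
include H

lemma nonneg (x y z : ℤ) : 0 ≤ Γ x y z := le_trans (by positivity) (H.lower x y z)

lemma G0_bump (w : St) (x : ℕ) :
    G0 Γ θ h (bump w 0 ((h * x : ℕ) : ℝ))
      = ENNReal.ofReal (Real.exp (-(θ * w 2)) * Γ (nf h w 0 + x) (nf h w 1) 0) ∧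
    G0 Γ θ h (bump w 1 ((h * x : ℕ) : ℝ))
      = ENNReal.ofReal (Real.exp (-(θ * w 2)) * Γ (nf h w 0) (nf h w 1 + x) 0) ∧
    G0 Γ θ h (bump w 2 ((h * x : ℕ) : ℝ))
      = ENNReal.ofReal (Real.exp (-(θ * w 2)) * Γ (nf h w 0) (nf h w 1) (0 + x)) := by
  obtain ⟨⟨e1, e2⟩, ⟨e3, e4⟩, ⟨e5, e6⟩⟩ := nf_bump H.hh w x
  unfold G0
  rw [e1, e2, e3, e4, e5, e6]
  refine ⟨by simp [bump], by simp [bump], ?_⟩
  have := H.shift (nf h w 0 - x) (nf h w 1 - x) 0 x
  rw [sub_add_cancel, sub_add_cancel] at this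
  rw [this, ← mul_assoc, ← Real.exp_add]
  congr 3
  simp [bump]; ring

lemma le_G0 (w : St) (i : Fin 3) :
    ENNReal.ofReal (2 * Real.exp (-(θ * w i))) ≤ G0 Γ θ h w := by
  refine ENNReal.ofReal_le_ofReal (le_trans ?_
    (mul_le_mul_of_nonneg_left (H.lower _ _ _) (Real.exp_pos _).le))
  rw [mul_left_comm, ← Real.exp_add]
  refine mul_le_mul_of_nonneg_left (Real.exp_le_exp.2 ?_) (by norm_num)
  have e : min (nf h w 0) (min (nf h w 1) 0) ≤ nf h w i := by
    fin_cases i <;> simp [nf]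
  have e' : ((min (nf h w 0) (min (nf h w 1) 0) : ℤ) : ℝ) ≤ nf h w i := by exact_mod_cast e
  have e1 := nf_add_ff H.hh w i
  have e2 : 0 ≤ ff h w i := Int.fract_nonneg _
  have e3 : (0 : ℝ) ≤ h := by positivity
  have e4 : (h : ℝ) * ((min (nf h w 0) (min (nf h w 1) 0) : ℤ) : ℝ) ≤ h * (nf h w i + ff h w i) :=
    mul_le_mul_of_nonneg_left (by linarith) e3
  have := mul_le_mul_of_nonneg_left e4 H.hθ.le
  rw [e1]; nlinarith

lemma G0_le {w : St} {L : ℝ} (hL : ∀ i, L ≤ w i) :
    G0 Γ θ h w ≤ ENNReal.ofReal (C * Real.exp (-(θ * (L - h)))) := by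
  refine ENNReal.ofReal_le_ofReal
    ((mul_le_mul_of_nonneg_left (H.upper _ _ _) (Real.exp_pos _).le).trans ?_)
  rw [mul_left_comm, ← Real.exp_add]
  refine mul_le_mul_of_nonneg_left (Real.exp_le_exp.2 ?_) H.hC.le
  obtain ⟨i, hi⟩ : ∃ i, min (nf h w 0) (min (nf h w 1) 0) = nf h w i := by
    have e2 : nf h w 2 = 0 := by simp [nf]
    rcases min_choice (nf h w 0) (min (nf h w 1) 0) with h1 | h1
    · exact ⟨0, h1⟩
    · rcases min_choice (nf h w 1) 0 with h2 | h2
      · exact ⟨1, h1.trans h2⟩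
      · exact ⟨2, h1.trans (h2.trans e2.symm)⟩
  rw [hi]
  have e1 := nf_add_ff H.hh w i
  have e2 : ff h w i ≤ 1 := (Int.fract_lt_one _).le
  have e3 : (0 : ℝ) ≤ h := by positivity
  have e4 : L - h ≤ w 2 + h * nf h w i := by nlinarith [hL i]
  have := mul_le_mul_of_nonneg_left e4 H.hθ.le
  nlinarith

lemma exists_level : ∃ L : ℝ, 0 < L ∧ ∀ w : St, (∀ i, L ≤ w i) → G0 Γ θ h w ≤ 1 / 2 := by
  have hθ := H.hθ
  have hC := H.hC
  refine ⟨h + 2 * C / θ, by positivity, fun w hw => (H.G0_le hw).trans ?_⟩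
  have e1 : (1 / 2 : ℝ≥0∞) = ENNReal.ofReal (1 / 2) := by
    rw [ENNReal.ofReal_div_of_pos (by norm_num)]; simp
  rw [e1]
  refine ENNReal.ofReal_le_ofReal ?_
  have : θ * (h + 2 * C / θ - h) = 2 * C := by field_simp; ring
  rw [this, Real.exp_neg, ← div_eq_mul_inv, div_le_iff₀ (Real.exp_pos _)]
  linarith [Real.add_one_le_exp (2 * C)]

theorem not_stable {lam c : ℝ} (hlam : 0 < lam) (hc : 0 < c) (hrate : lam * ρ ≤ lam - θ - c)
    {tie : Tie} (ht : TieMeas tie) {P : ℝ → ℝ → Prop} (hP : MeasurableSet {p : ℝ × ℝ | P p.1 p.2})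
    (hdec : DecOK P h tie t0 t1 t2) {w : St} {τ : ℝ} (hτ : 0 ≤ τ)
    (hreach : (mkModel lam hlam (Measure.dirac ((h * a : ℕ) : ℝ)) (Measure.dirac ((h * b : ℕ) : ℝ))
      tie ht).Pt τ ({v | GG Γ θ h P v ≤ 1 / 2}.indicator 1) w ≠ 0) :
    ¬ (mkModel lam hlam (Measure.dirac ((h * a : ℕ) : ℝ)) (Measure.dirac ((h * b : ℕ) : ℝ))
      tie ht).Stable w := by
  have hθ := H.hθ
  have hρ := H.hρ
  refine Model.not_stable_of_escape _ (measurable_GG Γ θ h hP) (θ := θ) hc (by linarith) hrate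
    ?_ ?_ hτ hreach
  · intro w s hs
    by_cases hw : InD P h w
    swap
    · left
      simp only [GG, hw, if_false]
      rw [ENNReal.mul_top]
      · exact le_top
      · simp only [ne_eq, ENNReal.ofReal_eq_zero, not_le]
        exact mul_pos (by linarith) (Real.exp_pos _)
    simp only [GG, hw, if_true]
    by_cases hs' : ∀ i, s < w i
    · right
      have hy := hw.drain hs'
      refine Q_le hlam _ (twoPoint_dirac _) ht (measurable_GG Γ θ h hP) _ fun u => ?_
      have hb : ∀ k (x : ℕ), GG Γ θ h P (bump (drain w s) k ((h * x : ℕ) : ℝ))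
          = G0 Γ θ h (bump (drain w s) k ((h * x : ℕ) : ℝ)) := fun k x => by
        simp only [GG, hy.bump H.hh x k, if_true]
      obtain ⟨d1, d2, d3, d4, d5, d6, d7, d8, d9⟩ := hdec _ u hy
      have key := H.drift _ _ 0 _ _ _ d1 d2 d3 d4 d5 d6 d7 d8 d9
      have f1 : ((0 : Fin 3) + 1) = 1 := rfl
      have f2 : ((1 : Fin 3) + 1) = 2 := rfl
      have f3 : ((2 : Fin 3) + 1) = 0 := rfl
      simp only [val, f1, f2, f3, hb, H.G0_bump]
      have := ofReal_lhs H.nonneg (Real.exp_pos (-(θ * drain w s 2))).le zero_le_one le_rfl a b b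
        (nf h (drain w s) 0) (nf h (drain w s) 1) 0 (dec tie (drain w s) 0 u)
        (dec tie (drain w s) 1 u) (dec tie (drain w s) 2 u)
      rw [ENNReal.ofReal_one, ENNReal.ofReal_zero] at this
      rw [this, G0, ← ENNReal.ofReal_mul (mul_nonneg (by linarith) (Real.exp_pos _).le)]
      refine ENNReal.ofReal_le_ofReal
        ((mul_le_mul_of_nonneg_left key (Real.exp_pos _).le).trans (le_of_eq ?_))
      rw [drain_eq_sub hs']
      simp only [nf, sub_sub_sub_cancel_right]
      rw [show -(θ * (w 2 - s)) = θ * s + -(θ * w 2) by ring, Real.exp_add]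
      ring
    · left
      push Not at hs'
      obtain ⟨i, hi⟩ := hs'
      refine le_trans ?_ (mul_le_mul_right (H.le_G0 w i) _)
      rw [← ENNReal.ofReal_mul (mul_nonneg (by linarith) (Real.exp_pos _).le),
        ENNReal.one_le_ofReal]
      have : 1 ≤ Real.exp (θ * s) * Real.exp (-(θ * w i)) := by
        rw [← Real.exp_add]; exact Real.one_le_exp (by nlinarith)
      nlinarith
  · intro K
    refine ⟨Real.exp (θ * K), (Real.exp_pos _).le, fun w t ht hK => ?_⟩
    by_cases hw : InD P h w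
    swap
    · simp only [GG, hw, if_false]
      rw [ENNReal.mul_top]
      · exact le_top
      · simp only [ne_eq, ENNReal.ofReal_eq_zero, not_le]
        positivity
    simp only [GG, hw, if_true]
    refine le_trans ?_ (mul_le_mul_right (H.le_G0 w 0) _)
    rw [← ENNReal.ofReal_mul (by positivity), ENNReal.one_le_ofReal]
    have h1 : w 0 - t < K := (le_max_left _ _).trans_lt (hK 0)
    have : 1 ≤ Real.exp (θ * K) * Real.exp (θ * t) * Real.exp (-(θ * w 0)) := by
      rw [← Real.exp_add, ← Real.exp_add]; exact Real.one_le_exp (by nlinarith)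
    nlinarith

/-- High levels are reached with positive probability. -/
theorem reach {lam : ℝ} (hlam : 0 < lam) {tie : Tie} (ht : TieMeas tie) {P : ℝ → ℝ → Prop}
    (hP : MeasurableSet {p : ℝ × ℝ | P p.1 p.2}) {w : St} (hw : InD P h w) {t : ℝ} (ht0 : 0 < t)
    (hwt : ∀ i, t < w i) :
    (mkModel lam hlam (Measure.dirac ((h * a : ℕ) : ℝ)) (Measure.dirac ((h * b : ℕ) : ℝ))
      tie ht).Pt t ({v | GG Γ θ h P v ≤ 1 / 2}.indicator 1) w ≠ 0 := by
  obtain ⟨L, -, hL⟩ := H.exists_level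
  have hf : Measurable ({v | GG Γ θ h P v ≤ 1 / 2}.indicator (1 : St → ℝ≥0∞)) :=
    measurable_one.indicator (measurableSet_le (measurable_GG Γ θ h hP) measurable_const)
  set M := mkModel lam hlam (Measure.dirac ((h * a : ℕ) : ℝ)) (Measure.dirac ((h * b : ℕ) : ℝ))
      tie ht with hM
  have key : ∀ N : ℕ, ∀ (w : St) (t : ℝ), InD P h w → 0 < t → (∀ i, t < w i) →
      ∑ i, max (L + 1 - (w i - t)) 0 ≤ N →
      M.Pt t ({v | GG Γ θ h P v ≤ 1 / 2}.indicator 1) w ≠ 0 := by
    have done : ∀ (w : St) (t : ℝ), InD P h w → 0 < t → (∀ i, t < w i) → (∀ i, L ≤ w i - t) →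
        M.Pt t ({v | GG Γ θ h P v ≤ 1 / 2}.indicator 1) w ≠ 0 := by
      intro w t hw ht0 hwt hLw
      refine M.Pt_ne_zero_of_drain hf ht0.le ?_
      rw [indicator_of_mem]
      · simp
      · simp only [mem_ofPred_eq, GG, hw.drain hwt, if_true]
        refine hL _ fun i => ?_
        rw [drain_eq_sub hwt]; exact hLw i
    intro N
    induction N with
    | zero =>
      intro w t hw ht0 hwt hsum
      refine done w t hw ht0 hwt fun i => ?_
      have := Finset.single_le_sum (f := fun i => max (L + 1 - (w i - t)) 0)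
        (fun i _ => le_max_right _ _) (Finset.mem_univ i)
      have h2 := le_max_left (L + 1 - (w i - t)) 0
      simp only [Nat.cast_zero] at hsum
      linarith
    | succ N ih =>
      intro w t hw ht0 hwt hsum
      by_cases hLw : ∀ i, L ≤ w i - t
      · exact done w t hw ht0 hwt hLw
      push Not at hLw
      obtain ⟨j, hj⟩ := hLw
      obtain ⟨c, -, hc⟩ := Finset.exists_min_image Finset.univ w ⟨0, Finset.mem_univ _⟩
      refine M.Pt_ne_zero_of_jump hf ht0 fun s hs hst => ?_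
      have hs' : ∀ i, s < w i := fun i => hst.trans (hwt i)
      have hy := hw.drain hs'
      have step : ∀ (k : Fin 3) (x : ℕ), 0 < x → w k ≤ w c →
          M.Pt (t - s) ({v | GG Γ θ h P v ≤ 1 / 2}.indicator 1)
            (bump (drain w s) k ((h * x : ℕ) : ℝ)) ≠ 0 := by
        intro k x hx hk
        have hx1 : (1 : ℝ) ≤ ((h * x : ℕ) : ℝ) := by
          exact_mod_cast Nat.mul_pos H.hh hx
        refine ih _ _ (hy.bump H.hh x k) (by linarith) (fun i => ?_) ?_
        · refine lt_of_lt_of_le ?_ (le_bump _ k (by linarith) i)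
          rw [drain_eq_sub hs']; simp only; linarith [hwt i]
        · have hk' : w k - t < L := by linarith [hc j (Finset.mem_univ _)]
          rw [← Finset.add_sum_erase _ _ (Finset.mem_univ k)] at hsum ⊢
          have e1 : ∑ i ∈ Finset.univ.erase k,
              max (L + 1 - (bump (drain w s) k ((h * x : ℕ) : ℝ) i - (t - s))) 0
              = ∑ i ∈ Finset.univ.erase k, max (L + 1 - (w i - t)) 0 := by
            refine Finset.sum_congr rfl fun i hi => ?_
            rw [bump, Function.update_of_ne (Finset.mem_erase.1 hi).1, drain_eq_sub hs']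
            congr 1; ring
          have e2 : max (L + 1 - (bump (drain w s) k ((h * x : ℕ) : ℝ) k - (t - s))) 0
              ≤ max (L + 1 - (w k - t)) 0 - 1 := by
            rw [bump, Function.update_self, drain_eq_sub hs',
              max_eq_left (a := L + 1 - (w k - t)) (by linarith)]
            exact max_le (by simp only; linarith) (by linarith)
          rw [e1]; push_cast at hsum; linarith
      refine Q_ne_zero hlam _ (twoPoint_dirac _) ht (M.measurable_Pt' hf _) _ c fun u => ?_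
      unfold val
      cases hd : dec tie (drain w s) c u
      · have := le_of_dec_false hd
        rw [drain_eq_sub hs'] at this
        simp only [Bool.false_eq_true, if_false, one_mul, zero_mul, add_zero]
        exact step _ b H.hb (by simpa using this)
      · simp only [if_true]
        exact step _ a H.ha le_rfl
  obtain ⟨N, hN⟩ := exists_nat_ge (∑ i, max (L + 1 - (w i - t)) 0)
  exact key N w t hw ht0 hwt hN

end InstCert

/-- The certificate attached to a checked table. -/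
theorem instCert_of_check {r R : ℚ} (hr : 1 < r) {h : ℕ} (hh : 0 < h) (hR : R = (r ^ h)⁻¹)
    {K B L : ℕ} (hL : L = K + B) {tab : ℕ}
    {a b : ℕ} (ha0 : 0 < a) (hb0 : 0 < b) (ha : a ≤ B) (hb : b ≤ B) {ρ : ℚ} (hρ : 1 / 2 ≤ ρ)
    {t0 t1 t2 : Bool}
    (hchk : chkAll (Gam R K tab) a b b 1 0 ρ (okTie L t0 t1 t2) L = true) :
    InstCert (fun x y z => (Gam R K tab x y z : ℝ)) (Real.log r) ρ 4294967298 h a b t0 t1 t2 := by
  have hr0 : (0 : ℚ) < r := by linarith
  have hr0' : (0 : ℝ) < r := by exact_mod_cast hr0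
  have hR0 : (0 : ℚ) < R := by rw [hR]; positivity
  have hexp : ∀ k : ℤ, Real.exp (-(Real.log r * h * k)) = ((R ^ k : ℚ) : ℝ) := fun k => by
    rw [show -(Real.log r * h * k) = Real.log r * ((-(h * k) : ℤ) : ℝ) by push_cast; ring,
      ← Real.rpow_def_of_pos hr0', Real.rpow_intCast, hR]
    push_cast
    rw [inv_zpow', ← zpow_natCast, ← zpow_mul, mul_neg]
  have hρ' : (1 / 2 : ℝ) ≤ ρ := by
    have : ((1 / 2 : ℚ) : ℝ) ≤ ρ := by exact_mod_cast hρ
    simpa using this
  refine ⟨Real.log_pos (by exact_mod_cast hr), hρ', by norm_num, hh, ha0, hb0,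
    ?_, ?_, ?_, ?_⟩
  · intro x y z k
    rw [Gam_shift hR0.ne', hexp]; push_cast; rfl
  · intro x y z
    rw [hexp]
    exact_mod_cast Gam_lower hR0 K tab x y z
  · intro x y z
    rw [hexp]
    exact_mod_cast Gam_upper hR0 K tab x y z
  · intro x y z s0 s1 s2 h1 h2 h3 h4 h5 h6 h7 h8 h9
    have key := cert_sound hR0 hL (a := a) (b1 := b) (b2 := b) (by omega) (by omega) (by omega)
      hchk x y z (s0 := s0) (s1 := s1) (s2 := s2) (by
        simp only [okTie, Bool.and_eq_true]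
        refine ⟨⟨?_, ?_⟩, ?_⟩
        · split_ifs with c1 c2
          · exact h1 (by omega)
          · simp [h2 (by omega)]
          · by_cases e : x = y
            · simp [h3 e]
            · simp only [Bool.or_eq_true, decide_eq_true_eq]; left; omega
        · split_ifs with c1 c2
          · exact h4 (by omega)
          · simp [h5 (by omega)]
          · by_cases e : y = z
            · simp [h6 e]
            · simp only [Bool.or_eq_true, decide_eq_true_eq]; left; omega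
        · split_ifs with c1 c2
          · exact h7 (by omega)
          · simp [h8 (by omega)]
          · by_cases e : z = x
            · simp [h9 e]
            · simp only [Bool.or_eq_true, decide_eq_true_eq]; left; omega)
    have key2 : ((lhs (Gam R K tab) a b b 1 0 x y z s0 s1 s2 : ℚ) : ℝ)
        ≤ ((ρ * Gam R K tab x y z : ℚ) : ℝ) := by exact_mod_cast key
    rw [lhs_cast, Rat.cast_mul] at key2
    simpa using key2

end Pool.Agent.Lib.MP_db3298_pr
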