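import Mathlib

/-!
Lattice certificates: functions on `ℤ³` given by a finite table, and reduction of a drift
inequality to a finite check.
-/

set_option autoImplicit false

namespace Pool.Agent.Lib.MP_db3298_pr

/-- Table lookup, with values in `[2, 2^32 + 2)`. -/
def tabl (N tab i j k : ℕ) : ℕ :=
  2 + (tab >>> (32 * (if i = 0 then j * N + k else if j = 0 then N * N + i * N + k
    else 2 * N * N + i * N + j))) % 4294967296

lemma two_le_tabl (N tab i j k : ℕ) : 2 ≤ tabl N tab i j k := Nat.le_add_right _ _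

lemma tabl_le (N tab i j k : ℕ) : tabl N tab i j k ≤ 4294967298 := by
  unfold tabl; omega

/-- The lattice function attached to a table. -/
def Gam (R : ℚ) (K : ℤ) (tab : ℕ) (a b c : ℤ) : ℚ :=
  R ^ (min a (min b c)) * (tabl (K.toNat + 1) tab (min K (a - min a (min b c))).toNat
    (min K (b - min a (min b c))).toNat (min K (c - min a (min b c))).toNat : ℚ)

lemma Gam_congr (R : ℚ) (K : ℤ) (tab : ℕ) {a b c a' b' c' : ℤ}
    (h0 : min a (min b c) = min a' (min b' c'))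
    (h1 : min K (a - min a (min b c)) = min K (a' - min a' (min b' c')))
    (h2 : min K (b - min a (min b c)) = min K (b' - min a' (min b' c')))
    (h3 : min K (c - min a (min b c)) = min K (c' - min a' (min b' c'))) :
    Gam R K tab a b c = Gam R K tab a' b' c' := by
  unfold Gam; rw [h1, h2, h3, h0]

lemma Gam_shift {R : ℚ} (hR : R ≠ 0) (K : ℤ) (tab : ℕ) (a b c k : ℤ) :
    Gam R K tab (a + k) (b + k) (c + k) = R ^ k * Gam R K tab a b c := by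
  unfold Gam
  have h : min (a + k) (min (b + k) (c + k)) = min a (min b c) + k := by omega
  rw [h, zpow_add₀ hR, add_sub_add_right_eq_sub, add_sub_add_right_eq_sub,
    add_sub_add_right_eq_sub]
  ring

lemma Gam_lower {R : ℚ} (hR : 0 < R) (K : ℤ) (tab : ℕ) (a b c : ℤ) :
    2 * R ^ (min a (min b c)) ≤ Gam R K tab a b c := by
  unfold Gam
  rw [mul_comm]
  exact mul_le_mul_of_nonneg_left (by exact_mod_cast two_le_tabl _ _ _ _ _) (zpow_pos hR _).le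

lemma Gam_upper {R : ℚ} (hR : 0 < R) (K : ℤ) (tab : ℕ) (a b c : ℤ) :
    Gam R K tab a b c ≤ 4294967298 * R ^ (min a (min b c)) := by
  unfold Gam
  rw [mul_comm]
  exact mul_le_mul_of_nonneg_right (by exact_mod_cast tabl_le _ _ _ _ _) (zpow_pos hR _).le

/-- Mean value of `G` after one arrival, for the decisions `s0, s1, s2`. -/
def lhs {α : Type} [Field α] (G : ℤ → ℤ → ℤ → α) (a b1 b2 : ℤ) (p1 p2 : α) (n0 n1 n2 : ℤ)
    (s0 s1 s2 : Bool) : α :=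
  ((if s0 then G (n0 + a) n1 n2 else p1 * G n0 (n1 + b1) n2 + p2 * G n0 (n1 + b2) n2)
  + (if s1 then G n0 (n1 + a) n2 else p1 * G n0 n1 (n2 + b1) + p2 * G n0 n1 (n2 + b2))
  + (if s2 then G n0 n1 (n2 + a) else p1 * G (n0 + b1) n1 n2 + p2 * G (n0 + b2) n1 n2)) / 3

lemma lhs_cast (G : ℤ → ℤ → ℤ → ℚ) (a b1 b2 : ℤ) (p1 p2 : ℚ) (n0 n1 n2 : ℤ) (s0 s1 s2 : Bool) :
    ((lhs G a b1 b2 p1 p2 n0 n1 n2 s0 s1 s2 : ℚ) : ℝ)
      = lhs (fun x y z => (G x y z : ℝ)) a b1 b2 (p1 : ℝ) (p2 : ℝ) n0 n1 n2 s0 s1 s2 := by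
  unfold lhs
  split_ifs <;> push_cast <;> ring

/-- One point of the finite check. -/
def chk1 (G : ℤ → ℤ → ℤ → ℚ) (a b1 b2 : ℤ) (p1 p2 ρ : ℚ)
    (ok : ℤ → ℤ → ℤ → Bool → Bool → Bool → Bool) (n0 n1 n2 : ℤ) : Bool :=
  [true, false].all fun s0 => [true, false].all fun s1 => [true, false].all fun s2 =>
    !(ok n0 n1 n2 s0 s1 s2) || decide (lhs G a b1 b2 p1 p2 n0 n1 n2 s0 s1 s2 ≤ ρ * G n0 n1 n2)

/-- The finite check. -/
def chkAll (G : ℤ → ℤ → ℤ → ℚ) (a b1 b2 : ℤ) (p1 p2 ρ : ℚ)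
    (ok : ℤ → ℤ → ℤ → Bool → Bool → Bool → Bool) (L : ℕ) : Bool :=
  (List.range (L + 1)).all fun x => (List.range (L + 1)).all fun y =>
    chk1 G a b1 b2 p1 p2 ρ ok 0 x y && chk1 G a b1 b2 p1 p2 ρ ok x 0 y
      && chk1 G a b1 b2 p1 p2 ρ ok x y 0

lemma chk1_sound {G : ℤ → ℤ → ℤ → ℚ} {a b1 b2 : ℤ} {p1 p2 ρ : ℚ}
    {ok : ℤ → ℤ → ℤ → Bool → Bool → Bool → Bool} {n0 n1 n2 : ℤ}
    (h : chk1 G a b1 b2 p1 p2 ρ ok n0 n1 n2 = true) {s0 s1 s2 : Bool}
    (hok : ok n0 n1 n2 s0 s1 s2 = true) :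
    lhs G a b1 b2 p1 p2 n0 n1 n2 s0 s1 s2 ≤ ρ * G n0 n1 n2 := by
  simp only [chk1, List.all_eq_true] at h
  have := h s0 (by cases s0 <;> simp) s1 (by cases s1 <;> simp) s2 (by cases s2 <;> simp)
  simpa [hok] using this

lemma chkAll_sound {G : ℤ → ℤ → ℤ → ℚ} {a b1 b2 : ℤ} {p1 p2 ρ : ℚ}
    {ok : ℤ → ℤ → ℤ → Bool → Bool → Bool → Bool} {L : ℕ}
    (h : chkAll G a b1 b2 p1 p2 ρ ok L = true) {n0 n1 n2 : ℤ} (hm : min n0 (min n1 n2) = 0)
    (h0 : n0 ≤ L) (h1 : n1 ≤ L) (h2 : n2 ≤ L) {s0 s1 s2 : Bool}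
    (hok : ok n0 n1 n2 s0 s1 s2 = true) :
    lhs G a b1 b2 p1 p2 n0 n1 n2 s0 s1 s2 ≤ ρ * G n0 n1 n2 := by
  simp only [chkAll, List.all_eq_true, List.mem_range, Bool.and_eq_true] at h
  obtain ⟨m0, rfl⟩ := Int.eq_ofNat_of_zero_le (show 0 ≤ n0 by omega)
  obtain ⟨m1, rfl⟩ := Int.eq_ofNat_of_zero_le (show 0 ≤ n1 by omega)
  obtain ⟨m2, rfl⟩ := Int.eq_ofNat_of_zero_le (show 0 ≤ n2 by omega)
  have : m0 = 0 ∨ m1 = 0 ∨ m2 = 0 := by omega
  rcases this with rfl | rfl | rfl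
  · exact chk1_sound (h m1 (by omega) m2 (by omega)).1.1 hok
  · exact chk1_sound (h m0 (by omega) m2 (by omega)).1.2 hok
  · exact chk1_sound (h m0 (by omega) m1 (by omega)).2 hok

theorem cert_sound {R : ℚ} (hR : 0 < R) {K B L : ℕ} (hL : L = K + B) {tab : ℕ} {a b1 b2 : ℤ}
    (ha : -(B : ℤ) ≤ a ∧ a ≤ B) (hb1 : -(B : ℤ) ≤ b1 ∧ b1 ≤ B) (hb2 : -(B : ℤ) ≤ b2 ∧ b2 ≤ B)
    {p1 p2 ρ : ℚ} {ok : ℤ → ℤ → ℤ → Bool → Bool → Bool → Bool}
    (h : chkAll (Gam R K tab) a b1 b2 p1 p2 ρ ok L = true) (n0 n1 n2 : ℤ) {s0 s1 s2 : Bool}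
    (hok : ok (min L (n0 - min n0 (min n1 n2))) (min L (n1 - min n0 (min n1 n2)))
      (min L (n2 - min n0 (min n1 n2))) s0 s1 s2 = true) :
    lhs (Gam R K tab) a b1 b2 p1 p2 n0 n1 n2 s0 s1 s2 ≤ ρ * Gam R K tab n0 n1 n2 := by
  have key := chkAll_sound h (by omega) (by omega) (by omega) (by omega) hok
  generalize hm : min n0 (min n1 n2) = m at key hok
  obtain ⟨d0, rfl⟩ : ∃ d, n0 = d + m := ⟨n0 - m, by ring⟩
  obtain ⟨d1, rfl⟩ : ∃ d, n1 = d + m := ⟨n1 - m, by ring⟩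
  obtain ⟨d2, rfl⟩ : ∃ d, n2 = d + m := ⟨n2 - m, by ring⟩
  simp only [add_sub_cancel_right] at key
  have hL' : (L : ℤ) = K + B := by exact_mod_cast hL
  have e0 : ∀ x : ℤ, -(B : ℤ) ≤ x ∧ x ≤ B → Gam R K tab (d0 + m + x) (d1 + m) (d2 + m)
      = R ^ m * Gam R K tab (min (L : ℤ) d0 + x) (min (L : ℤ) d1) (min (L : ℤ) d2) := fun x hx => by
    rw [add_right_comm, Gam_shift hR.ne']
    congr 1
    apply Gam_congr <;> omega
  have e1 : ∀ x : ℤ, -(B : ℤ) ≤ x ∧ x ≤ B → Gam R K tab (d0 + m) (d1 + m + x) (d2 + m)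
      = R ^ m * Gam R K tab (min (L : ℤ) d0) (min (L : ℤ) d1 + x) (min (L : ℤ) d2) := fun x hx => by
    rw [add_right_comm d1, Gam_shift hR.ne']
    congr 1
    apply Gam_congr <;> omega
  have e2 : ∀ x : ℤ, -(B : ℤ) ≤ x ∧ x ≤ B → Gam R K tab (d0 + m) (d1 + m) (d2 + m + x)
      = R ^ m * Gam R K tab (min (L : ℤ) d0) (min (L : ℤ) d1) (min (L : ℤ) d2 + x) := fun x hx => by
    rw [add_right_comm d2, Gam_shift hR.ne']
    congr 1
    apply Gam_congr <;> omega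
  have e3 := e0 0 (by omega)
  simp only [add_zero] at e3
  have hp : 0 ≤ R ^ m := (zpow_pos hR m).le
  have := mul_le_mul_of_nonneg_left key hp
  unfold lhs at this ⊢
  rw [e0 a ha, e0 b1 hb1, e0 b2 hb2, e1 a ha, e1 b1 hb1, e1 b2 hb2, e2 a ha, e2 b1 hb1, e2 b2 hb2,
    e3]
  refine le_trans (le_of_eq ?_) (this.trans (le_of_eq (by ring)))
  split_ifs <;> ring

/-- Admissible decisions for the stability certificate (coordinates are negated workloads):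
the less loaded server is chosen, and the three decisions are not all equal. -/
def okLin (d0 d1 d2 : ℤ) (s0 s1 s2 : Bool) : Bool :=
  (if d1 < d0 then s0 else if d0 < d1 then !s0 else true)
  && (if d2 < d1 then s1 else if d1 < d2 then !s1 else true)
  && (if d0 < d2 then s2 else if d2 < d0 then !s2 else true)
  && !(s0 == s1 && s1 == s2)

/-- Admissible decisions for the instability certificate: the less loaded server is chosen, and
ties below level `L` are resolved by `t0, t1, t2`. -/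
def okTie (L : ℤ) (t0 t1 t2 : Bool) (d0 d1 d2 : ℤ) (s0 s1 s2 : Bool) : Bool :=
  (if d0 < d1 then s0 else if d1 < d0 then !s0 else (decide (L ≤ d0) || s0 == t0))
  && (if d1 < d2 then s1 else if d2 < d1 then !s1 else (decide (L ≤ d1) || s1 == t1))
  && (if d2 < d0 then s2 else if d0 < d2 then !s2 else (decide (L ≤ d2) || s2 == t2))

end Pool.Agent.Lib.MP_db3298_pr
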