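import Pool.Agent.Lib.MP_db3298_pr.Concrete

/-!
The probability `q` that the skeleton `W(1), W(2), …` never visits the empty state.
-/

set_option autoImplicit false

open MeasureTheory ProbabilityTheory Filter Topology Set
open scoped ENNReal NNReal

namespace Pool.Agent.Lib.MP_db3298_pr

lemma ms_ne0 : MeasurableSet ({(0 : St)}ᶜ : Set St) := (measurableSet_singleton _).compl

lemma drain_zero (t : ℝ) (ht : 0 ≤ t) : drain (0 : St) t = 0 := by
  funext i; simp [drain, ht]

namespace Model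

variable (M : Model)

lemma Pt_add (t : ℝ) {f g : St → ℝ≥0∞} (hf : Measurable f) (w : St) :
    M.Pt t (fun y => f y + g y) w = M.Pt t f w + M.Pt t g w :=
  lintegral_add_left (hf.comp (M.measurable_workload' w t)) _

lemma Pt_cmul (t : ℝ) (c : ℝ≥0∞) {f : St → ℝ≥0∞} (hf : Measurable f) (w : St) :
    M.Pt t (fun y => c * f y) w = c * M.Pt t f w :=
  lintegral_const_mul c (hf.comp (M.measurable_workload' w t))

lemma Pt_const (t : ℝ) (c : ℝ≥0∞) (w : St) : M.Pt t (fun _ => c) w = c := by simp [Pt]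

lemma Pt_ge_drain {f : St → ℝ≥0∞} (hf : Measurable f) {t : ℝ} (ht : 0 ≤ t) (w : St) :
    ENNReal.ofReal (Real.exp (-(M.lam * t))) * f (drain w t) ≤ M.Pt t f w := by
  rw [M.first_step hf, M.step_eq _ _ ht]; exact le_self_add

/-- Probability of avoiding `0` at the times `1, …, n`. -/
noncomputable def kk : ℕ → St → ℝ≥0∞
  | 0 => fun _ => 1
  | n + 1 => M.Pt 1 (({(0 : St)}ᶜ : Set St).indicator (kk n))

lemma measurable_kk : ∀ n, Measurable (M.kk n)
  | 0 => measurable_const
  | n + 1 => M.measurable_Pt' ((measurable_kk n).indicator ms_ne0) 1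

lemma kk_le_one : ∀ n y, M.kk n y ≤ 1
  | 0, _ => le_rfl
  | n + 1, y => M.Pt_le 1 (fun z => (indicator_le_self' (by simp) z).trans (kk_le_one n z)) y

lemma kk_succ_le : ∀ n y, M.kk (n + 1) y ≤ M.kk n y
  | 0, y => M.kk_le_one 1 y
  | n + 1, y => M.Pt_mono 1 (fun z => indicator_le_indicator (kk_succ_le n z)) y

lemma kk_anti (y : St) : Antitone fun n => M.kk n y :=
  antitone_nat_of_succ_le fun n => M.kk_succ_le n y

/-- Probability of never visiting `0` at an integer time. -/
noncomputable def qq (y : St) : ℝ≥0∞ := ⨅ n, M.kk n y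

lemma measurable_qq : Measurable M.qq := Measurable.iInf M.measurable_kk

lemma qq_le_kk (n : ℕ) (y : St) : M.qq y ≤ M.kk n y := iInf_le _ n

lemma qq_le_one (y : St) : M.qq y ≤ 1 := M.qq_le_kk 0 y

lemma tendsto_kk (y : St) : Tendsto (fun n => M.kk n y) atTop (𝓝 (M.qq y)) :=
  tendsto_atTop_iInf (M.kk_anti y)

lemma qq_eq (y : St) : M.qq y = M.Pt 1 (({(0 : St)}ᶜ : Set St).indicator M.qq) y := by
  have h1 : M.qq y = ⨅ n, M.kk (n + 1) y :=
    le_antisymm (le_iInf fun n => M.qq_le_kk _ y)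
      (le_iInf fun n => (iInf_le _ n).trans (M.kk_succ_le n y))
  rw [h1]
  simp only [kk, Pt]
  rw [← lintegral_iInf]
  · refine lintegral_congr fun ω => ?_
    by_cases h : workload M.J y ω 1 ∈ ({(0 : St)}ᶜ : Set St)
    · simp only [indicator_of_mem h]; rfl
    · simp only [indicator_of_notMem h]; simp
  · intro n
    exact ((M.measurable_kk n).indicator ms_ne0).comp (M.measurable_workload' y 1)
  · intro a b hab ω
    exact indicator_le_indicator (M.kk_anti _ hab)
  · refine ne_top_of_le_ne_top ENNReal.one_ne_top ?_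
    exact M.Pt_le 1 (fun z => (indicator_le_self' (by simp) z).trans (M.kk_le_one 0 z)) y

/-- First entrance bound. -/
lemma entrance {u : ℝ → St → ℝ≥0∞} {C c : ℝ≥0∞} (hC : ∀ t y, u t y ≤ C)
    (hu : ∀ t y, 0 ≤ t → u (t + 1) y ≤ M.Pt 1 (u t) y) :
    ∀ (n : ℕ) (t : ℝ), (n : ℝ) ≤ t → (∀ j : ℕ, 1 ≤ j → j ≤ n → u (t - j) 0 ≤ c) →
      ∀ y, u t y ≤ c + C * M.kk n y := by
  intro n
  induction n with
  | zero => intro t _ _ y; simpa [kk] using (hC t y).trans le_add_self
  | succ n ih =>
    intro t ht h y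
    push_cast at ht
    have h0 : (0 : ℝ) ≤ n := Nat.cast_nonneg n
    have h1 := hu (t - 1) y (by linarith)
    rw [sub_add_cancel] at h1
    refine h1.trans ?_
    have h2 := ih (t - 1) (by linarith) fun j hj hjn => by
      have := h (j + 1) (by omega) (by omega)
      push_cast at this
      rwa [show t - 1 - j = t - (j + 1) by ring]
    calc M.Pt 1 (u (t - 1)) y
        ≤ M.Pt 1 (fun z => c + C * ({(0 : St)}ᶜ : Set St).indicator (M.kk n) z) y := by
          refine M.Pt_mono 1 (fun z => ?_) y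
          by_cases hz : z ∈ ({(0 : St)}ᶜ : Set St)
          · rw [indicator_of_mem hz]; exact h2 z
          · have : z = 0 := by simpa using hz
            rw [this]
            have := h 1 le_rfl (by omega)
            simp only [Nat.cast_one] at this
            exact this.trans le_self_add
      _ = _ := by
          rw [M.Pt_add 1 measurable_const, M.Pt_const,
            M.Pt_cmul 1 _ ((M.measurable_kk n).indicator ms_ne0)]
          rfl

lemma squeeze {ε : ℝ≥0∞} {ρ : ℕ → St → ℝ≥0∞} (hρ : ∀ n, Measurable (ρ n))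
    (hs : ∀ n y, M.Pt 1 (ρ n) y ≤ ρ (n + 1) y) (h0 : ∀ y, M.qq y + ε ≤ 1 + ε * ρ 0 y) :
    ∀ n y, M.qq y + ε * M.kk n y ≤ M.kk n y + ε * ρ n y := by
  intro n
  induction n with
  | zero => intro y; simpa [kk] using h0 y
  | succ n ih =>
    intro y
    have hk := (M.measurable_kk n).indicator ms_ne0
    calc M.qq y + ε * M.kk (n + 1) y
        = M.Pt 1 (fun z => ({(0 : St)}ᶜ : Set St).indicator M.qq z
            + ε * ({(0 : St)}ᶜ : Set St).indicator (M.kk n) z) y := by
          rw [M.Pt_add 1 (M.measurable_qq.indicator ms_ne0), M.Pt_cmul 1 _ hk, ← M.qq_eq]; rfl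
      _ ≤ M.Pt 1 (fun z => ({(0 : St)}ᶜ : Set St).indicator (M.kk n) z + ε * ρ n z) y := by
          refine M.Pt_mono 1 (fun z => ?_) y
          by_cases hz : z ∈ ({(0 : St)}ᶜ : Set St)
          · simp only [indicator_of_mem hz]; exact ih z
          · simp [indicator_of_notMem hz]
      _ ≤ _ := by
          rw [M.Pt_add 1 hk, M.Pt_cmul 1 _ (hρ n)]
          exact add_le_add le_rfl (mul_le_mul_right (hs n y) _)

lemma qq_le_of_squeeze {ε η : ℝ≥0∞} (hε : ε ≠ 0) (hε' : ε ≠ ∞) {ρ : ℕ → ℝ≥0∞} {y : St}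
    (h : ∀ n, M.qq y + ε * M.kk n y ≤ M.kk n y + ε * ρ n) (hη : ∀ᶠ n in atTop, ρ n ≤ η) :
    M.qq y ≤ η := by
  have h1 : M.qq y + ε * M.qq y ≤ M.qq y + ε * η := by
    refine ge_of_tendsto ((M.tendsto_kk y).add_const (ε * η)) ?_
    filter_upwards [hη] with n hn
    exact (add_le_add le_rfl (mul_le_mul_right (M.qq_le_kk n y) _)).trans
      ((h n).trans (add_le_add le_rfl (mul_le_mul_right hn _)))
  have h2 := (ENNReal.add_le_add_iff_left
    (ne_top_of_le_ne_top ENNReal.one_ne_top (M.qq_le_one y))).1 h1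
  exact (ENNReal.mul_le_mul_iff_right hε hε').1 h2

/-- If `q` is bounded away from one it vanishes. -/
lemma qq_zero_of_gap {γ : ℝ≥0∞} (hγ : γ ≠ 0) (h : ∀ y, M.qq y + γ ≤ 1) (y : St) : M.qq y = 0 := by
  have hγ' : γ ≠ ∞ := ne_top_of_le_ne_top ENNReal.one_ne_top (le_add_self.trans (h y))
  have h1 := M.squeeze (ε := γ) (ρ := fun _ _ => 0) (fun _ => measurable_const)
    (fun _ y => (M.Pt_const 1 0 y).le) (fun y => by simpa using h y)
  exact le_antisymm (M.qq_le_of_squeeze hγ hγ' (ρ := fun _ => 0) (fun n => h1 n y)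
    (Eventually.of_forall fun _ => le_rfl)) zero_le

lemma qq_le_Pt (n : ℕ) (y : St) :
    M.qq y ≤ M.Pt (n + 1) (({(0 : St)}ᶜ : Set St).indicator M.qq) y := by
  have hm := M.measurable_qq.indicator ms_ne0
  have hb : ∀ z, ({(0 : St)}ᶜ : Set St).indicator M.qq z ≤ M.qq z :=
    fun z => indicator_le_self' (by simp) z
  induction n generalizing y with
  | zero => simpa using (M.qq_eq y).le
  | succ n ih =>
    rw [show ((n + 1 : ℕ) : ℝ) + 1 = 1 + (n + 1) by push_cast; ring,
      M.semigroup hm (fun z => (hb z).trans (M.qq_le_one z)) (by positivity) zero_le_one,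
      M.qq_eq y]
    exact M.Pt_mono 1 (fun z => (hb z).trans (ih z)) y

lemma ind_add_compl (t : ℝ) {A : Set St} (hA : MeasurableSet A) (y : St) :
    M.Pt t (A.indicator 1) y + M.Pt t (Aᶜ.indicator 1) y = 1 := by
  rw [← M.Pt_add t (measurable_one.indicator hA)]
  refine Eq.trans ?_ (M.Pt_const t 1 y)
  congr 1
  funext z
  by_cases h : z ∈ A <;> simp [h]

lemma hit_box {N : ℝ} (hN : 0 ≤ N) {y : St} (hy : ∀ i, y i < N) :
    ENNReal.ofReal (Real.exp (-(M.lam * N))) ≤ M.Pt N (({(0 : St)} : Set St).indicator 1) y := by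
  refine le_trans ?_ (M.Pt_ge_drain (measurable_one.indicator (measurableSet_singleton _)) hN y)
  have : drain y N = 0 := by
    funext i; simp only [drain, Pi.zero_apply]; exact max_eq_right (by linarith [hy i])
  simp [this]

lemma qq_box (n : ℕ) {y : St} (hy : ∀ i, y i < (n : ℝ) + 1) :
    M.qq y + ENNReal.ofReal (Real.exp (-(M.lam * (n + 1)))) ≤ 1 := by
  rw [← M.ind_add_compl (n + 1) (measurableSet_singleton (0 : St)) y, add_comm]
  refine add_le_add (M.hit_box (by positivity) hy) ((M.qq_le_Pt n y).trans ?_)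
  exact M.Pt_mono _ (fun z => indicator_le_indicator (M.qq_le_one z)) y

lemma tight {w : St} (hw : M.Stable w) {η : ℝ≥0∞} (hη : η ≠ 0) :
    ∃ n : ℕ, ∀ᶠ t in atTop,
      M.Pt t ({v : St | ∀ i, v i < (n : ℝ) + 1}ᶜ.indicator 1) w ≤ η := by
  obtain ⟨μ, hμ, -, hlim⟩ := hw
  have htend : Tendsto (fun t => M.law w t) atTop (𝓝 ⟨μ, hμ⟩) :=
    ProbabilityMeasure.tendsto_iff_forall_integral_tendsto.2 fun f => by
      simp only [integral_law]
      exact hlim f
  have hI : (⋂ n : ℕ, {v : St | ∀ i, v i < (n : ℝ) + 1}ᶜ) = ∅ := by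
    refine eq_empty_of_forall_notMem fun v hv => ?_
    obtain ⟨n, hn⟩ := exists_nat_gt (max (v 0) (max (v 1) (v 2)))
    simp only [max_lt_iff] at hn
    refine mem_iInter.1 hv n fun i => ?_
    fin_cases i
    · exact hn.1.trans (lt_add_one _)
    · exact hn.2.1.trans (lt_add_one _)
    · exact hn.2.2.trans (lt_add_one _)
  have hanti : Antitone fun n : ℕ => {v : St | ∀ i, v i < (n : ℝ) + 1}ᶜ := fun a b hab =>
    compl_subset_compl.2 fun v hv i => (hv i).trans_le (by
      have : (a : ℝ) ≤ b := by exact_mod_cast hab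
      linarith)
  have h1 := tendsto_measure_iInter_atTop (μ := μ)
    (fun n : ℕ => (isOpen_box ((n : ℝ) + 1)).measurableSet.compl.nullMeasurableSet) hanti
    ⟨0, measure_ne_top _ _⟩
  rw [hI, measure_empty] at h1
  obtain ⟨n, hn⟩ := (h1.eventually (gt_mem_nhds (pos_iff_ne_zero.2 hη))).exists
  refine ⟨n, ?_⟩
  have h2 := ProbabilityMeasure.limsup_measure_closed_le_of_tendsto htend
    (isOpen_box ((n : ℝ) + 1)).isClosed_compl
  filter_upwards [eventually_lt_of_limsup_lt (h2.trans_lt hn)] with t ht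
  rw [← M.law_apply w t (isOpen_box _).measurableSet.compl]
  exact ht.le

lemma ind_le_one (A : Set St) (y : St) : A.indicator (1 : St → ℝ≥0∞) y ≤ 1 :=
  indicator_le_self' (by simp) y

theorem qq_zero_of_stable {w : St} (hw : M.Stable w) : M.qq w = 0 := by
  refine le_antisymm (le_of_forall_gt_imp_ge_of_dense fun η hη => ?_) zero_le
  obtain ⟨n, hn⟩ := M.tight hw hη.ne'
  set B : Set St := {v : St | ∀ i, v i < (n : ℝ) + 1} with hB
  have hBm : Measurable (Bᶜ.indicator (1 : St → ℝ≥0∞)) :=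
    measurable_one.indicator (isOpen_box _).measurableSet.compl
  let ρ : ℕ → St → ℝ≥0∞ := fun m => Nat.rec (Bᶜ.indicator 1) (fun m _ => M.Pt (m + 1)
    (Bᶜ.indicator 1)) m
  have h1 := M.squeeze (ε := ENNReal.ofReal (Real.exp (-(M.lam * (n + 1))))) (ρ := ρ)
    (fun m => by
      cases m with
      | zero => exact hBm
      | succ m => exact M.measurable_Pt' hBm _)
    (fun m y => by
      cases m with
      | zero => simp [ρ]
      | succ m =>
        change M.Pt 1 (M.Pt (m + 1) _) y ≤ M.Pt (((m + 1 : ℕ) : ℝ) + 1) _ y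
        rw [← M.semigroup hBm (ind_le_one _) (by positivity) zero_le_one]
        exact le_of_eq (by congr 1; push_cast; ring))
    (fun y => by
      change _ ≤ 1 + _ * Bᶜ.indicator 1 y
      by_cases hy : y ∈ B
      · exact (M.qq_box n hy).trans le_self_add
      · rw [indicator_of_mem (by exact hy), Pi.one_apply, mul_one]
        exact add_le_add (M.qq_le_one y) le_rfl)
  refine M.qq_le_of_squeeze (by simpa using Real.exp_pos _) ENNReal.ofReal_ne_top
    (ρ := fun m => ρ m w) (fun m => h1 m w) ?_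
  have h2 := (tendsto_natCast_atTop_atTop (R := ℝ)).eventually hn
  filter_upwards [h2, eventually_ge_atTop 1] with m hm hm1
  obtain ⟨m, rfl⟩ : ∃ k, m = k + 1 := ⟨m - 1, by omega⟩
  change M.Pt (m + 1) _ w ≤ η
  simpa using hm

theorem qq0_of_stable {w : St} (hw : M.Stable w) : M.qq 0 = 0 := by
  obtain ⟨n, hn⟩ := M.tight hw (η := 2⁻¹) (by simp)
  obtain ⟨T, hT⟩ := eventually_atTop.1 (hn.and (eventually_ge_atTop 0))
  set B : Set St := {v : St | ∀ i, v i < (n : ℝ) + 1} with hB
  have hBm : MeasurableSet B := (isOpen_box _).measurableSet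
  set ε := ENNReal.ofReal (Real.exp (-(M.lam * (n + 1)))) with hε
  have h0m : Measurable (({(0 : St)} : Set St).indicator (1 : St → ℝ≥0∞)) :=
    measurable_one.indicator (measurableSet_singleton _)
  have h1 : ∀ t, T ≤ t → ε * 2⁻¹ ≤ M.Pt (t + (n + 1)) (({(0 : St)} : Set St).indicator 1) w := by
    intro t ht
    rw [M.semigroup h0m (ind_le_one _) (by positivity) (hT t ht).2]
    have h2 : 2⁻¹ ≤ M.Pt t (B.indicator 1) w := by
      have h3 := M.ind_add_compl t hBm w
      have h4 : (2⁻¹ : ℝ≥0∞) + 2⁻¹ ≤ M.Pt t (B.indicator 1) w + 2⁻¹ := by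
        rw [ENNReal.inv_two_add_inv_two, ← h3]; exact add_le_add le_rfl (hT t ht).1
      exact (ENNReal.add_le_add_iff_right (by simp)).1 h4
    refine (mul_le_mul_right h2 _).trans ?_
    rw [← M.Pt_cmul t ε (measurable_one.indicator hBm)]
    refine M.Pt_mono t (fun y => ?_) w
    by_cases hy : y ∈ B
    · rw [indicator_of_mem hy, Pi.one_apply, mul_one]; exact M.hit_box (by positivity) hy
    · simp [indicator_of_notMem hy]
  have h2 : ∀ t, 0 ≤ t → M.Pt t M.qq w + M.qq 0 * M.Pt (t + 1) (({(0 : St)} : Set St).indicator 1) w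
      = M.Pt (t + 1) M.qq w := by
    intro t ht
    have hm := M.measurable_qq.indicator ms_ne0
    have e : M.Pt t M.qq w = M.Pt (t + 1) (({(0 : St)}ᶜ : Set St).indicator M.qq) w := by
      rw [M.semigroup hm (fun z => (indicator_le_self' (by simp) z).trans (M.qq_le_one z))
        zero_le_one ht]
      congr 1
      exact funext M.qq_eq
    rw [e, ← M.Pt_cmul _ _ h0m, ← M.Pt_add _ hm]
    congr 1
    funext z
    by_cases hz : z = 0 <;> simp [hz]
  have hT0 : 0 ≤ T := (hT T le_rfl).2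
  have h3 : ∀ m : ℕ, m * (M.qq 0 * (ε * 2⁻¹)) ≤ M.Pt (T + n + m) M.qq w := by
    intro m
    induction m with
    | zero => simp
    | succ m ih =>
      push_cast
      rw [← add_assoc, ← h2 _ (by positivity), add_mul, one_mul]
      refine add_le_add ih (mul_le_mul_right ?_ _)
      have := h1 (T + m) (by linarith [Nat.cast_nonneg (α := ℝ) m])
      rwa [show T + m + (n + 1) = T + n + m + 1 by ring] at this
  by_contra hq
  have hc : M.qq 0 * (ε * 2⁻¹) ≠ 0 :=
    mul_ne_zero hq (mul_ne_zero (by simpa [hε] using Real.exp_pos _) (by simp))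
  obtain ⟨m, hm⟩ := ENNReal.exists_nat_mul_gt hc ENNReal.one_ne_top
  exact absurd ((h3 m).trans (M.Pt_le _ M.qq_le_one w)) (not_le.2 hm)

end Model

end Pool.Agent.Lib.MP_db3298_pr
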