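import Pool.Agent.Lib.MP_db3298_pr.NMa

/-!
If the empty state is recurrent, all starting points with `q = 0` have the same asymptotic law.
-/

set_option autoImplicit false

open MeasureTheory ProbabilityTheory Filter Topology Set
open scoped ENNReal NNReal

namespace Pool.Agent.Lib.MP_db3298_pr

lemma real_shift {a : ℝ → ℝ} {p : ℝ} (hp : 0 < p) (hp1 : p ≤ 1) (ha0 : ∀ t, 0 ≤ a t)
    (ha1 : ∀ t, a t ≤ 1)
    (H : ∀ ε > 0, ∃ n : ℕ, ∀ c t : ℝ, (n : ℝ) ≤ t →
      (∀ j : ℕ, j ≤ n → a (t - j + 1) + 1 - a (t - j) ≤ c) →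
      (a (t + 1 + 1) + 1 - a (t + 1)) + p * c ≤ p * (a (t + 1) + 1 - a t) + c + ε)
    {δ : ℝ} (hδ : 0 < δ) : ∀ᶠ t in atTop, a (t + 1) ≤ a t + δ := by
  set b : ℝ → ℝ := fun t => a (t + 1) + 1 - a t with hb
  have hbd : IsBoundedUnder (· ≤ ·) atTop b :=
    ⟨2, eventually_map.2 (Eventually.of_forall fun t => by
      simp only [hb]; linarith [ha1 (t + 1), ha0 t])⟩
  have hco : IsCoboundedUnder (· ≤ ·) atTop b :=
    isCoboundedUnder_le_of_le atTop (x := 0) fun t => by
      simp only [hb]; linarith [ha0 (t + 1), ha1 t]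
  by_contra hne
  rw [not_eventually] at hne
  have hM : 1 + δ ≤ limsup b atTop :=
    le_limsup_of_frequently_le (hne.mono fun t ht => by simp only [hb]; linarith [not_le.1 ht]) hbd
  set L := limsup b atTop with hL
  have key : ∀ k : ℕ, ∀ η > 0, ∃ᶠ t in atTop, ∀ j : ℕ, j ≤ k → L - η ≤ b (t - j) := by
    intro k
    induction k with
    | zero =>
      intro η hη
      refine (frequently_lt_of_lt_limsup hco (show L - η < L by linarith)).mono fun t ht j hj => ?_
      obtain rfl : j = 0 := by omega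
      simpa using ht.le
    | succ k ih =>
      intro η hη
      have hη' : 0 < p * η / 3 := by positivity
      obtain ⟨n, hn⟩ := H _ hη'
      obtain ⟨T, hT⟩ := eventually_atTop.1
        (eventually_lt_of_limsup_lt (show limsup b atTop < L + p * η / 3 by linarith) hbd)
      refine ((ih _ hη').and_eventually (eventually_ge_atTop (max T 0 + n + k + 1))).mono ?_
      rintro t ⟨h1, h2⟩ j hj
      rcases Nat.lt_or_ge j (k + 1) with hlt | hge
      · have := h1 j (by omega)
        nlinarith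
      · obtain rfl : j = k + 1 := by omega
        have h3 := hn (L + p * η / 3) (t - ((k + 1 : ℕ) : ℝ))
          (by push_cast; linarith [le_max_right T 0]) fun i hi => (hT _ (by
            have : (i : ℝ) ≤ n := by exact_mod_cast hi
            push_cast; linarith [le_max_left T 0])).le
        have h4 := h1 k le_rfl
        rw [show t - (k : ℝ) = t - ((k + 1 : ℕ) : ℝ) + 1 by push_cast; ring] at h4
        change b (t - ((k + 1 : ℕ) : ℝ) + 1) + p * (L + p * η / 3)
          ≤ p * b (t - ((k + 1 : ℕ) : ℝ)) + (L + p * η / 3) + p * η / 3 at h3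
        have h5 : p * (L - η) ≤ p * b (t - ((k + 1 : ℕ) : ℝ)) := by
          nlinarith [mul_pos hp hη']
        exact le_of_mul_le_mul_left h5 hp
  obtain ⟨k, hk⟩ := exists_nat_gt (2 / δ)
  obtain ⟨t, ht⟩ := (key k (δ / 2) (by positivity)).exists
  have tel : ∀ j : ℕ, j ≤ k → (j + 1) * (δ / 2) ≤ a (t + 1) - a (t - j) := by
    intro j
    induction j with
    | zero =>
      intro _
      have := ht 0 (Nat.zero_le _)
      simp only [hb, Nat.cast_zero, sub_zero] at this ⊢
      linarith
    | succ j ih =>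
      intro hj
      have h1 := ih (by omega)
      have h2 := ht (j + 1) hj
      simp only [hb] at h2
      rw [show t - ((j + 1 : ℕ) : ℝ) + 1 = t - j by push_cast; ring] at h2
      push_cast at h2 ⊢
      linarith
  have h1 := tel k le_rfl
  rw [div_lt_iff₀ hδ] at hk
  linarith [ha1 (t + 1), ha0 (t - k)]

lemma compl_flip {x x' y y' δ : ℝ≥0∞} (hx : x + x' = 1) (hy : y + y' = 1) (h : x' ≤ y' + δ) :
    y ≤ x + δ := by
  have hy' : y' ≠ ∞ := ne_top_of_le_ne_top ENNReal.one_ne_top (hy ▸ le_add_self)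
  refine (ENNReal.add_le_add_iff_right hy').1 ?_
  rw [hy, ← hx, add_assoc, add_comm δ]
  exact add_le_add le_rfl h

namespace Model

variable (M : Model)

lemma Pt_succ {f : St → ℝ≥0∞} (hf : Measurable f) (hf1 : ∀ y, f y ≤ 1) {t : ℝ} (ht : 0 ≤ t)
    (y : St) : M.Pt (t + 1) f y = M.Pt 1 (M.Pt t f) y := by
  rw [add_comm, M.semigroup hf hf1 ht zero_le_one]

lemma shift_up (h0 : M.qq 0 = 0) {A : Set St} (hA : MeasurableSet A) {δ : ℝ≥0∞} (hδ : δ ≠ 0) :
    ∀ᶠ t in atTop, M.Pt (t + 1) (A.indicator 1) 0 ≤ M.Pt t (A.indicator 1) 0 + δ := by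
  have hA1 : Measurable (A.indicator (1 : St → ℝ≥0∞)) := measurable_one.indicator hA
  have hA2 : Measurable (Aᶜ.indicator (1 : St → ℝ≥0∞)) := measurable_one.indicator hA.compl
  have h0m : Measurable (({(0 : St)} : Set St).indicator (1 : St → ℝ≥0∞)) :=
    measurable_one.indicator (measurableSet_singleton _)
  have fin : ∀ (B : Set St) t y, M.Pt t (B.indicator 1) y ≠ ∞ := fun B t y =>
    ne_top_of_le_ne_top ENNReal.one_ne_top (M.Pt_le t (ind_le_one B) y)
  set u : ℝ → St → ℝ≥0∞ := fun t y => M.Pt (t + 1) (A.indicator 1) y + M.Pt t (Aᶜ.indicator 1) y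
    with hu
  set a : ℝ → ℝ := fun t => (M.Pt t (A.indicator 1) 0).toReal with ha
  set P := M.Pt 1 (({(0 : St)} : Set St).indicator 1) 0 with hP
  have hu2 : ∀ t y, u t y ≤ 2 := fun t y => by
    rw [← one_add_one_eq_two]
    exact add_le_add (M.Pt_le _ (ind_le_one _) y) (M.Pt_le _ (ind_le_one _) y)
  have hus : ∀ t y, 0 ≤ t → u (t + 1) y ≤ M.Pt 1 (u t) y := fun t y ht => by
    simp only [hu]
    rw [M.Pt_add 1 (M.measurable_Pt' hA1 _), ← M.Pt_succ hA1 (ind_le_one _) (by linarith),
      ← M.Pt_succ hA2 (ind_le_one _) ht]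
  have hufin : ∀ t, u t 0 ≠ ∞ := fun t => ne_top_of_le_ne_top (by simp) (hu2 t 0)
  have hub : ∀ t, (u t 0).toReal = a (t + 1) + 1 - a t := fun t => by
    have h1 := congrArg ENNReal.toReal (M.ind_add_compl t hA 0)
    rw [ENNReal.toReal_add (fin _ _ _) (fin _ _ _)] at h1
    simp only [hu, ha]
    rw [ENNReal.toReal_add (fin _ _ _) (fin _ _ _)]
    simp only [ENNReal.toReal_one] at h1
    linarith
  have hP0 : P ≠ 0 := by
    have := M.hit_box (N := 1) zero_le_one (y := 0) (fun i => by simp)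
    exact (lt_of_lt_of_le (by simpa using Real.exp_pos _) this).ne'
  have a1 : ∀ t, a t ≤ 1 := fun t =>
    ENNReal.toReal_le_of_le_ofReal zero_le_one (by simpa using M.Pt_le t (ind_le_one A) 0)
  obtain ⟨d, hd0, hd⟩ : ∃ d : ℝ, 0 < d ∧ ENNReal.ofReal d ≤ δ := by
    by_cases h : δ = ∞
    · exact ⟨1, one_pos, h ▸ le_top⟩
    · exact ⟨δ.toReal, ENNReal.toReal_pos hδ h, ENNReal.ofReal_toReal_le⟩
  have main := real_shift (a := a) (p := P.toReal) (ENNReal.toReal_pos hP0 (fin _ _ _))
    (ENNReal.toReal_le_of_le_ofReal zero_le_one (by simpa using M.Pt_le 1 (ind_le_one _) 0))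
    (fun _ => ENNReal.toReal_nonneg) a1 (fun ε hε => by
      have h1 := M.tendsto_kk 0
      rw [h0] at h1
      obtain ⟨n, hn⟩ := (h1.eventually (gt_mem_nhds
        (show (0 : ℝ≥0∞) < ENNReal.ofReal (ε / 2) by simpa using hε))).exists
      refine ⟨n, fun c t ht h => ?_⟩
      have hc : 0 ≤ c := by
        have := h 0 (Nat.zero_le _)
        rw [← hub] at this
        exact ENNReal.toReal_nonneg.trans this
      have h2 := M.entrance (c := ENNReal.ofReal c) hu2 hus n t ht fun j _ hj => by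
        have := h j hj
        rw [← hub] at this
        exact (ENNReal.le_ofReal_iff_toReal_le (hufin _) hc).2 this
      have ht0 : 0 ≤ t := (Nat.cast_nonneg n).trans ht
      have hk := (M.measurable_kk n).indicator ms_ne0
      have h3 : u (t + 1) 0 + ENNReal.ofReal c * P
          ≤ u t 0 * P + (ENNReal.ofReal c + 2 * M.kk (n + 1) 0) := by
        calc _ ≤ M.Pt 1 (u t) 0 + ENNReal.ofReal c * P := add_le_add (hus t 0 ht0) le_rfl
          _ = M.Pt 1 (fun z => ENNReal.ofReal c * ({(0 : St)} : Set St).indicator 1 z + u t z) 0 := by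
              rw [M.Pt_add 1 (h0m.const_mul _), M.Pt_cmul 1 _ h0m, add_comm]
          _ ≤ M.Pt 1 (fun z => u t 0 * ({(0 : St)} : Set St).indicator 1 z + (ENNReal.ofReal c
                + 2 * ({(0 : St)}ᶜ : Set St).indicator (M.kk n) z)) 0 := by
              refine M.Pt_mono 1 (fun z => ?_) 0
              by_cases hz : z = 0
              · subst hz; simp [add_comm]
              · simpa [hz] using h2 z
          _ = _ := by
              rw [M.Pt_add 1 (h0m.const_mul _), M.Pt_cmul 1 _ h0m, M.Pt_add 1 measurable_const,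
                M.Pt_const, M.Pt_cmul 1 _ hk]
              rfl
      have h4 : 2 * M.kk (n + 1) 0 ≤ ENNReal.ofReal ε := by
        refine (mul_le_mul_right ((M.kk_succ_le n 0).trans hn.le) _).trans (le_of_eq ?_)
        rw [← ENNReal.ofReal_ofNat 2, ← ENNReal.ofReal_mul (by norm_num)]
        congr 1; ring
      have h5 := ENNReal.toReal_mono (ENNReal.add_ne_top.2 ⟨ENNReal.mul_ne_top (hufin t) (fin _ _ _),
        ENNReal.add_ne_top.2 ⟨ENNReal.ofReal_ne_top, ENNReal.ofReal_ne_top⟩⟩)
        (h3.trans (add_le_add le_rfl (add_le_add le_rfl h4)))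
      rw [ENNReal.toReal_add (hufin _) (ENNReal.mul_ne_top ENNReal.ofReal_ne_top (fin _ _ _)),
        ENNReal.toReal_add (ENNReal.mul_ne_top (hufin t) (fin _ _ _))
          (ENNReal.add_ne_top.2 ⟨ENNReal.ofReal_ne_top, ENNReal.ofReal_ne_top⟩),
        ENNReal.toReal_add ENNReal.ofReal_ne_top ENNReal.ofReal_ne_top, ENNReal.toReal_mul,
        ENNReal.toReal_mul, ENNReal.toReal_ofReal hc, ENNReal.toReal_ofReal hε.le, hub, hub] at h5
      linarith) hd0
  filter_upwards [main] with t ht
  refine le_trans ?_ (add_le_add le_rfl hd)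
  rw [← ENNReal.ofReal_toReal (fin A (t + 1) 0), ← ENNReal.ofReal_toReal (fin A t 0),
    ← ENNReal.ofReal_add ENNReal.toReal_nonneg hd0.le]
  exact ENNReal.ofReal_le_ofReal ht

/-- The laws at time `t` from `x` and from `y` merge setwise. -/
def Close (x y : St) : Prop :=
  ∀ A : Set St, MeasurableSet A → ∀ δ : ℝ≥0∞, δ ≠ 0 →
    ∀ᶠ t in atTop, M.Pt t (A.indicator 1) x ≤ M.Pt t (A.indicator 1) y + δ

lemma Close.symm {M : Model} {x y : St} (h : M.Close x y) : M.Close y x := fun A hA δ hδ => by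
  filter_upwards [h Aᶜ hA.compl δ hδ] with t ht
  exact compl_flip (M.ind_add_compl t hA x) (M.ind_add_compl t hA y) ht

lemma close_zero (h0 : M.qq 0 = 0) {x : St} (hx : M.qq x = 0) : M.Close x 0 := by
  intro A hA δ hδ
  have hA1 : Measurable (A.indicator (1 : St → ℝ≥0∞)) := measurable_one.indicator hA
  have h1 := M.tendsto_kk x
  rw [hx] at h1
  have hδ2 : δ / 2 ≠ 0 := by simp [hδ]
  obtain ⟨n, hn⟩ := (h1.eventually (gt_mem_nhds (pos_iff_ne_zero.2 hδ2))).exists
  obtain ⟨η, hη0, hη⟩ : ∃ η : ℝ≥0∞, η ≠ 0 ∧ n * η ≤ δ / 2 :=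
    ⟨δ / 2 / n, by simp [hδ], ENNReal.mul_div_le⟩
  obtain ⟨T, hT⟩ := eventually_atTop.1 (M.shift_up h0 hA.compl hη0)
  have h2 : ∀ (j : ℕ) (t : ℝ), T + j ≤ t →
      M.Pt (t - j) (A.indicator 1) 0 ≤ M.Pt t (A.indicator 1) 0 + j * η := by
    intro j
    induction j with
    | zero => intro t _; simp
    | succ j ih =>
      intro t ht
      push_cast at ht ⊢
      have h3 := compl_flip (M.ind_add_compl _ hA 0) (M.ind_add_compl _ hA 0)
        (hT (t - (j + 1)) (by linarith))
      rw [show t - (j + 1) + 1 = t - j by ring] at h3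
      rw [add_mul, one_mul, ← add_assoc]
      exact h3.trans (add_le_add (ih t (by linarith)) le_rfl)
  filter_upwards [eventually_ge_atTop (max T 0 + n)] with t ht
  have h3 := M.entrance (u := fun t => M.Pt t (A.indicator 1)) (C := 1)
    (c := M.Pt t (A.indicator 1) 0 + δ / 2) (fun t y => M.Pt_le t (ind_le_one A) y)
    (fun t y ht => (M.Pt_succ hA1 (ind_le_one A) ht y).le) n t
    (by linarith [le_max_right T 0]) (fun j _ hj => by
      have hj' : (j : ℝ) ≤ n := by exact_mod_cast hj
      refine (h2 j t (by linarith [le_max_left T 0])).trans (add_le_add le_rfl (le_trans ?_ hη))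
      exact mul_le_mul_left (by exact_mod_cast hj) _) x
  refine h3.trans ?_
  rw [one_mul, add_assoc]
  exact add_le_add le_rfl ((add_le_add le_rfl hn.le).trans (ENNReal.add_halves δ).le)

lemma stable_of_close {x y : St} (h : M.Close x y) (hx : M.Stable x) : M.Stable y := by
  obtain ⟨μ, hμ, hO, hlim⟩ := hx
  have htend : Tendsto (fun t => M.law x t) atTop (𝓝 ⟨μ, hμ⟩) :=
    ProbabilityMeasure.tendsto_iff_forall_integral_tendsto.2 fun f => by
      simp only [integral_law]
      exact hlim f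
  refine ⟨μ, hμ, hO, fun f => ?_⟩
  have : Tendsto (fun t => M.law y t) atTop (𝓝 ⟨μ, hμ⟩) :=
    tendsto_of_forall_isOpen_le_liminf' fun G hG => by
      have h1 := ProbabilityMeasure.le_liminf_measure_open_of_tendsto htend hG
      refine h1.trans (ENNReal.le_of_forall_pos_le_add fun ε hε _ => ?_)
      rw [← liminf_add_const atTop _ (ε : ℝ≥0∞) (by isBoundedDefault) (by isBoundedDefault)]
      refine liminf_le_liminf ?_
      filter_upwards [h G hG.measurableSet ε (by simpa using hε.ne')] with t ht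
      rw [M.law_apply x t hG.measurableSet]
      simpa [M.law_apply y t hG.measurableSet] using ht
  have := ProbabilityMeasure.tendsto_iff_forall_integral_tendsto.1 this f
  simp only [integral_law] at this
  exact this

theorem stable_of_qq {w x : St} (hw : M.Stable w) (hx : M.qq x = 0) : M.Stable x :=
  have h0 := M.qq0_of_stable hw
  M.stable_of_close (M.close_zero h0 hx).symm
    (M.stable_of_close (M.close_zero h0 (M.qq_zero_of_stable hw)) hw)

/-- If `0` is recurrent then `q` is harmonic. -/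
theorem harmonic (h0 : M.qq 0 = 0) {t : ℝ} (ht : 0 ≤ t) (x : St) : M.Pt t M.qq x = M.qq x := by
  have e : ({(0 : St)}ᶜ : Set St).indicator M.qq = M.qq := by
    funext z
    by_cases hz : z = 0 <;> simp [hz, h0]
  have h1 : ∀ y, M.Pt 1 M.qq y = M.qq y := fun y => by rw [M.qq_eq y, e]
  have h2 : ∀ (n : ℕ) (s : ℝ), 0 ≤ s → ∀ y, M.Pt (s + n) M.qq y = M.Pt s M.qq y := by
    intro n
    induction n with
    | zero => intro s _ y; simp
    | succ n ih =>
      intro s hs y
      push_cast
      rw [← add_assoc, M.semigroup M.measurable_qq M.qq_le_one zero_le_one (by positivity),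
        funext h1, ih s hs]
  have hm := fun s => M.measurable_Pt' M.measurable_qq s
  have h3 : ∀ s, 0 ≤ s → M.Pt s M.qq 0 = 0 := by
    intro s hs
    obtain ⟨n, hn⟩ := exists_nat_ge s
    have h4 := M.Pt_ge_drain (hm s) (t := 1 + n - s) (by linarith) 0
    rw [← M.semigroup M.measurable_qq M.qq_le_one hs (by linarith), sub_add_cancel,
      h2 n 1 zero_le_one, h1, h0, drain_zero _ (by linarith), nonpos_iff_eq_zero,
      mul_eq_zero] at h4
    exact h4.resolve_left (by simpa using Real.exp_pos _)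
  have h4 : ∀ s, 0 ≤ s → ∀ y, M.Pt s M.qq y ≤ M.qq y := by
    intro s hs y
    refine le_iInf fun n => ?_
    have := M.entrance (u := fun t => M.Pt t M.qq) (C := 1) (c := 0)
      (fun t y => M.Pt_le t M.qq_le_one y)
      (fun t y ht => (M.Pt_succ M.measurable_qq M.qq_le_one ht y).le) n (s + n) (by linarith)
      (fun j _ hj => (h3 _ (by
        have : (j : ℝ) ≤ n := by exact_mod_cast hj
        linarith)).le) y
    rw [h2 n s hs] at this
    simpa using this
  refine le_antisymm (h4 t ht x) ?_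
  obtain ⟨n, hn⟩ := exists_nat_ge t
  rw [← h1 x, ← h2 n 1 zero_le_one, show (1 : ℝ) + n = t + (1 + n - t) by ring,
    M.semigroup M.measurable_qq M.qq_le_one (by linarith) ht]
  exact M.Pt_mono t (h4 _ (by linarith)) x

end Model

end Pool.Agent.Lib.MP_db3298_pr
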