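import Pool.Agent.Lib.MP_db3298_pr.NMb

/-!
Closure properties of the set `{q = 0}` and bounds for the jump operator.
-/

set_option autoImplicit false

open MeasureTheory ProbabilityTheory Filter Topology Set
open scoped ENNReal NNReal

namespace Pool.Agent.Lib.MP_db3298_pr

lemma vol_ac_exp {r : ℝ} (hr : 0 < r) {p : ℝ → Prop} (h : ∀ᵐ s ∂(expMeasure r), p s) :
    ∀ᵐ s : ℝ, 0 < s → p s := by
  rw [expMeasure_eq, ae_withDensity_iff (measurable_expPDF r)] at h
  filter_upwards [h] with s hs h0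
  refine hs ?_
  rw [exponentialPDF_of_nonneg h0.le]
  simp only [ne_eq, ENNReal.ofReal_eq_zero, not_le]
  positivity

lemma exists_mem_Ioo_of_ae {p : ℝ → Prop} (h : ∀ᵐ s : ℝ, p s) {a b : ℝ} (hab : a < b) :
    ∃ s, a < s ∧ s < b ∧ p s := by
  have h1 : (volume : Measure ℝ) (Ioo a b) ≠ 0 := by simpa using hab
  obtain ⟨s, hs, hp⟩ := Measure.exists_mem_of_measure_ne_zero_of_ae h1 (ae_restrict_of_ae h)
  exact ⟨s, hs.1, hs.2, hp⟩

lemma ae_shift {p : ℝ → Prop} (h : ∀ᵐ s : ℝ, p s) (c : ℝ) : ∀ᵐ s : ℝ, p (s + c) :=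
  (measurePreserving_add_right volume c).quasiMeasurePreserving.ae h

lemma ae_flip {p : ℝ → Prop} (h : ∀ᵐ s : ℝ, p s) (c : ℝ) : ∀ᵐ s : ℝ, p (c - s) :=
  (Measure.measurePreserving_sub_left volume c).quasiMeasurePreserving.ae h

namespace Model

variable (M : Model)

lemma measurable_Q {g : St → ℝ≥0∞} (hg : Measurable g) : Measurable (M.Q g) :=
  Measurable.lintegral_prod_right' (f := fun p : St × Mk => g (M.J p.1 p.2)) (hg.comp M.hJ)

lemma measurable_Qdrain {g : St → ℝ≥0∞} (hg : Measurable g) (z : St) :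
    Measurable fun s => M.Q g (drain z s) :=
  (M.measurable_Q hg).comp (measurable_drain.comp (f := fun s : ℝ => (z, s)) (by fun_prop))

lemma qq_drain (h0 : M.qq 0 = 0) {x : St} (hx : M.qq x = 0) {t : ℝ} (ht : 0 ≤ t) :
    M.qq (drain x t) = 0 := by
  by_contra h
  exact M.Pt_ne_zero_of_drain M.measurable_qq ht h (by rw [M.harmonic h0 ht, hx])

lemma qq_step (h0 : M.qq 0 = 0) {t : ℝ} (ht : 0 ≤ t) (x : St) :
    M.qq x = ENNReal.ofReal (Real.exp (-(M.lam * t))) * M.qq (drain x t)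
      + ∫⁻ s, (Iic t).indicator (fun s => M.Q M.qq (drain x s)) s ∂(expMeasure M.lam) := by
  rw [← M.harmonic h0 ht x, M.first_step M.measurable_qq, M.step_eq _ _ ht]
  congr 1
  refine lintegral_congr fun s => ?_
  by_cases hs : s ∈ Iic t
  · rw [indicator_of_mem hs, indicator_of_mem hs,
      funext (M.harmonic h0 (t := t - s) (by simpa using hs))]
  · rw [indicator_of_notMem hs, indicator_of_notMem hs]

lemma qq_le_T (h0 : M.qq 0 = 0) (x : St) :
    M.qq x ≤ ∫⁻ s, M.Q M.qq (drain x s) ∂(expMeasure M.lam) := by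
  have h1 : Tendsto (fun t : ℝ => ENNReal.ofReal (Real.exp (-(M.lam * t)))
      + ∫⁻ s, M.Q M.qq (drain x s) ∂(expMeasure M.lam)) atTop
      (𝓝 (ENNReal.ofReal 0 + ∫⁻ s, M.Q M.qq (drain x s) ∂(expMeasure M.lam))) :=
    (ENNReal.tendsto_ofReal (Real.tendsto_exp_neg_atTop_nhds_zero.comp
      (Tendsto.const_mul_atTop M.hlam tendsto_id))).add_const _
  rw [ENNReal.ofReal_zero, zero_add] at h1
  refine ge_of_tendsto h1 ?_
  filter_upwards [eventually_ge_atTop 0] with t ht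
  rw [M.qq_step h0 ht x]
  refine add_le_add ((mul_le_mul_right (M.qq_le_one _) _).trans (mul_one _).le) ?_
  exact lintegral_mono fun s => indicator_le_self' (by simp) s

lemma qq_add_le (h0 : M.qq 0 = 0) {x : St} {γ θ : ℝ≥0∞}
    (h : ∀ᵐ s ∂(expMeasure M.lam), M.Q M.qq (drain x s) + γ ≤ θ) : M.qq x + γ ≤ θ := by
  calc M.qq x + γ ≤ ∫⁻ s, (M.Q M.qq (drain x s) + γ) ∂(expMeasure M.lam) := by
        rw [lintegral_add_right _ measurable_const]
        simpa using add_le_add (M.qq_le_T h0 x) (le_refl γ)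
    _ ≤ ∫⁻ _s, θ ∂(expMeasure M.lam) := lintegral_mono_ae h
    _ = θ := by simp

lemma ae_Q_zero (h0 : M.qq 0 = 0) {x : St} (hx : M.qq x = 0) :
    ∀ᵐ s : ℝ, 0 < s → M.Q M.qq (drain x s) = 0 := by
  refine vol_ac_exp M.hlam ?_
  have h1 : ∀ n : ℕ, ∀ᵐ s ∂(expMeasure M.lam), s ≤ (n : ℝ) → M.Q M.qq (drain x s) = 0 := by
    intro n
    have h2 := M.qq_step h0 (Nat.cast_nonneg n) x
    rw [hx, eq_comm, add_eq_zero, lintegral_eq_zero_iff
      ((M.measurable_Qdrain M.measurable_qq x).indicator measurableSet_Iic)] at h2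
    filter_upwards [h2.2] with s hs hsn
    rwa [indicator_of_mem (by exact hsn)] at hs
  filter_upwards [ae_all_iff.2 h1] with s hs
  obtain ⟨n, hn⟩ := exists_nat_ge s
  exact hs n hn

lemma Q_zero_zero (h0 : M.qq 0 = 0) : M.Q M.qq 0 = 0 := by
  obtain ⟨s, hs, -, h⟩ := exists_mem_Ioo_of_ae (M.ae_Q_zero h0 h0) zero_lt_one
  have := h hs
  rwa [drain_zero _ hs.le] at this

lemma ray_down (h0 : M.qq 0 = 0) {b : ℝ → St} (hb : ∀ κ t, 0 ≤ t → drain (b κ) t = b (κ - t))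
    {κ κ' : ℝ} (h : κ ≤ κ') (h' : M.qq (b κ') = 0) : M.qq (b κ) = 0 := by
  have := M.qq_drain h0 h' (t := κ' - κ) (by linarith)
  rwa [hb _ _ (by linarith), sub_sub_cancel] at this

lemma ray_Q (h0 : M.qq 0 = 0) {b : ℝ → St} (hb : ∀ κ t, 0 ≤ t → drain (b κ) t = b (κ - t)) :
    ∀ᵐ κ : ℝ, ∀ r : ℚ, κ < r → M.qq (b r) = 0 → M.Q M.qq (b κ) = 0 := by
  refine ae_all_iff.2 fun r => ?_
  by_cases hr : M.qq (b r) = 0
  · filter_upwards [ae_flip (M.ae_Q_zero h0 hr) r] with κ hκ h1 _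
    have := hκ (by linarith)
    rwa [hb _ _ (by linarith), sub_sub_cancel] at this
  · exact Eventually.of_forall fun _ _ h => absurd h hr

end Model

section
variable {lam : ℝ} (hlam : 0 < lam) {Fl Fr : Measure ℝ} [IsProbabilityMeasure Fl]
  [IsProbabilityMeasure Fr] {tie : Tie} (ht : TieMeas tie)

/-- Expected value of `g` after a class `c` customer has joined on side `σ`. -/
noncomputable def side (Fl Fr : Measure ℝ) (g : St → ℝ≥0∞) (y : St) (c : Fin 3) (σ : Bool) :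
    ℝ≥0∞ :=
  if σ then ∫⁻ x, g (bump y c x) ∂Fl else ∫⁻ x, g (bump y (c + 1) x) ∂Fr

lemma Q_eq' {g : St → ℝ≥0∞} (hg : Measurable g) (y : St) :
    (mkModel lam hlam Fl Fr tie ht).Q g y
      = ∫⁻ u in Icc (0 : ℝ) 1, 3⁻¹ * (side Fl Fr g y 0 (dec tie y 0 u)
        + side Fl Fr g y 1 (dec tie y 1 u) + side Fl Fr g y 2 (dec tie y 2 u)) := by
  have hm : Measurable (fun m : Mk => g (join tie y m)) :=
    hg.comp ((measurable_join ht).comp (f := fun m : Mk => (y, m)) (by fun_prop))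
  have h1 : ∀ c : Fin 3, ∫⁻ z : ℝ × ℝ × ℝ, g (join tie y (c, z))
      ∂((volume.restrict (Set.Icc (0 : ℝ) 1)).prod (Fl.prod Fr))
      = ∫⁻ u in Icc (0 : ℝ) 1, side Fl Fr g y c (dec tie y c u) := by
    intro c
    rw [lintegral_prod (fun z : ℝ × ℝ × ℝ => g (join tie y (c, z)))
      (hm.comp (f := fun z : ℝ × ℝ × ℝ => (c, z)) (by fun_prop)).aemeasurable]
    refine lintegral_congr fun u => ?_
    rw [lintegral_prod (fun z : ℝ × ℝ => g (join tie y (c, u, z)))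
      (hm.comp (f := fun z : ℝ × ℝ => (c, u, z)) (by fun_prop)).aemeasurable]
    simp only [join_eq, side]
    split_ifs
    · simp
    · simp
  have hv : ∀ c : Fin 3, Measurable fun u => side Fl Fr g y c (dec tie y c u) := fun c =>
    (measurable_of_finite (side Fl Fr g y c)).comp (measurable_dec ht y c)
  change ∫⁻ m, g (join tie y m) ∂((uniformOn (Set.univ : Set (Fin 3))).prod
      ((volume.restrict (Set.Icc (0 : ℝ) 1)).prod (Fl.prod Fr))) = _
  rw [lintegral_prod _ hm.aemeasurable, lintegral_uniform3, h1, h1, h1,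
    lintegral_const_mul' _ _ (by simp), lintegral_add_right _ (hv 2), lintegral_add_right _ (hv 1)]

lemma Q_add_le {g : St → ℝ≥0∞} (hg : Measurable g) (y : St) {γ θ : ℝ≥0∞}
    (h : ∀ u, side Fl Fr g y 0 (dec tie y 0 u) + side Fl Fr g y 1 (dec tie y 1 u)
      + side Fl Fr g y 2 (dec tie y 2 u) + γ ≤ 3 * θ) :
    (mkModel lam hlam Fl Fr tie ht).Q g y + 3⁻¹ * γ ≤ θ := by
  rw [Q_eq' hlam ht hg]
  calc _ = ∫⁻ u in Icc (0 : ℝ) 1, (3⁻¹ * (side Fl Fr g y 0 (dec tie y 0 u)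
        + side Fl Fr g y 1 (dec tie y 1 u) + side Fl Fr g y 2 (dec tie y 2 u)) + 3⁻¹ * γ) := by
        rw [lintegral_add_right _ measurable_const]; simp
    _ ≤ ∫⁻ _u in Icc (0 : ℝ) 1, θ := by
        refine lintegral_mono fun u => ?_
        rw [← mul_add]
        refine (mul_le_mul_right (h u) _).trans (le_of_eq ?_)
        rw [← mul_assoc, ENNReal.inv_mul_cancel (by simp) (by simp), one_mul]
    _ = θ := by simp

lemma Q_add_le_class {g : St → ℝ≥0∞} (hg : Measurable g) (y : St) {γ θ : ℝ≥0∞} (c : Fin 3)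
    (h : ∀ c σ, side Fl Fr g y c σ ≤ θ) (hc : ∀ u, side Fl Fr g y c (dec tie y c u) + γ ≤ θ) :
    (mkModel lam hlam Fl Fr tie ht).Q g y + 3⁻¹ * γ ≤ θ := by
  refine Q_add_le hlam ht hg y fun u => ?_
  have e : (3 : ℝ≥0∞) * θ = θ + θ + θ := by ring
  have h1 := hc u
  rw [e]
  fin_cases c
  · calc _ = (side Fl Fr g y 0 (dec tie y 0 u) + γ) + side Fl Fr g y 1 (dec tie y 1 u)
          + side Fl Fr g y 2 (dec tie y 2 u) := by ring
      _ ≤ _ := add_le_add (add_le_add h1 (h _ _)) (h _ _)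
  · calc _ = side Fl Fr g y 0 (dec tie y 0 u) + (side Fl Fr g y 1 (dec tie y 1 u) + γ)
          + side Fl Fr g y 2 (dec tie y 2 u) := by ring
      _ ≤ _ := add_le_add (add_le_add (h _ _) h1) (h _ _)
  · calc _ = side Fl Fr g y 0 (dec tie y 0 u) + side Fl Fr g y 1 (dec tie y 1 u)
          + (side Fl Fr g y 2 (dec tie y 2 u) + γ) := by ring
      _ ≤ _ := add_le_add (add_le_add (h _ _) (h _ _)) h1

lemma side_zero {g : St → ℝ≥0∞} (hg : Measurable g) {y : St}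
    (h : (mkModel lam hlam Fl Fr tie ht).Q g y = 0) (c : Fin 3) :
    ∃ u, side Fl Fr g y c (dec tie y c u) = 0 := by
  have hv : ∀ c : Fin 3, Measurable fun u => side Fl Fr g y c (dec tie y c u) := fun c =>
    (measurable_of_finite (side Fl Fr g y c)).comp (measurable_dec ht y c)
  rw [Q_eq' hlam ht hg] at h
  obtain ⟨u, hu⟩ := ((lintegral_eq_zero_iff
    ((((hv 0).add (hv 1)).add (hv 2)).const_mul 3⁻¹)).1 h).exists
  simp only [Pi.zero_apply, Pi.add_apply, mul_eq_zero, add_eq_zero, ENNReal.inv_eq_zero] at hu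
  obtain ⟨⟨h0, h1⟩, h2⟩ := hu.resolve_left (by simp)
  refine ⟨u, ?_⟩
  fin_cases c
  exacts [h0, h1, h2]

lemma jump_left {g : St → ℝ≥0∞} (hg : Measurable g) {y : St}
    (h : (mkModel lam hlam Fl Fr tie ht).Q g y = 0) {c : Fin 3} (hc : y c < y (c + 1)) :
    ∀ᵐ x ∂Fl, g (bump y c x) = 0 := by
  obtain ⟨u, hu⟩ := side_zero hlam ht hg h c
  rw [dec_of_lt tie u hc] at hu
  exact (lintegral_eq_zero_iff (hg.comp (measurable_bump y c))).1 hu

lemma jump_right {g : St → ℝ≥0∞} (hg : Measurable g) {y : St}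
    (h : (mkModel lam hlam Fl Fr tie ht).Q g y = 0) {c : Fin 3} (hc : y (c + 1) < y c) :
    ∀ᵐ x ∂Fr, g (bump y (c + 1) x) = 0 := by
  obtain ⟨u, hu⟩ := side_zero hlam ht hg h c
  rw [dec_of_gt tie u hc] at hu
  exact (lintegral_eq_zero_iff (hg.comp (measurable_bump y (c + 1)))).1 hu

end

/-- Gain from a set of service times of probability at least `β`. -/
lemma lint_gain {F : Measure ℝ} [IsProbabilityMeasure F] {f : ℝ → ℝ≥0∞} {A : Set ℝ}
    (hA : MeasurableSet A) {β γ θ : ℝ≥0∞} (hβ : β ≤ F A) (h1 : ∀ᵐ x ∂F, f x ≤ θ)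
    (h2 : ∀ᵐ x ∂F, x ∈ A → f x + γ ≤ θ) : ∫⁻ x, f x ∂F + β * γ ≤ θ := by
  calc _ ≤ ∫⁻ x, f x ∂F + ∫⁻ x, A.indicator (fun _ => γ) x ∂F := by
        rw [lintegral_indicator_const hA, mul_comm]
        exact add_le_add le_rfl (mul_le_mul_right hβ _)
    _ = ∫⁻ x, (f x + A.indicator (fun _ => γ) x) ∂F :=
        (lintegral_add_right _ (measurable_const.indicator hA)).symm
    _ ≤ ∫⁻ _x, θ ∂F := by
        refine lintegral_mono_ae ?_
        filter_upwards [h1, h2] with x a b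
        by_cases hx : x ∈ A
        · rw [indicator_of_mem hx]; exact b hx
        · rw [indicator_of_notMem hx, add_zero]; exact a
    _ = θ := by simp

lemma lint_le {F : Measure ℝ} [IsProbabilityMeasure F] {f : ℝ → ℝ≥0∞} {θ : ℝ≥0∞}
    (h1 : ∀ᵐ x ∂F, f x ≤ θ) : ∫⁻ x, f x ∂F ≤ θ :=
  (lintegral_mono_ae h1).trans (by simp)

end Pool.Agent.Lib.MP_db3298_pr
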