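import Pool.Agent.Lib.MP_db3298_pr.NMc

/-!
Almost every line parallel to the diagonal whose two largest coordinates are close lies in
`{q = 0}`.
-/

set_option autoImplicit false

open MeasureTheory ProbabilityTheory Filter Topology Set Function
open scoped ENNReal NNReal

namespace Pool.Agent.Lib.MP_db3298_pr

lemma mP_lt {α : Type} [MeasurableSpace α] {f g : α → ℝ} (hf : Measurable f) (hg : Measurable g) :
    Measurable fun a => f a < g a := measurableSet_setOfPred.1 (measurableSet_lt hf hg)

lemma mP_zero {α : Type} [MeasurableSpace α] {f : α → ℝ≥0∞} (hf : Measurable f) :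
    Measurable fun a => f a = 0 := measurableSet_setOfPred.1 (measurableSet_eq_fun hf measurable_const)

lemma max_drain (a t : ℝ) (ht : 0 ≤ t) : max (max a 0 - t) 0 = max (a - t) 0 := by
  rcases le_total a 0 with h | h
  · rw [max_eq_right h, max_eq_right (by linarith), max_eq_right (by linarith)]
  · rw [max_eq_left h]

lemma drain_update (y : St) (m : Fin 3) (a t : ℝ) :
    drain (update y m a) t = update (drain y t) m (max (a - t) 0) := by
  funext l
  by_cases h : l = m
  · subst h; simp [drain]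
  · simp [drain, h]

/-- A family of states that is closed under draining. -/
def IsRay (b : ℝ → St) : Prop := ∀ κ t, 0 ≤ t → drain (b κ) t = b (κ - t)

def ray (g : ℝ → St) (m : Fin 3) (e κ : ℝ) : St := update (g κ) m (max (e + κ) 0)

def base (g : ℝ → St) (m : Fin 3) (κ : ℝ) : St := update (g κ) m 0

lemma IsRay.ray {g : ℝ → St} (hg : IsRay g) (m : Fin 3) (e : ℝ) : IsRay (ray g m e) := by
  intro κ t ht
  rw [MP_db3298_pr.ray, drain_update, hg κ t ht, max_drain _ _ ht, add_sub_assoc]; rfl

lemma IsRay.base {g : ℝ → St} (hg : IsRay g) (m : Fin 3) : IsRay (base g m) := by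
  intro κ t ht
  rw [MP_db3298_pr.base, drain_update, hg κ t ht, max_eq_right (by linarith)]; rfl

lemma measurable_ray {α : Type} [MeasurableSpace α] {g : ℝ → St} (hg : Measurable g) (m : Fin 3)
    {e k : α → ℝ} (he : Measurable e) (hk : Measurable k) :
    Measurable fun a => ray g m (e a) (k a) :=
  measurable_update'.comp (f := fun a => (g (k a), max (e a + k a) 0))
    ((hg.comp hk).prodMk ((he.add hk).max measurable_const))

lemma bump_ray (g : ℝ → St) (m : Fin 3) {e κ x : ℝ} (h : 0 ≤ e + κ) (hx : 0 < x) :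
    bump (ray g m e κ) m x = ray g m (e + x) κ := by
  simp only [bump, ray, update_self, update_idem]
  rw [max_eq_left h, max_eq_left (by linarith)]
  congr 1; ring

def ax (i : Fin 3) (a : ℝ) : St := update 0 i (max a 0)

lemma isRay_ax (i : Fin 3) : IsRay (ax i) := by
  intro κ t ht
  rw [ax, drain_update, drain_zero _ ht, max_drain _ _ ht]; rfl

lemma measurable_ax (i : Fin 3) : Measurable (ax i) :=
  measurable_update'.comp (f := fun a : ℝ => ((0 : St), max a 0)) (by fun_prop)

def fc (i j : Fin 3) (a b : ℝ) : St := update (ax j b) i (max a 0)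

lemma fc_comm {i j : Fin 3} (h : i ≠ j) (a b : ℝ) : fc i j a b = fc j i b a :=
  update_comm h.symm _ _ _

lemma base_ax {i j : Fin 3} (h : i ≠ j) (b : ℝ) : base (ax j) i b = ax j b := by
  rw [base, update_eq_self_iff]; simp [ax, h]

lemma fc_nonpos {i j : Fin 3} (h : i ≠ j) {a : ℝ} (ha : a ≤ 0) (b : ℝ) : fc i j a b = ax j b := by
  rw [fc, max_eq_right ha]; exact base_ax h b

namespace Model

variable (M : Model)

/-- A customer may be sent to server `m` with service law `F` when `m` is below `o`. -/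
def Jump (F : Measure ℝ) (m o : Fin 3) : Prop :=
  ∀ y, M.Q M.qq y = 0 → y m < y o → ∀ᵐ x ∂F, M.qq (bump y m x) = 0

def TR (g : ℝ → St) (m : Fin 3) (x : ℝ) : Prop :=
  ∀ᵐ e : ℝ, e < 0 → ∀ κ u v : ℝ, -e < v → M.qq (base g m v) = 0 →
    (-e < κ → κ < u ∧ M.qq (ray g m e u) = 0) → M.qq (ray g m (e + x) κ) = 0

lemma ae_TR (h0 : M.qq 0 = 0) {F : Measure ℝ} [IsProbabilityMeasure F] (hF : ∀ᵐ x ∂F, 0 < x)
    {g : ℝ → St} (hg : IsRay g) (hgm : Measurable g) {m o : Fin 3} (hom : o ≠ m)
    (hgo : ∀ κ, g κ o = max κ 0) (hJ : M.Jump F m o) : ∀ᵐ x ∂F, M.TR g m x := by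
  have key : ∀ᵐ x ∂F, ∀ᵐ e : ℝ, e < 0 →
      (∀ r1 r2 : ℚ, -e < r1 → (r1 : ℝ) < r2 → M.qq (ray g m e r2) = 0 →
        M.qq (ray g m (e + x) r1) = 0) ∧
      (∀ r : ℚ, -e < r → M.qq (base g m r) = 0 → M.qq (ray g m (e + x) (-e)) = 0) := by
    refine (Measure.ae_ae_comm (μ := volume) (ν := F) (measurableSet_setOfPred.2 ?_)).1 ?_
    · refine (mP_lt measurable_fst measurable_const).imp (Measurable.and
        (Measurable.forall fun r1 => Measurable.forall fun r2 =>
          (mP_lt measurable_fst.neg measurable_const).imp (measurable_const.imp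
            ((mP_zero ?_).imp (mP_zero ?_))))
        (Measurable.forall fun r => (mP_lt measurable_fst.neg measurable_const).imp
          (measurable_const.imp (mP_zero ?_))))
      · exact M.measurable_qq.comp (measurable_ray hgm m measurable_fst measurable_const)
      · exact M.measurable_qq.comp
          (measurable_ray hgm m (measurable_fst.add measurable_snd) measurable_const)
      · exact M.measurable_qq.comp
          (measurable_ray hgm m (measurable_fst.add measurable_snd) measurable_fst.neg)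
    · filter_upwards [ae_flip (M.ray_Q h0 (hg.base m)) 0] with e he
      rw [zero_sub] at he
      by_cases hneg : e < 0
      swap
      · exact Eventually.of_forall fun _ h => absurd h hneg
      have h1 : ∀ᵐ x ∂F, ∀ r1 r2 : ℚ, -e < r1 → (r1 : ℝ) < r2 → M.qq (ray g m e r2) = 0 →
          M.qq (ray g m (e + x) r1) = 0 := by
        refine ae_all_iff.2 fun r1 => ae_all_iff.2 fun r2 => ?_
        by_cases hh : -e < r1 ∧ (r1 : ℝ) < r2 ∧ M.qq (ray g m e r2) = 0
        swap
        · exact Eventually.of_forall fun _ a b c => absurd ⟨a, b, c⟩ hh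
        obtain ⟨κ, a, b, hκ⟩ := exists_mem_Ioo_of_ae (M.ray_Q h0 (hg.ray m e)) hh.2.1
        have h2 := hJ _ (hκ r2 b hh.2.2) (by
          simp only [ray, update_self, update_of_ne hom, hgo]
          rw [max_eq_left (by linarith [hh.1]), max_eq_left (by linarith [hh.1])]
          linarith)
        filter_upwards [h2, hF] with x hx hx0 _ _ _
        rw [bump_ray g m (by linarith [hh.1]) hx0] at hx
        exact M.ray_down h0 (hg.ray m _) a.le hx
      have h2 : ∀ᵐ x ∂F, ∀ r : ℚ, -e < r → M.qq (base g m r) = 0 →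
          M.qq (ray g m (e + x) (-e)) = 0 := by
        refine ae_all_iff.2 fun r => ?_
        by_cases hh : -e < r ∧ M.qq (base g m r) = 0
        swap
        · exact Eventually.of_forall fun _ a b => absurd ⟨a, b⟩ hh
        have h3 := hJ _ (he r hh.1 hh.2) (by
          simp only [base, update_self, update_of_ne hom, hgo]
          exact lt_max_of_lt_left (by linarith))
        filter_upwards [h3, hF] with x hx hx0 _ _
        have e1 : base g m (-e) = ray g m e (-e) := by simp [base, ray]
        rwa [e1, bump_ray g m (by linarith) hx0] at hx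
      filter_upwards [h1, h2] with x a b _ using ⟨a, b⟩
  filter_upwards [key] with x hx
  filter_upwards [hx] with e he hneg κ u v hv hb hu
  obtain ⟨h1, h2⟩ := he hneg
  by_cases hκ : -e < κ
  · obtain ⟨h3, h4⟩ := hu hκ
    obtain ⟨r1, a1, b1⟩ := exists_rat_btwn h3
    obtain ⟨r2, a2, b2⟩ := exists_rat_btwn b1
    exact M.ray_down h0 (hg.ray m _) a1.le
      (h1 r1 r2 (hκ.trans a1) a2 (M.ray_down h0 (hg.ray m _) b2.le h4))
  · obtain ⟨r, a, b⟩ := exists_rat_btwn hv
    exact M.ray_down h0 (hg.ray m _) (not_lt.1 hκ)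
      (h2 r a (M.ray_down h0 (hg.base m) b.le hb))

lemma pump {g : ℝ → St} {m : Fin 3} {x : ℝ} (hx : 0 < x) (hT : M.TR g m x)
    (hb : ∀ κ, M.qq (base g m κ) = 0) : ∀ᵐ e : ℝ, e < 0 → ∀ κ, M.qq (ray g m e κ) = 0 := by
  have key : ∀ n : ℕ, ∀ᵐ e : ℝ, e < 0 → ∀ κ, κ + e < n * x → M.qq (ray g m e κ) = 0 := by
    intro n
    induction n with
    | zero =>
      refine Eventually.of_forall fun e _ κ h => ?_
      rw [ray, max_eq_right (by simp at h; linarith)]
      exact hb κ
    | succ n ih =>
      filter_upwards [ae_shift ih (-x), ae_shift hT (-x)] with e h1 h2 he κ hκ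
      push_cast at hκ
      have := h2 (by linarith) κ ((κ + (n * x - (e + -x))) / 2) (-(e + -x) + 1) (by linarith)
        (hb _) fun _ => ⟨by linarith, h1 (by linarith) _ (by linarith)⟩
      rwa [neg_add_cancel_right] at this
  filter_upwards [ae_all_iff.2 key] with e he hneg κ
  obtain ⟨n, hn⟩ := exists_nat_gt ((κ + e) / x)
  exact he n hneg κ ((div_lt_iff₀ hx).1 hn)

def Face (i j : Fin 3) (x y u : ℝ) : Prop :=
  ∀ᵐ d : ℝ, -y < d → d < x → ∀ b, d + b + b < u → M.qq (fc i j (d + b) b) = 0

lemma Face.symm {M : Model} {i j : Fin 3} (hij : i ≠ j) {x y u : ℝ} (h : M.Face i j x y u) :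
    M.Face j i y x u := by
  filter_upwards [ae_flip h 0] with d hd h1 h2 b hb
  have := hd (by linarith) (by linarith) (d + b) (by linarith)
  rwa [fc_comm hij, show 0 - d + (d + b) = b by ring] at this

lemma rot_half {i j : Fin 3} (hij : i ≠ j) {x y u σ : ℝ} (hσ : σ ≤ x) (hT : M.TR (ax j) i x)
    (hy : ∀ a < y, M.qq (ax j a) = 0) (h : M.Face i j x y u) (hx : 0 < x) :
    ∀ᵐ d : ℝ, x - y < d → d < x → ∀ b, d + b + b < u + σ → M.qq (fc i j (d + b) b) = 0 := by
  filter_upwards [ae_shift h (-x), ae_shift hT (-x)] with d h1 h2 a b κ hκ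
  have := h2 (by linarith) κ ((κ + (u - (d + -x)) / 2) / 2) ((-(d + -x) + y) / 2) (by linarith)
    (by rw [base_ax hij]; exact hy _ (by linarith))
    fun _ => ⟨by linarith, h1 (by linarith) (by linarith) _ (by linarith)⟩
  rwa [neg_add_cancel_right] at this

lemma face_all {i j : Fin 3} (hij : i ≠ j) {x y : ℝ} (hx0 : 0 < x) (hy0 : 0 < y)
    (hTi : M.TR (ax j) i x) (hTj : M.TR (ax i) j y)
    (hx : ∀ a < x, M.qq (ax i a) = 0) (hy : ∀ a < y, M.qq (ax j a) = 0) :
    ∀ᵐ d : ℝ, -y < d → d < x → ∀ b, M.qq (fc i j (d + b) b) = 0 := by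
  have hσ : 0 < min x y := lt_min hx0 hy0
  have key : ∀ n : ℕ, M.Face i j x y (n * min x y) := by
    intro n
    induction n with
    | zero =>
      refine Eventually.of_forall fun d h1 h2 b hb => ?_
      simp only [Nat.cast_zero, zero_mul] at hb
      rcases le_total b 0 with h | h
      · rw [fc_comm hij, fc_nonpos hij.symm h]; exact hx _ (by linarith)
      · rw [fc_nonpos hij (by linarith)]; exact hy _ (by linarith)
    | succ n ih =>
      have h1 := M.rot_half hij (min_le_left x y) hTi hy ih hx0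
      have h2 := M.rot_half hij.symm (min_le_right x y) hTj hx (ih.symm hij) hy0
      have h3 : ∀ᵐ d : ℝ, d ≠ x - y := by rw [ae_iff]; simp
      filter_upwards [h1, ae_flip h2 0, h3] with d a b c l r κ hκ
      push_cast at hκ
      rcases lt_or_gt_of_ne c with h | h
      · have := b (by linarith) (by linarith) (d + κ) (by linarith)
        rwa [fc_comm hij.symm, show 0 - d + (d + κ) = κ by ring] at this
      · exact a h r κ (by linarith)
  filter_upwards [ae_all_iff.2 key] with d hd l r b
  obtain ⟨n, hn⟩ := exists_nat_gt ((d + b + b) / min x y)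
  exact hd n l r b ((div_lt_iff₀ hσ).1 hn)

lemma axis_step (h0 : M.qq 0 = 0) {F : Measure ℝ} (hF : ∀ᵐ x ∂F, 0 < x) {m o : Fin 3}
    (hmo : m ≠ o) (hJ : M.Jump F m o) {a : ℝ} (ha : 0 < a) (h : M.qq (ax o a) = 0) :
    ∀ᵐ x ∂F, ∀ b < x, M.qq (ax m b) = 0 := by
  have key : ∀ n : ℕ, ∀ᵐ x ∂F, M.qq (ax m (x - 1 / ((n : ℝ) + 1))) = 0 := by
    intro n
    have hn : (0 : ℝ) < 1 / ((n : ℝ) + 1) := by positivity
    obtain ⟨s, s1, s2, hs⟩ := exists_mem_Ioo_of_ae (M.ae_Q_zero h0 h)
      (show max (a - 1 / ((n : ℝ) + 1)) 0 < a from max_lt (by linarith) ha)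
    rw [max_lt_iff] at s1
    have h1 := hs s1.2
    rw [isRay_ax o a s s1.2.le] at h1
    have h2 := hJ _ h1 (by
      simp only [ax, update_self, update_of_ne hmo, Pi.zero_apply]
      exact lt_max_of_lt_left (by linarith))
    filter_upwards [h2, hF] with x hx hx0
    have h3 := M.qq_drain h0 hx hn.le
    have e : drain (bump (ax o (a - s)) m x) (1 / ((n : ℝ) + 1)) = ax m (x - 1 / ((n : ℝ) + 1)) := by
      rw [bump, drain_update, isRay_ax o _ _ hn.le]
      have e1 : ax o (a - s - 1 / ((n : ℝ) + 1)) = 0 := by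
        rw [ax, max_eq_right (by linarith [s1.1])]; simp
      rw [e1]
      simp [ax, hmo]
    rwa [e] at h3
  filter_upwards [ae_all_iff.2 key] with x hx b hb
  obtain ⟨n, hn⟩ := exists_nat_one_div_lt (sub_pos.2 hb)
  exact M.ray_down h0 (isRay_ax m) (by linarith) (hx n)

end Model

lemma exists_low {F : Measure ℝ} [IsProbabilityMeasure F] {p : ℝ → Prop} (h : ∀ᵐ x ∂F, p x) :
    ∃ x, p x ∧ F (Iic x) ≠ 0 := by
  by_contra hne
  push Not at hne
  have h1 : ∀ᵐ x ∂F, ∀ᵐ y ∂F, x < y := by
    filter_upwards [h] with x hx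
    have := hne x hx
    rw [ae_iff]
    convert this using 2
    ext y; simp
  have h2 := (Measure.ae_ae_comm (μ := F) (ν := F) (p := fun x y => x < y)
    (measurableSet_lt measurable_fst measurable_snd)).1 h1
  obtain ⟨x, a, b⟩ := (h1.and h2).exists
  obtain ⟨y, c, d⟩ := (a.and b).exists
  exact lt_asymm c d

end Pool.Agent.Lib.MP_db3298_pr
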