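import Pool.Agent.Lib.MP_db3298_pr.NMd

/-!
Properties that hold on almost every line parallel to the diagonal.
-/

set_option autoImplicit false

open MeasureTheory ProbabilityTheory Filter Topology Set Function
open scoped ENNReal NNReal

namespace Pool.Agent.Lib.MP_db3298_pr

lemma mP_ae {α β : Type} [MeasurableSpace α] [MeasurableSpace β] (ν : Measure β) [SFinite ν]
    {P : α → β → Prop} (h : Measurable fun p : α × β => P p.1 p.2) :
    Measurable fun a => ∀ᵐ b ∂ν, P a b := by
  have := mP_zero (measurable_measure_prodMk_left (ν := ν) (measurableSet_setOfPred.2 h).compl)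
  exact this

lemma f3 : ∀ c : Fin 3, c ≠ c + 1 ∧ c ≠ c + 2 ∧ c + 1 ≠ c + 2 := by decide

noncomputable def sg (i j : Fin 3) (d e : ℝ) : St := Pi.single i d + Pi.single j e

lemma measurable_sg {α : Type} [MeasurableSpace α] (i j : Fin 3) {d e : α → ℝ} (hd : Measurable d)
    (he : Measurable e) : Measurable fun a => sg i j (d a) (e a) := by
  refine measurable_pi_lambda _ fun l => ?_
  simp only [sg, Pi.add_apply, Pi.single_apply]
  refine Measurable.add ?_ ?_ <;> split_ifs <;> first | assumption | exact measurable_const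

def sh (v : St) (c : ℝ) : St := fun l => v l + c

def Wt (S : Set St) (i j : Fin 3) : Prop := ∀ᵐ d : ℝ, ∀ᵐ e : ℝ, sg i j d e ∈ S

lemma Wt.swap {S : Set St} (hS : MeasurableSet S) {i j : Fin 3} (h : Wt S i j) : Wt S j i := by
  have := (Measure.ae_ae_comm (μ := volume) (ν := volume) (p := fun d e => sg i j d e ∈ S)
    (hS.preimage (measurable_sg i j measurable_fst measurable_snd))).1 h
  filter_upwards [this] with e he
  filter_upwards [he] with d hd
  rwa [sg, add_comm] at hd

lemma sg_shear {i j k : Fin 3} (h1 : i ≠ j) (h2 : i ≠ k) (h3 : j ≠ k) (d e : ℝ) :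
    sh (sg j k (0 - d) (e + -d)) d = sg i k d e := by
  funext l
  fin_cases i <;> fin_cases j <;> fin_cases k <;> fin_cases l <;> simp_all [sh, sg]

lemma Wt.shear {S : Set St} (hI : ∀ v ∈ S, ∀ c, sh v c ∈ S) {i j k : Fin 3} (h1 : i ≠ j)
    (h2 : i ≠ k) (h3 : j ≠ k) (h : Wt S j k) : Wt S i k := by
  filter_upwards [ae_flip h 0] with d hd
  filter_upwards [ae_shift hd (-d)] with e he
  rw [← sg_shear h1 h2 h3]
  exact hI _ he _

structure Conull (S : Set St) : Prop where
  meas : MeasurableSet S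
  inv : ∀ v ∈ S, ∀ c, sh v c ∈ S
  wt : ∀ i j, i ≠ j → Wt S i j

lemma conull_of {S : Set St} (hS : MeasurableSet S) (hI : ∀ v ∈ S, ∀ c, sh v c ∈ S) (c : Fin 3)
    (h : Wt S (c + 1) (c + 2)) : Conull S := by
  obtain ⟨n1, n2, n3⟩ := f3 c
  have a := h.shear hI n1 n2 n3
  have b := (h.swap hS).shear hI n2 n1 n3.symm
  refine ⟨hS, hI, fun i j hij => ?_⟩
  have : ∀ c i : Fin 3, i = c ∨ i = c + 1 ∨ i = c + 2 := by decide
  rcases this c i with hi | hi | hi <;> rcases this c j with hj | hj | hj <;> rw [hi, hj] at hij ⊢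
  exacts [absurd rfl hij, b, a, b.swap hS, absurd rfl hij, h, a.swap hS, h.swap hS, absurd rfl hij]

lemma Conull.iInter {ι : Type} [Countable ι] {S : ι → Set St} (h : ∀ n, Conull (S n)) :
    Conull (⋂ n, S n) := by
  refine ⟨MeasurableSet.iInter fun n => (h n).meas,
    fun v hv c => mem_iInter.2 fun n => (h n).inv v (mem_iInter.1 hv n) c, fun i j hij => ?_⟩
  filter_upwards [ae_all_iff.2 fun n => (h n).wt i j hij] with d hd
  filter_upwards [ae_all_iff.2 hd] with e he using mem_iInter.2 he

/-- `P` holds at all points of almost every line. -/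
def Gd (P : St → Prop) : Prop := ∃ S, Conull S ∧ ∀ v ∈ S, P (drain v 0)

lemma Gd.mono {P P' : St → Prop} (h : Gd P) (hP : ∀ z, (∀ i, 0 ≤ z i) → P z → P' z) : Gd P' :=
  let ⟨S, hS, h⟩ := h
  ⟨S, hS, fun v hv => hP _ (drain_nonneg v 0) (h v hv)⟩

lemma Gd.all {ι : Type} [Countable ι] {P : ι → St → Prop} (h : ∀ n, Gd (P n)) :
    Gd fun z => ∀ n, P n z := by
  choose S hS hP using h
  exact ⟨_, Conull.iInter hS, fun v hv n => hP n v (mem_iInter.1 hv n)⟩

lemma Gd.and {P P' : St → Prop} (h : Gd P) (h' : Gd P') : Gd fun z => P z ∧ P' z :=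
  (Gd.all (P := fun b : Bool => if b then P else P') fun b => by cases b <;> simpa).mono
    fun z _ hz => ⟨by simpa using hz true, by simpa using hz false⟩

lemma gd_of_forall {P : St → Prop} (h : ∀ z, P z) : Gd P :=
  ⟨univ, ⟨MeasurableSet.univ, fun _ _ _ => trivial,
    fun _ _ _ => Eventually.of_forall fun _ => Eventually.of_forall fun _ => trivial⟩,
    fun _ _ => h _⟩

lemma drain_sh (v : St) (c : ℝ) : drain (sh v (-c)) 0 = drain v c := by
  funext l; simp [drain, sh, sub_eq_add_neg]

lemma Gd.drain {P : St → Prop} (h : Gd P) : Gd fun z => ∀ s, 0 ≤ s → P (drain z s) := by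
  obtain ⟨S, hS, h⟩ := h
  refine ⟨S, hS, fun v hv s hs => ?_⟩
  rw [drain_drain _ _ hs, zero_add, ← drain_sh]
  exact h _ (hS.inv v hv _)

lemma conull_ne (c : Fin 3) : Conull {v : St | v c ≠ v (c + 1)} := by
  refine conull_of
    (measurableSet_eq_fun (measurable_pi_apply c) (measurable_pi_apply (c + 1))).compl
    (fun v hv c h => hv (add_right_cancel h)) c ?_
  have h3 : ∀ᵐ d : ℝ, d ≠ 0 := by rw [ae_iff]; simp
  filter_upwards [h3] with d hd
  refine Eventually.of_forall fun e => ?_
  fin_cases c <;> simpa [sg] using hd.symm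

lemma gd_tie : Gd fun z => z 0 = z 1 → z 0 = 0 := by
  refine ⟨_, conull_ne 0, fun v hv h => ?_⟩
  simp only [drain, sub_zero] at h ⊢
  have hv' : v 0 ≠ v 1 := hv
  rcases le_total (v 0) 0 with a | a
  · exact max_eq_right a
  · rcases le_total (v 1) 0 with b | b
    · rw [h, max_eq_right b]
    · rw [max_eq_left a, max_eq_left b] at h; exact absurd h hv'

lemma Gd.step {P : St → Prop} (h : Gd P) (r : ℝ) {F : Measure ℝ} [IsFiniteMeasure F]
    (hF : ∀ᵐ x ∂F, 0 < x) (hr : 0 < r) :
    Gd fun z => ∀ᵐ s ∂(expMeasure r), ∀ i, ∀ᵐ x ∂F, P (bump (MP_db3298_pr.drain z s) i x) := by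
  obtain ⟨S, hS, h⟩ := h
  let Φ : Fin 3 → St → ℝ → ℝ → Prop := fun i v τ x =>
    update (sh v (-τ)) i (v i - τ + x) ∈ S ∧ update (sh v (-τ)) i x ∈ S
  have hΦ : ∀ i {α : Type} [MeasurableSpace α] {v : α → St} {τ x : α → ℝ}, Measurable v →
      Measurable τ → Measurable x → Measurable fun a => Φ i (v a) (τ a) (x a) := by
    intro i α _ v τ x hv hτ hx
    have h1 : Measurable fun a => sh (v a) (-τ a) :=
      measurable_pi_lambda _ fun l => ((measurable_pi_apply l).comp hv).add hτ.neg
    refine Measurable.and (measurableSet_setOfPred.1 (hS.meas.preimage ?_))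
      (measurableSet_setOfPred.1 (hS.meas.preimage ?_))
    · exact measurable_update'.comp (f := fun a => (sh (v a) (-τ a), v a i - τ a + x a))
        (h1.prodMk ((((measurable_pi_apply i).comp hv).sub hτ).add hx))
    · exact measurable_update'.comp (f := fun a => (sh (v a) (-τ a), x a)) (h1.prodMk hx)
  have hc : ∀ i, Conull {v : St | ∀ᵐ τ : ℝ, ∀ᵐ x ∂F, Φ i v τ x} := by
    intro i
    refine conull_of (measurableSet_setOfPred.2 (mP_ae volume (mP_ae F
      (P := fun (p : St × ℝ) x => Φ i p.1 p.2 x)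
      (hΦ i measurable_fst.fst measurable_fst.snd measurable_snd)))) (fun v hv c => ?_) i ?_
    · filter_upwards [ae_shift hv (-c)] with τ hτ
      filter_upwards [hτ] with x hx
      have e : sh (sh v c) (-τ) = sh v (-(τ + -c)) := by funext l; simp only [sh]; ring
      have e2 : sh v c i - τ + x = v i - (τ + -c) + x := by simp only [sh]; ring
      simp only [Φ, e, e2]
      exact hx
    · have h1 : ∀ r : ℝ × ℝ, ∀ᵐ p ∂((volume : Measure ℝ).prod (volume : Measure ℝ)),
          Φ i (sg (i + 1) (i + 2) p.1 p.2) r.1 r.2 := by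
        intro r
        refine (Measure.ae_prod_iff_ae_ae (measurableSet_setOfPred.2 (hΦ i
          (measurable_sg _ _ measurable_fst measurable_snd) measurable_const
          measurable_const))).2 ?_
        have hw := hS.wt (i + 1) (i + 2) (f3 i).2.2
        filter_upwards [ae_shift hw (-r.2), ae_shift hw (-r.1 - r.2)] with d a b
        filter_upwards [ae_shift a (-r.2), ae_shift b (-r.1 - r.2)] with e a b
        constructor
        · convert hS.inv _ a (r.2 - r.1) using 1
          funext l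
          fin_cases i <;> fin_cases l <;> simp [sh, sg] <;> ring
        · convert hS.inv _ b r.2 using 1
          funext l
          fin_cases i <;> fin_cases l <;> simp [sh, sg] <;> ring
      have h2 := (Measure.ae_ae_comm (μ := (volume : Measure ℝ).prod (volume : Measure ℝ))
        (ν := (volume : Measure ℝ).prod F)
        (p := fun p r => Φ i (sg (i + 1) (i + 2) p.1 p.2) r.1 r.2) (measurableSet_setOfPred.2
          (hΦ i (measurable_sg _ _ measurable_fst.fst measurable_fst.snd) measurable_snd.fst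
            measurable_snd.snd))).2 (Eventually.of_forall h1)
      filter_upwards [Measure.ae_ae_of_ae_prod h2] with d hd
      filter_upwards [hd] with e he
      exact Measure.ae_ae_of_ae_prod he
  refine ⟨_, Conull.iInter hc, fun v hv => ?_⟩
  have hv' : ∀ i, ∀ᵐ τ : ℝ, ∀ᵐ x ∂F, Φ i v τ x := fun i => by
    have := mem_iInter.1 hv i
    exact this
  filter_upwards [(exp_ac r).ae_le (ae_all_iff.2 hv'), exp_ae_pos hr] with s hs hs0 i
  filter_upwards [hs i, hF] with x hx hx0
  rw [drain_drain _ _ hs0.le, zero_add]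
  rcases le_total 0 (v i - s) with a | a
  · convert h _ hx.1 using 1
    rw [bump, drain_update, drain_sh]
    simp only [MP_db3298_pr.drain]
    rw [max_eq_left a, max_eq_left (by linarith), sub_zero]
  · convert h _ hx.2 using 1
    rw [bump, drain_update, drain_sh]
    simp only [MP_db3298_pr.drain]
    rw [max_eq_right a, max_eq_left (by linarith), sub_zero, zero_add]

/-- Two of the three coordinates are within `σ` of the maximum. -/
def Near (σ : ℝ) (z : St) : Prop := ∃ m, ∀ j, j ≠ m → ∀ k, z k < z j + σ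

lemma Model.gd_near (M : Model) (h0 : M.qq 0 = 0) {σ : ℝ} (hax : ∀ i, ∀ a < σ, M.qq (ax i a) = 0)
    (hU : ∀ c : Fin 3, ∀ᵐ d : ℝ, ∀ᵐ e : ℝ, |d| < σ → e < 0 →
      ∀ κ, M.qq (drain (sg (c + 1) (c + 2) d e) κ) = 0) :
    Gd fun z => Near σ z → M.qq z = 0 := by
  have h1 : ∀ c : Fin 3, Conull {v : St | |v (c + 1) - v c| < σ → v (c + 2) < v c →
      ∀ n : ℕ, M.qq (drain v (-n)) = 0} := by
    intro c
    refine conull_of (measurableSet_setOfPred.2 ((mP_lt (by fun_prop) measurable_const).imp
      ((mP_lt (by fun_prop) (by fun_prop)).imp (Measurable.forall fun n => mP_zero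
        (M.measurable_qq.comp (measurable_drain.comp (f := fun v : St => (v, -(n : ℝ)))
          (by fun_prop))))))) (fun v hv t a b n => ?_) c ?_
    · obtain ⟨k, hk⟩ := exists_nat_ge (n + t)
      have h2 := M.qq_drain h0 (hv (by simpa [sh] using a) (by simpa [sh] using b) k)
        (t := k - (n + t)) (by linarith)
      rw [drain_drain _ _ (by linarith)] at h2
      convert h2 using 2
      funext l; simp only [drain, sh]; congr 1; ring
    · filter_upwards [hU c] with d hd
      filter_upwards [hd] with e he a b n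
      refine he ?_ ?_ _
      · fin_cases c <;> simpa [sg] using a
      · fin_cases c <;> simpa [sg] using b
  refine ⟨_, Conull.iInter (S := fun p : Fin 3 × Bool => if p.2 then
    {v : St | |v (p.1 + 1) - v p.1| < σ → v (p.1 + 2) < v p.1 →
      ∀ n : ℕ, M.qq (drain v (-n)) = 0} else {v : St | v p.1 ≠ v (p.1 + 1)})
    (fun p => by split_ifs; exacts [h1 _, conull_ne _]), fun v hv hn => ?_⟩
  have hA : ∀ c : Fin 3, |v (c + 1) - v c| < σ → v (c + 2) < v c →
      ∀ n : ℕ, M.qq (drain v (-n)) = 0 := fun c => by simpa using mem_iInter.1 hv (c, true)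
  have hB : ∀ c : Fin 3, v c ≠ v (c + 1) := fun c => by simpa using mem_iInter.1 hv (c, false)
  obtain ⟨c, c1, c2⟩ : ∃ c : Fin 3, v (c + 2) < v c ∧ v (c + 2) < v (c + 1) := by
    have b0 : v 0 ≠ v 1 := hB 0
    have b1 : v 1 ≠ v 2 := hB 1
    have b2 : v 2 ≠ v 0 := hB 2
    rcases lt_or_gt_of_ne b0 with a | a <;> rcases lt_or_gt_of_ne b1 with b | b <;>
      rcases lt_or_gt_of_ne b2 with c | c
    · linarith
    · exact ⟨1, a, c⟩
    · exact ⟨0, c, b⟩
    · exact ⟨1, a, c⟩
    · exact ⟨2, b, a⟩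
    · exact ⟨2, b, a⟩
    · exact ⟨0, c, b⟩
    · linarith
  obtain ⟨m, hm⟩ := hn
  have z1 : drain v 0 (c + 2) ≤ drain v 0 c := max_le_max (by linarith) le_rfl
  have z2 : drain v 0 (c + 2) ≤ drain v 0 (c + 1) := max_le_max (by linarith) le_rfl
  have n1 : drain v 0 (c + 1) < drain v 0 c + σ := by
    by_cases h : c = m
    · linarith [hm (c + 2) (by rw [← h]; exact (f3 c).2.1.symm) (c + 1)]
    · exact hm c h _
  have n2 : drain v 0 c < drain v 0 (c + 1) + σ := by
    by_cases h : c + 1 = m
    · linarith [hm (c + 2) (by rw [← h]; exact (f3 c).2.2.symm) c]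
    · exact hm _ h _
  have tri : ∀ c i : Fin 3, i = c ∨ i = c + 1 ∨ i = c + 2 := by decide
  have d1 : ∀ c : Fin 3, c ≠ c + 1 ∧ c + 2 ≠ c + 1 ∧ c + 1 ≠ c ∧ c + 2 ≠ c := by decide
  simp only [drain, sub_zero] at n1 n2
  by_cases p1 : v c ≤ 0
  · rw [max_eq_right p1] at n1
    convert hax (c + 1) (v (c + 1)) (by linarith [le_max_left (v (c + 1)) 0]) using 2
    funext l
    rcases tri c l with h | h | h <;> rw [h]
    · simp [drain, ax, (d1 c).1, p1]
    · simp [drain, ax]
    · simp [drain, ax, (d1 c).2.1]; linarith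
  by_cases p2 : v (c + 1) ≤ 0
  · rw [max_eq_right p2] at n2
    convert hax c (v c) (by linarith [le_max_left (v c) 0]) using 2
    funext l
    rcases tri c l with h | h | h <;> rw [h]
    · simp [drain, ax]
    · simp [drain, ax, (d1 c).2.2.1, p2]
    · simp [drain, ax, (d1 c).2.2.2]; linarith
  rw [max_eq_left (not_le.1 p1).le, max_eq_left (not_le.1 p2).le] at n1 n2
  simpa using hA c (abs_lt.2 ⟨by linarith, by linarith⟩) c1 0

end Pool.Agent.Lib.MP_db3298_pr
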