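import Pool.Agent.Lib.MP_db3298_pr.NMe

/-!
A Lyapunov function for the differences of the workloads (first moments only).
-/

set_option autoImplicit false

open MeasureTheory ProbabilityTheory Filter Topology Set Function
open scoped ENNReal NNReal

namespace Pool.Agent.Lib.MP_db3298_pr

noncomputable def psi (z : St) : ℝ := √((z 0 - z 1) ^ 2 + (z 1 - z 2) ^ 2 + (z 2 - z 0) ^ 2)

def gam (z : St) (i : Fin 3) : ℝ := 3 * z i - (z 0 + z 1 + z 2)

lemma psi_nonneg (z : St) : 0 ≤ psi z := Real.sqrt_nonneg _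

lemma psi_sq (z : St) : psi z ^ 2 = (z 0 - z 1) ^ 2 + (z 1 - z 2) ^ 2 + (z 2 - z 0) ^ 2 :=
  Real.sq_sqrt (by positivity)

lemma measurable_psi : Measurable psi := by unfold psi; fun_prop

lemma psi_drain (z : St) (s : ℝ) : psi (drain z s) ≤ psi z := by
  have h : ∀ i j, (drain z s i - drain z s j) ^ 2 ≤ (z i - z j) ^ 2 := fun i j => by
    have := abs_max_sub_max_le_abs (z i - s) (z j - s) 0
    rw [sub_sub_sub_cancel_right] at this
    exact sq_le_sq.2 this
  exact Real.sqrt_le_sqrt (by linarith [h 0 1, h 1 2, h 2 0])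

lemma psi_bump_sq (z : St) (i : Fin 3) (x : ℝ) :
    psi (bump z i x) ^ 2 = psi z ^ 2 + 2 * x * gam z i + 2 * x ^ 2 := by
  rw [psi_sq, psi_sq]
  fin_cases i <;> simp [bump, gam] <;> ring

lemma gam_sq (z : St) (i : Fin 3) : gam z i ^ 2 ≤ (2 * psi z) ^ 2 := by
  rw [mul_pow, psi_sq]
  fin_cases i <;> simp [gam] <;>
    nlinarith [sq_nonneg (z 0 - z 1), sq_nonneg (z 1 - z 2), sq_nonneg (z 2 - z 0)]

lemma psi_bump {z : St} (i : Fin 3) {x R : ℝ} (hx : 0 ≤ x) (hR : 0 < R) (h : R ≤ psi z) :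
    psi (bump z i x) ≤ psi z + x * (gam z i / psi z) + min (4 * x) (x ^ 2 / R) := by
  have hr : 0 < psi z := hR.trans_le h
  have h1 := psi_bump_sq z i x
  have h2 := abs_le_of_sq_le_sq' (gam_sq z i) (by positivity)
  set r := psi z
  set r' := psi (bump z i x)
  set g := gam z i / r with hg
  have hg' : gam z i = g * r := by rw [hg]; field_simp
  rw [hg'] at h1 h2
  have g1 : -2 ≤ g := by nlinarith [h2.1]
  have g2 : g ≤ 2 := by nlinarith [h2.2]
  have hr' : 0 ≤ r' := psi_nonneg _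
  rw [← sub_le_iff_le_add', le_min_iff]
  constructor
  · have : r' ≤ r + 2 * x := by
      refine abs_le_of_sq_le_sq' ?_ (by positivity) |>.2
      nlinarith [mul_nonneg hx hr.le, mul_nonneg (mul_nonneg hx hr.le) (sub_nonneg.2 g2)]
    nlinarith
  · have h3 : r' - (r + x * g) ≤ x ^ 2 / r := by
      rw [le_div_iff₀ hr]
      nlinarith [sq_nonneg (r' - r)]
    exact h3.trans (div_le_div_of_nonneg_left (by positivity) hR h)

lemma eta_small {F : Measure ℝ} [IsProbabilityMeasure F] (hF : ∀ᵐ x ∂F, 0 < x)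
    (hI : Integrable (fun x : ℝ => x) F) {ε : ℝ} (hε : 0 < ε) :
    ∀ᶠ n : ℕ in atTop, ∫ x, min (4 * x) (x ^ 2 / ((n : ℝ) + 1)) ∂F ≤ ε := by
  have h := tendsto_integral_of_dominated_convergence (μ := F)
    (F := fun (n : ℕ) (x : ℝ) => min (4 * x) (x ^ 2 / ((n : ℝ) + 1))) (f := fun _ => (0 : ℝ))
    (fun x => 4 * x) (fun n => (by fun_prop : Measurable _).aestronglyMeasurable)
    (hI.const_mul 4)
    (fun n => by
      filter_upwards [hF] with x hx
      rw [Real.norm_eq_abs, abs_of_nonneg (le_min (by positivity) (by positivity))]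
      exact min_le_left _ _)
    (by
      filter_upwards [hF] with x hx
      have h1 : Tendsto (fun n : ℕ => x ^ 2 / ((n : ℝ) + 1)) atTop (𝓝 0) :=
        tendsto_const_nhds.div_atTop (tendsto_atTop_add_const_right _ 1 tendsto_natCast_atTop_atTop)
      exact squeeze_zero (fun n => le_min (by positivity) (by positivity))
        (fun n => min_le_right _ _) h1)
  rw [integral_zero] at h
  exact h.eventually (ge_mem_nhds hε)

lemma lint_psi {F : Measure ℝ} [IsProbabilityMeasure F] (hF : ∀ᵐ x ∂F, 0 < x)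
    (hI : Integrable (fun x : ℝ => x) F) {ε R : ℝ} (hR : 0 < R)
    (hε : ∫ x, min (4 * x) (x ^ 2 / R) ∂F ≤ ε) {z : St} (h : R ≤ psi z) (i : Fin 3) :
    ∃ A : ℝ, 0 ≤ A ∧ A ≤ psi z + (∫ x, x ∂F) * (gam z i / psi z) + ε ∧
      ∫⁻ x, ENNReal.ofReal (psi (bump z i x)) ∂F ≤ ENNReal.ofReal A := by
  have i1 : Integrable (fun x : ℝ => min (4 * x) (x ^ 2 / R)) F :=
    (hI.const_mul 4).mono' (by fun_prop : Measurable _).aestronglyMeasurable (by
      filter_upwards [hF] with x hx
      rw [Real.norm_eq_abs, abs_of_nonneg (le_min (by positivity) (by positivity))]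
      exact min_le_left _ _)
  have i2 : Integrable (fun x : ℝ => psi z + x * (gam z i / psi z)) F :=
    (integrable_const _).add (hI.mul_const _)
  have hb : ∀ᵐ x ∂F, psi (bump z i x)
      ≤ psi z + x * (gam z i / psi z) + min (4 * x) (x ^ 2 / R) := by
    filter_upwards [hF] with x hx using psi_bump i hx.le hR h
  have hn : 0 ≤ᵐ[F] fun x : ℝ => psi z + x * (gam z i / psi z) + min (4 * x) (x ^ 2 / R) := by
    filter_upwards [hb] with x hx using (psi_nonneg _).trans hx
  refine ⟨∫ x, (psi z + x * (gam z i / psi z) + min (4 * x) (x ^ 2 / R)) ∂F,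
    integral_nonneg_of_ae hn, ?_, ?_⟩
  · rw [integral_add i2 i1, integral_add (integrable_const _) (hI.mul_const _),
      integral_mul_const]
    simpa using hε
  · have i3 : Integrable
        (fun x : ℝ => psi z + x * (gam z i / psi z) + min (4 * x) (x ^ 2 / R)) F := i2.add i1
    rw [ofReal_integral_eq_lintegral_ofReal i3 hn]
    refine lintegral_mono_ae ?_
    filter_upwards [hb] with x hx using ENNReal.ofReal_le_ofReal hx

lemma key_sum {a m m' lo mid hi : ℝ} (h1 : lo ≤ mid) (h2 : mid ≤ hi) (h0 : lo + mid + hi = 0)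
    (ha : 0 < a) (hm : a ≤ m) (hm' : a ≤ m') (hs : lo ^ 2 + mid ^ 2 + hi ^ 2 = 3) :
    m * lo + m * mid + m' * lo ≤ -(a / 2) := by
  have h3 : lo ≤ -(1 / 2) := by
    by_contra h
    push Not at h
    nlinarith
  nlinarith [mul_nonneg (ha.le.trans hm) (show 0 ≤ hi by linarith)]

lemma class_sum {a ml mr g0 g1 g2 : ℝ} (h0 : g0 + g1 + g2 = 0) (ha : 0 < a) (hl : a ≤ ml)
    (hr : a ≤ mr) (hs : g0 ^ 2 + g1 ^ 2 + g2 ^ 2 = 3) (s0 s1 s2 : Bool)
    (a0 : if s0 then g0 ≤ g1 else g1 ≤ g0) (a1 : if s1 then g1 ≤ g2 else g2 ≤ g1)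
    (a2 : if s2 then g2 ≤ g0 else g0 ≤ g2) :
    (if s0 then ml * g0 else mr * g1) + (if s1 then ml * g1 else mr * g2)
      + (if s2 then ml * g2 else mr * g0) ≤ -(a / 2) := by
  cases s0 <;> cases s1 <;> cases s2 <;> simp only [if_true, if_false, Bool.false_eq_true] at *
  · nlinarith
  · linarith [key_sum a1 a0 (by linarith) ha hr hl (by linarith)]
  · linarith [key_sum a0 a2 (by linarith) ha hr hl (by linarith)]
  · linarith [key_sum a1 a2 (by linarith) ha hl hr (by linarith)]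
  · linarith [key_sum a2 a1 (by linarith) ha hr hl (by linarith)]
  · linarith [key_sum a2 a0 (by linarith) ha hl hr (by linarith)]
  · linarith [key_sum a0 a1 (by linarith) ha hl hr (by linarith)]
  · nlinarith

lemma mean_pos {F : Measure ℝ} [IsProbabilityMeasure F] (hF : ∀ᵐ x ∂F, 0 < x)
    (hI : Integrable (fun x : ℝ => x) F) : 0 < ∫ x, x ∂F := by
  rw [integral_pos_iff_support_of_nonneg_ae (hF.mono fun x hx => hx.le) hI]
  have : F (support fun x : ℝ => x) = 1 := by
    rw [← measure_univ (μ := F)]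
    refine measure_congr ?_
    filter_upwards [hF] with x hx
    exact propext ⟨fun _ => trivial, fun _ => hx.ne'⟩
  rw [this]; exact one_pos

theorem lyap {lam : ℝ} (hlam : 0 < lam) {Fl Fr : Measure ℝ} [IsProbabilityMeasure Fl]
    [IsProbabilityMeasure Fr] {tie : Tie} (ht : TieMeas tie) (hl : ∀ᵐ x ∂Fl, 0 < x)
    (hr : ∀ᵐ x ∂Fr, 0 < x) (il : Integrable (fun x : ℝ => x) Fl)
    (ir : Integrable (fun x : ℝ => x) Fr) :
    ∃ (R : ℝ) (ε : ℝ≥0∞), ε ≠ 0 ∧ ε ≠ ∞ ∧ ∀ y, R ≤ psi y →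
      (mkModel lam hlam Fl Fr tie ht).Q (fun z => ENNReal.ofReal (psi z)) y + ε
        ≤ ENNReal.ofReal (psi y) := by
  set a := min (∫ x, x ∂Fl) (∫ x, x ∂Fr) with ha
  have ha0 : 0 < a := lt_min (mean_pos hl il) (mean_pos hr ir)
  obtain ⟨n, n1, n2⟩ := ((eta_small hl il (ε := a / 12) (by positivity)).and
    (eta_small hr ir (ε := a / 12) (by positivity))).exists
  have hR : (0 : ℝ) < (n : ℝ) + 1 := by positivity
  refine ⟨n + 1, 3⁻¹ * ENNReal.ofReal (a / 4), mul_ne_zero (by simp) (by simpa using ha0),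
    ENNReal.mul_ne_top (by simp) ENNReal.ofReal_ne_top, fun y hy => ?_⟩
  refine Q_add_le hlam ht measurable_psi.ennreal_ofReal y fun u => ?_
  have hp : 0 < psi y := hR.trans_le hy
  have hs : ∀ (c : Fin 3) (σ : Bool), ∃ A : ℝ, 0 ≤ A ∧ A ≤ psi y + (if σ then (∫ x, x ∂Fl)
      * (gam y c / psi y) else (∫ x, x ∂Fr) * (gam y (c + 1) / psi y)) + a / 12 ∧
      side Fl Fr (fun z => ENNReal.ofReal (psi z)) y c σ ≤ ENNReal.ofReal A := by
    intro c σ
    cases σ
    · exact lint_psi hr ir hR n2 hy (c + 1)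
    · exact lint_psi hl il hR n1 hy c
  obtain ⟨A0, p0, q0, r0⟩ := hs 0 (dec tie y 0 u)
  obtain ⟨A1, p1, q1, r1⟩ := hs 1 (dec tie y 1 u)
  obtain ⟨A2, p2, q2, r2⟩ := hs 2 (dec tie y 2 u)
  have ord : ∀ c : Fin 3, if dec tie y c u then gam y c / psi y ≤ gam y (c + 1) / psi y
      else gam y (c + 1) / psi y ≤ gam y c / psi y := by
    intro c
    split_ifs with h
    · exact div_le_div_of_nonneg_right (by simp only [gam]; linarith [le_of_dec_true h]) hp.le
    · exact div_le_div_of_nonneg_right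
        (by simp only [gam]; linarith [le_of_dec_false (eq_false_of_ne_true h)]) hp.le
  have hsum := class_sum (a := a) (g0 := gam y 0 / psi y) (g1 := gam y 1 / psi y)
    (g2 := gam y 2 / psi y) (by simp only [gam]; field_simp; ring) ha0 (min_le_left _ _)
    (min_le_right _ _) (by
      field_simp
      rw [psi_sq]; simp only [gam]; ring) _ _ _ (ord 0) (ord 1) (ord 2)
  refine (add_le_add (add_le_add (add_le_add r0 r1) r2) le_rfl).trans ?_
  rw [← ENNReal.ofReal_add p0 p1, ← ENNReal.ofReal_add (by linarith) p2,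
    ← ENNReal.ofReal_add (by linarith) (by linarith), ← ENNReal.ofReal_ofNat 3,
    ← ENNReal.ofReal_mul (by norm_num)]
  refine ENNReal.ofReal_le_ofReal ?_
  have e1 : ((0 : Fin 3) + 1) = 1 := rfl
  have e2 : ((1 : Fin 3) + 1) = 2 := rfl
  have e3 : ((2 : Fin 3) + 1) = 0 := rfl
  rw [e1] at q0; rw [e2] at q1; rw [e3] at q2
  linarith

end Pool.Agent.Lib.MP_db3298_pr
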