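import Pool.Agent.Lib.MP_db3298_pr.NMf

/-!
If the empty state is recurrent then `q = 0` on almost every line.
-/

set_option autoImplicit false

open MeasureTheory ProbabilityTheory Filter Topology Set Function
open scoped ENNReal NNReal

namespace Pool.Agent.Lib.MP_db3298_pr

def Sp (z : St) (u : ℝ) : Prop := ∃ t, (∀ i, z i ≤ t) ∧ 3 * t - (z 0 + z 1 + z 2) < u

lemma Sp.drain {z : St} {u : ℝ} (h : Sp z u) (s : ℝ) : Sp (drain z s) u := by
  obtain ⟨t, h1, h2⟩ := h
  have : ∀ i, max (t - s) 0 - MP_db3298_pr.drain z s i ≤ t - z i := fun i => by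
    have := (abs_le.1 (abs_max_sub_max_le_abs (t - s) (z i - s) 0)).2
    rwa [sub_sub_sub_cancel_right, abs_of_nonneg (sub_nonneg.2 (h1 i))] at this
  exact ⟨max (t - s) 0, fun i => max_le_max (by linarith [h1 i]) le_rfl,
    by linarith [this 0, this 1, this 2]⟩

lemma sp_of_psi {z : St} {R : ℝ} (h : psi z < R) : Sp z (5 * R) := by
  have h0 := psi_sq z
  have h1 := abs_le_of_sq_le_sq' (show (z 0 - z 1) ^ 2 ≤ psi z ^ 2 by
    nlinarith [sq_nonneg (z 1 - z 2), sq_nonneg (z 2 - z 0)]) (psi_nonneg z)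
  have h2 := abs_le_of_sq_le_sq' (show (z 2 - z 0) ^ 2 ≤ psi z ^ 2 by
    nlinarith [sq_nonneg (z 1 - z 2), sq_nonneg (z 0 - z 1)]) (psi_nonneg z)
  refine ⟨z 0 + psi z, fun i => ?_, by linarith [h1.2, h2.1, psi_nonneg z]⟩
  fin_cases i
  · simpa using psi_nonneg z
  · simp; linarith [h1.1]
  · simp; linarith [h2.2]

lemma sp_feed {y : St} {u μ σ x : ℝ} (hσ : 0 < σ) (h : Sp y (u + μ)) {m i : Fin 3}
    (hi : y m < y i) (hx : x ∈ Icc μ σ) : Near σ (bump y m x) ∨ Sp (bump y m x) u := by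
  obtain ⟨t, h1, h2⟩ := h
  have him : i ≠ m := fun h => by rw [h] at hi; exact lt_irrefl _ hi
  rcases le_total (y m + x) t with a | a
  · refine Or.inr ⟨t, fun l => ?_, ?_⟩
    · by_cases hl : l = m
      · rw [hl]; simpa [bump] using a
      · simpa [bump, hl] using h1 l
    · have : bump y m x 0 + bump y m x 1 + bump y m x 2 = y 0 + y 1 + y 2 + x := by
        fin_cases m <;> simp [bump] <;> ring
      linarith [hx.1]
  · have hk : ∀ k, bump y m x k ≤ y m + x := fun k => by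
      by_cases hl : k = m
      · rw [hl]; simp [bump]
      · simpa [bump, hl] using (h1 k).trans a
    obtain ⟨o, ho⟩ : ∃ o : Fin 3, ∀ j, j ≠ o → j = m ∨ j = i :=
      (by decide : ∀ i m : Fin 3, i ≠ m → ∃ o : Fin 3, ∀ j, j ≠ o → j = m ∨ j = i) i m him
    refine Or.inl ⟨o, fun j hj k => ?_⟩
    rcases ho j hj with h | h <;> rw [h]
    · have : bump y m x m = y m + x := by simp [bump]
      linarith [hk k]
    · have : bump y m x i = y i := by simp [bump, him]
      linarith [hk k, hx.2]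

lemma exists_min_left {y : St} (h : ¬ (y 0 = y 1 ∧ y 1 = y 2)) : ∃ c : Fin 3, y c < y (c + 1) := by
  by_contra hc
  push Not at hc
  have a : y 1 ≤ y 0 := hc 0
  have b : y 2 ≤ y 1 := hc 1
  have c : y 0 ≤ y 2 := hc 2
  exact h ⟨by linarith, by linarith⟩

lemma exists_min_right {y : St} (h : ¬ (y 0 = y 1 ∧ y 1 = y 2)) : ∃ c : Fin 3, y (c + 1) < y c := by
  by_contra hc
  push Not at hc
  have a : y 0 ≤ y 1 := hc 0
  have b : y 1 ≤ y 2 := hc 1
  have c : y 2 ≤ y 0 := hc 2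
  exact h ⟨by linarith, by linarith⟩

lemma exists_mu {F : Measure ℝ} (hF : ∀ᵐ x ∂F, 0 < x) {σ : ℝ} (h : F (Iic σ) ≠ 0) :
    ∃ μ, 0 < μ ∧ F (Icc μ σ) ≠ 0 := by
  by_contra hc
  push Not at hc
  apply h
  have h1 : ∀ᵐ x ∂F, ∀ n : ℕ, x ∉ Icc (1 / ((n : ℝ) + 1)) σ :=
    ae_all_iff.2 fun n => measure_eq_zero_iff_ae_notMem.1 (hc _ (by positivity))
  refine measure_eq_zero_iff_ae_notMem.2 ?_
  filter_upwards [h1, hF] with x hx hx0 hm
  obtain ⟨n, hn⟩ := exists_nat_one_div_lt hx0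
  exact hx n ⟨hn.le, hm⟩

section
variable {lam : ℝ} (hlam : 0 < lam) {Fl Fr : Measure ℝ} [IsProbabilityMeasure Fl]
  [IsProbabilityMeasure Fr] {tie : Tie} (ht : TieMeas tie)

lemma side_le {g : St → ℝ≥0∞} {y : St} {θ : ℝ≥0∞}
    (h : ∀ i, ∀ᵐ x ∂(Fl + Fr), g (bump y i x) ≤ θ) (c : Fin 3) (σ : Bool) :
    side Fl Fr g y c σ ≤ θ := by
  cases σ
  · exact lint_le (ae_add_measure_iff.1 (h _)).2
  · exact lint_le (ae_add_measure_iff.1 (h _)).1

lemma Q_mono_ae {g g' : St → ℝ≥0∞} (hg : Measurable g) (hg' : Measurable g') {y : St}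
    (h : ∀ i, ∀ᵐ x ∂(Fl + Fr), g (bump y i x) ≤ g' (bump y i x)) :
    (mkModel lam hlam Fl Fr tie ht).Q g y ≤ (mkModel lam hlam Fl Fr tie ht).Q g' y := by
  have : ∀ c σ, side Fl Fr g y c σ ≤ side Fl Fr g' y c σ := fun c σ => by
    cases σ
    · exact lintegral_mono_ae (ae_add_measure_iff.1 (h _)).2
    · exact lintegral_mono_ae (ae_add_measure_iff.1 (h _)).1
  rw [Q_eq' hlam ht hg, Q_eq' hlam ht hg']
  exact lintegral_mono fun u =>
    mul_le_mul_right (add_le_add (add_le_add (this _ _) (this _ _)) (this _ _)) _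

lemma pack (hl : ∀ᵐ x ∂Fl, 0 < x) (hr : ∀ᵐ x ∂Fr, 0 < x)
    (h0 : (mkModel lam hlam Fl Fr tie ht).qq 0 = 0) :
    ∃ (σ μ : ℝ) (β : ℝ≥0∞), 0 < σ ∧ 0 < μ ∧ β ≠ 0 ∧ β ≤ 1 ∧
      Gd (fun z => Near σ z → (mkModel lam hlam Fl Fr tie ht).qq z = 0) ∧
      ∀ y : St, ¬ (y 0 = y 1 ∧ y 1 = y 2) → ∃ m i, y m < y i ∧ ∀ (g : St → ℝ≥0∞) (γ θ : ℝ≥0∞),
        Measurable g → (∀ i, ∀ᵐ x ∂(Fl + Fr), g (bump y i x) ≤ θ) →
        (∀ᵐ x ∂(Fl + Fr), x ∈ Icc μ σ → g (bump y m x) + γ ≤ θ) →
        (mkModel lam hlam Fl Fr tie ht).Q g y + 3⁻¹ * (β * γ) ≤ θ := by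
  set M := mkModel lam hlam Fl Fr tie ht with hM
  have Jl : ∀ c, M.Jump Fl c (c + 1) := fun c y hy h => jump_left hlam ht M.measurable_qq hy h
  have Jr : ∀ c, M.Jump Fr (c + 1) c := fun c y hy h => jump_right hlam ht M.measurable_qq hy h
  have aR : ∀ i, (∃ a, 0 < a ∧ M.qq (ax i a) = 0) → ∀ᵐ y ∂Fr, ∀ b < y, M.qq (ax (i + 1) b) = 0 :=
    fun i ⟨a, ha, h⟩ => M.axis_step h0 hr (f3 i).1.symm (Jr i) ha h
  have aL : ∀ i, (∃ a, 0 < a ∧ M.qq (ax (i + 1) a) = 0) → ∀ᵐ y ∂Fl, ∀ b < y, M.qq (ax i b) = 0 :=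
    fun i ⟨a, ha, h⟩ => M.axis_step h0 hl (f3 i).1 (Jl i) ha h
  have aS : ∀ i, (∃ a, 0 < a ∧ M.qq (ax i a) = 0) → ∃ a, 0 < a ∧ M.qq (ax (i + 1) a) = 0 := by
    intro i h
    obtain ⟨y, h1, h2⟩ := ((aR i h).and hr).exists
    exact ⟨y / 2, by linarith, h1 _ (by linarith)⟩
  have b0 : ∀ (i : Fin 3) (x : ℝ), 0 < x → bump 0 i x = ax i x := fun i x hx => by
    simp [bump, ax, hx.le]
  have a0 : ∃ i, ∃ a, 0 < a ∧ M.qq (ax i a) = 0 := by
    obtain ⟨u, hu⟩ := side_zero hlam ht M.measurable_qq (M.Q_zero_zero h0) 0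
    cases hd : dec tie 0 0 u <;> rw [hd] at hu
    · obtain ⟨x, h1, h2⟩ := (((lintegral_eq_zero_iff
        (M.measurable_qq.comp (measurable_bump 0 (0 + 1)))).1 hu).and hr).exists
      exact ⟨0 + 1, x, h2, by rw [← b0 _ _ h2]; exact h1⟩
    · obtain ⟨x, h1, h2⟩ := (((lintegral_eq_zero_iff
        (M.measurable_qq.comp (measurable_bump 0 0))).1 hu).and hl).exists
      exact ⟨0, x, h2, by rw [← b0 _ _ h2]; exact h1⟩
  have aA : ∀ i, ∃ a, 0 < a ∧ M.qq (ax i a) = 0 := by
    obtain ⟨c, hc⟩ := a0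
    intro i
    rcases (by decide : ∀ c i : Fin 3, i = c ∨ i = c + 1 ∨ i = c + 1 + 1) c i with h | h | h <;>
      rw [h]
    exacts [hc, aS _ hc, aS _ (aS _ hc)]
  have axo : ∀ (o : Fin 3) κ, ax o κ o = max κ 0 := fun o κ => by simp [ax]
  obtain ⟨x, ⟨⟨x0, x1⟩, x2⟩, x3⟩ := exists_low ((hl.and (ae_all_iff.2 fun i => aL i (aA _))).and
    (ae_all_iff.2 fun c => M.ae_TR h0 hl (isRay_ax (c + 1)) (measurable_ax _) (f3 c).1.symm
      (axo _) (Jl c)))
  obtain ⟨y, ⟨⟨y0, y1⟩, y2⟩, y3⟩ := exists_low ((hr.and (ae_all_iff.2 fun i => aR i (aA _))).and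
    (ae_all_iff.2 fun c => M.ae_TR h0 hr (isRay_ax c) (measurable_ax _) (f3 c).1
      (axo _) (Jr c)))
  have hG : Gd (fun z => Near (min x y) z → M.qq z = 0) := by
    refine M.gd_near h0 (fun i a ha => x1 i a (ha.trans_le (min_le_left _ _))) fun c => ?_
    have h1 := M.face_all (f3 c).1 x0 y0 (x2 c) (y2 c) (x1 c) (y1 c)
    filter_upwards [ae_flip h1 0] with d hd
    by_cases hσ : |d| < min x y
    swap
    · exact Eventually.of_forall fun _ h => absurd h hσ
    rw [lt_min_iff, abs_lt, abs_lt] at hσ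
    have h2 := hd (by linarith [hσ.2.2]) (by linarith [hσ.1.1])
    let g : ℝ → St := fun κ => ray (ax c) (c + 1) d κ
    have hg : IsRay g := (isRay_ax c).ray _ _
    have e : c + 2 + 1 = c := (by decide : ∀ c : Fin 3, c + 2 + 1 = c) c
    obtain ⟨x', p, q⟩ := (hl.and (M.ae_TR h0 hl hg
      (measurable_ray (measurable_ax c) _ measurable_const measurable_id) (m := c + 2) (o := c)
      (f3 c).2.1 (fun κ => by simp [g, ray, ax, (f3 c).1]) (by simpa [e] using Jl (c + 2)))).exists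
    have h3 := M.pump p q fun κ => by
      have := h2 (d + κ)
      rw [fc_comm (f3 c).1, show 0 - d + (d + κ) = κ by ring] at this
      convert this using 2
      funext l
      fin_cases c <;> fin_cases l <;> simp [base, g, ray, fc, ax]
    filter_upwards [h3] with e he _ hneg κ
    convert he hneg (-κ) using 2
    funext l
    fin_cases c <;> fin_cases l <;> simp [drain, sg, g, ray, ax, sub_eq_add_neg]
  rcases le_total x y with hxy | hxy
  · obtain ⟨μ, m0, m1⟩ := exists_mu hl x3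
    rw [min_eq_left hxy] at hG
    refine ⟨x, μ, Fl (Icc μ x), x0, m0, m1, prob_le_one, hG, fun z hz => ?_⟩
    obtain ⟨c, hc⟩ := exists_min_left hz
    refine ⟨c, c + 1, hc, fun g γ θ hg h1 h2 => ?_⟩
    refine Q_add_le_class hlam ht hg z c (side_le h1) fun u => ?_
    rw [dec_of_lt tie u hc]
    exact lint_gain measurableSet_Icc le_rfl (ae_add_measure_iff.1 (h1 c)).1
      (ae_add_measure_iff.1 h2).1
  · obtain ⟨μ, m0, m1⟩ := exists_mu hr y3
    rw [min_eq_right hxy] at hG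
    refine ⟨y, μ, Fr (Icc μ y), y0, m0, m1, prob_le_one, hG, fun z hz => ?_⟩
    obtain ⟨c, hc⟩ := exists_min_right hz
    refine ⟨c + 1, c, hc, fun g γ θ hg h1 h2 => ?_⟩
    refine Q_add_le_class hlam ht hg z c (side_le h1) fun u => ?_
    rw [dec_of_gt tie u hc]
    exact lint_gain measurableSet_Icc le_rfl (ae_add_measure_iff.1 (h1 (c + 1))).2
      (ae_add_measure_iff.1 h2).2

theorem gd_zero (hl : ∀ᵐ x ∂Fl, 0 < x) (hr : ∀ᵐ x ∂Fr, 0 < x)
    (il : Integrable (fun x : ℝ => x) Fl) (ir : Integrable (fun x : ℝ => x) Fr)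
    (h0 : (mkModel lam hlam Fl Fr tie ht).qq 0 = 0) :
    Gd fun z => (mkModel lam hlam Fl Fr tie ht).qq z = 0 := by
  obtain ⟨σ, μ, β, hσ, hμ, hβ, hβ1, hN, hF⟩ := pack hlam ht hl hr h0
  obtain ⟨R, ε, hε, hε', hL⟩ := lyap hlam ht hl hr il ir
  set M := mkModel lam hlam Fl Fr tie ht with hM
  have hlr : ∀ᵐ x ∂(Fl + Fr), 0 < x := ae_add_measure_iff.2 ⟨hl, hr⟩
  set c : ℝ≥0∞ := 3⁻¹ * β with hc
  have c0 : c ≠ 0 := mul_ne_zero (by simp) hβ
  have c1 : c ≤ 1 := mul_le_one' (by simp) hβ1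
  have cp : ∀ (n : ℕ) (θ : ℝ≥0∞), c ^ n * θ ≤ θ := fun n θ =>
    (mul_le_mul_left (pow_le_one' c1 n) θ).trans (one_mul θ).le
  obtain ⟨N, hNR⟩ := exists_nat_gt (5 * R / μ)
  rw [div_lt_iff₀ hμ] at hNR
  have contr : ∀ θ : ℝ≥0∞, θ ≤ 1 → Gd (fun z => M.qq z ≤ θ) →
      Gd fun z => M.qq z + c ^ (N + 1) * θ ≤ θ := by
    intro θ θ1 hθ
    have pre : ∀ n : ℕ, Gd (fun z => (Near σ z ∨ Sp z (n * μ)) → M.qq z + c ^ n * θ ≤ θ) →
        Gd fun z => ∀ᵐ s ∂(expMeasure lam), Sp (drain z s) (n * μ + μ) →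
          M.Q M.qq (drain z s) + c ^ (n + 1) * θ ≤ θ := by
      intro n hn
      refine (((hn.and hθ).step lam hlr hlam).and gd_tie.drain).mono fun z _ ⟨h1, h2⟩ => ?_
      filter_upwards [h1, exp_ae_pos hlam] with s hs hs0 hsp
      by_cases he : drain z s 0 = drain z s 1 ∧ drain z s 1 = drain z s 2
      · have e0 := h2 s hs0.le he.1
        have : drain z s = 0 := by
          funext l
          fin_cases l
          · exact e0
          · exact he.1.symm.trans e0
          · exact he.2.symm.trans (he.1.symm.trans e0)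
        rw [this, M.Q_zero_zero h0, zero_add]
        exact cp _ _
      · obtain ⟨m, i, hi, h3⟩ := hF _ he
        have := h3 M.qq (c ^ n * θ) θ M.measurable_qq (fun i => (hs i).mono fun x hx => hx.2)
          ((hs m).mono fun x hx hm => hx.1 (sp_feed hσ hsp hi hm))
        rwa [← mul_assoc, ← hc, ← mul_assoc, ← pow_succ'] at this
    have post : ∀ n : ℕ, Gd fun z => (Near σ z ∨ Sp z (n * μ)) → M.qq z + c ^ n * θ ≤ θ := by
      intro n
      induction n with
      | zero =>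
        refine hN.mono fun z _ h hz => ?_
        rcases hz with hz | ⟨t, h1, h2⟩
        · simp [h hz]
        · simp only [Nat.cast_zero, zero_mul] at h2
          linarith [h1 0, h1 1, h1 2]
      | succ n ih =>
        refine (hN.and (pre n ih)).mono fun z _ ⟨h1, h2⟩ hz => ?_
        rcases hz with hz | hz
        · rw [h1 hz, zero_add]; exact cp _ _
        · refine M.qq_add_le h0 ?_
          filter_upwards [h2] with s hs
          refine hs ?_
          have := hz.drain s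
          push_cast at this
          rwa [add_mul, one_mul] at this
    have hC := pre N (post N)
    set γ := c ^ (N + 1) * θ with hγ
    have hΨ : Measurable fun z => ENNReal.ofReal (psi z) := measurable_psi.ennreal_ofReal
    have ly : ∀ δ : ℝ≥0∞, δ ≠ ∞ → ∀ n : ℕ,
        Gd fun z => M.qq z + γ ≤ θ + δ * ENNReal.ofReal (psi z) + (1 - n * (δ * ε)) := by
      intro δ hδ n
      induction n with
      | zero =>
        refine hθ.mono fun z _ h => ?_
        simp only [Nat.cast_zero, zero_mul, tsub_zero]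
        exact add_le_add (h.trans le_self_add) ((cp _ _).trans θ1)
      | succ n ih =>
        refine ((ih.step lam hlr hlam).and hC).mono fun z _ ⟨h1, h2⟩ => M.qq_add_le h0 ?_
        filter_upwards [h1, h2] with s a b
        by_cases hp : psi (drain z s) < R
        · obtain ⟨t, t1, t2⟩ := sp_of_psi hp
          exact (b ⟨t, t1, by linarith⟩).trans (le_self_add.trans le_self_add)
        · have h3 := Q_mono_ae hlam ht (g := fun z => M.qq z + γ)
            (g' := fun z => θ + δ * ENNReal.ofReal (psi z) + (1 - n * (δ * ε)))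
            (M.measurable_qq.add_const _)
            ((measurable_const.add (hΨ.const_mul _)).add_const _) a
          have e1 : M.Q (fun z => M.qq z + γ) (drain z s) = M.Q M.qq (drain z s) + γ := by
            unfold Model.Q
            rw [lintegral_add_right _ measurable_const]; simp
          have e2 : M.Q (fun z => θ + δ * ENNReal.ofReal (psi z) + (1 - n * (δ * ε))) (drain z s)
              = θ + δ * M.Q (fun z => ENNReal.ofReal (psi z)) (drain z s) + (1 - n * (δ * ε)) := by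
            unfold Model.Q
            rw [lintegral_add_right _ measurable_const, lintegral_add_left measurable_const,
              lintegral_const_mul' _ _ hδ]
            simp
          rw [← hM, e1, e2] at h3
          have h4 := (hL _ (not_lt.1 hp)).trans (ENNReal.ofReal_le_ofReal (psi_drain z s))
          refine (ENNReal.add_le_add_iff_right (ENNReal.mul_ne_top hδ hε')).1 ?_
          calc _ ≤ θ + δ * M.Q (fun z => ENNReal.ofReal (psi z)) (drain z s) + (1 - n * (δ * ε))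
                + δ * ε := add_le_add h3 le_rfl
            _ = θ + δ * (M.Q (fun z => ENNReal.ofReal (psi z)) (drain z s) + ε)
                + (1 - n * (δ * ε)) := by ring
            _ ≤ θ + δ * ENNReal.ofReal (psi z) + ((1 - n * (δ * ε) - δ * ε) + δ * ε) :=
                add_le_add (add_le_add le_rfl (mul_le_mul_right h4 _)) le_tsub_add
            _ = _ := by
                push_cast
                rw [tsub_tsub, add_mul, one_mul, add_assoc, add_assoc, add_assoc]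
    have ly2 : ∀ j : ℕ, Gd fun z =>
        M.qq z + γ ≤ θ + ((j + 1 : ℕ) : ℝ≥0∞)⁻¹ * ENNReal.ofReal (psi z) := by
      intro j
      obtain ⟨n, hn⟩ := ENNReal.exists_nat_mul_gt
        (a := ((j + 1 : ℕ) : ℝ≥0∞)⁻¹ * ε) (mul_ne_zero (by simp) hε) ENNReal.one_ne_top
      refine (ly ((j + 1 : ℕ) : ℝ≥0∞)⁻¹ (by simp) n).mono fun z _ h => ?_
      rwa [tsub_eq_zero_of_le hn.le, add_zero] at h
    refine (Gd.all ly2).mono fun z _ h => ?_
    have h1 : Tendsto (fun j : ℕ => θ + ((j + 1 : ℕ) : ℝ≥0∞)⁻¹ * ENNReal.ofReal (psi z)) atTop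
        (𝓝 (θ + 0 * ENNReal.ofReal (psi z))) :=
      tendsto_const_nhds.add (ENNReal.Tendsto.mul_const
        (ENNReal.tendsto_inv_nat_nhds_zero.comp (tendsto_add_atTop_nat 1))
        (Or.inr ENNReal.ofReal_ne_top))
    rw [zero_mul, add_zero] at h1
    exact ge_of_tendsto' h1 h
  have it : ∀ n : ℕ, Gd fun z => M.qq z ≤ (1 - c ^ (N + 1)) ^ n := by
    intro n
    induction n with
    | zero => exact gd_of_forall fun z => by simpa using M.qq_le_one z
    | succ n ih =>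
      have h1 : (1 - c ^ (N + 1)) ^ n ≤ 1 := pow_le_one' tsub_le_self n
      have h2 := ne_top_of_le_ne_top ENNReal.one_ne_top h1
      refine (contr _ h1 ih).mono fun z _ h => ?_
      rw [pow_succ', ENNReal.sub_mul fun _ _ => h2, one_mul]
      exact ENNReal.le_sub_of_add_le_right (ne_top_of_le_ne_top h2 (cp _ _)) h
  refine (Gd.all it).mono fun z _ h => le_antisymm ?_ zero_le
  exact ge_of_tendsto' (ENNReal.tendsto_pow_atTop_nhds_zero_of_lt_one
    (ENNReal.sub_lt_self ENNReal.one_ne_top one_ne_zero (pow_ne_zero _ c0))) h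

end

end Pool.Agent.Lib.MP_db3298_pr
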