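import Pool.Agent.Lib.MP_db3298_pr.NMg

/-!
If one of the two service laws is not singular then `q` vanishes everywhere as soon as the empty
state is recurrent.
-/

set_option autoImplicit false

open MeasureTheory ProbabilityTheory Filter Topology Set Function
open scoped ENNReal NNReal

namespace Pool.Agent.Lib.MP_db3298_pr

lemma ServiceLaw.pos {F : Measure ℝ} (h : ServiceLaw F) : ∀ᵐ x ∂F, 0 < x := by
  have := h.1
  exact (prob_compl_eq_zero_iff measurableSet_Ioi).2 h.2.1

lemma ns_beta {F : Measure ℝ} (hF : ∀ᵐ x ∂F, 0 < x) (h : ¬ F ⟂ₘ volume) :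
    ∃ (μ : ℝ) (β : ℝ≥0∞), 0 < μ ∧ β ≠ 0 ∧
      ∀ A : Set ℝ, MeasurableSet A → (∀ᵐ x : ℝ, x ∈ A) → β ≤ F (A ∩ Ici μ) := by
  by_contra hc
  push Not at hc
  choose A a1 a2 a3 using fun p : ℕ × ℕ => hc (1 / ((p.1 : ℝ) + 1)) ((p.2 : ℝ≥0∞))⁻¹
    (by positivity) (by simp)
  refine h ⟨⋂ p, A p, MeasurableSet.iInter a1, ?_, ?_⟩
  · have h1 : ∀ n : ℕ, F ((⋂ p, A p) ∩ Ici (1 / ((n : ℝ) + 1))) = 0 := fun n =>
      le_antisymm (ge_of_tendsto' ENNReal.tendsto_inv_nat_nhds_zero fun k =>
        (measure_mono (inter_subset_inter_left _ (iInter_subset _ (n, k)))).trans (a3 (n, k)).le)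
        zero_le
    refine measure_eq_zero_iff_ae_notMem.2 ?_
    filter_upwards [ae_all_iff.2 fun n => measure_eq_zero_iff_ae_notMem.1 (h1 n), hF]
      with x hx hx0 hm
    obtain ⟨n, hn⟩ := exists_nat_one_div_lt hx0
    exact hx n ⟨hm, hn.le⟩
  · have : ∀ᵐ x : ℝ, x ∈ ⋂ p, A p := (ae_all_iff.2 a2).mono fun x hx => mem_iInter.2 hx
    exact this

lemma exists_sig (F : Measure ℝ) [IsProbabilityMeasure F] : ∃ n : ℕ, F (Iic (n : ℝ)) ≠ 0 := by
  by_contra hc
  push Not at hc
  obtain ⟨x, hx⟩ := (ae_all_iff.2 fun n => measure_eq_zero_iff_ae_notMem.1 (hc n)).exists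
  obtain ⟨n, hn⟩ := exists_nat_ge x
  exact hx n hn

lemma Sp.mono {z : St} {u u' : ℝ} (h : Sp z u) (hu : u ≤ u') : Sp z u' :=
  let ⟨t, h1, h2⟩ := h
  ⟨t, h1, h2.trans_le hu⟩

lemma all_eq {δ : Fin 3} (hδ : δ ≠ 0) {y : St} (h : ∀ m, y (m + δ) ≤ y m) (i j : Fin 3) :
    y i = y j := by
  have h0 := h 0
  have h1 := h 1
  have h2 := h 2
  have e : y 0 = y 1 ∧ y 1 = y 2 := by
    fin_cases δ
    · exact absurd rfl hδ
    · change y 1 ≤ y 0 at h0
      change y 2 ≤ y 1 at h1
      change y 0 ≤ y 2 at h2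
      exact ⟨by linarith, by linarith⟩
    · change y 2 ≤ y 0 at h0
      change y 0 ≤ y 1 at h1
      change y 1 ≤ y 2 at h2
      exact ⟨by linarith, by linarith⟩
  have e0 : ∀ l, y l = y 0 := fun l => by
    fin_cases l
    · rfl
    · exact e.1.symm
    · exact (e.1.trans e.2).symm
  rw [e0 i, e0 j]

lemma drain_eq_zero {δ : Fin 3} (hδ : δ ≠ 0) {z : St} {s : ℝ} {i j : Fin 3} (hz : z i ≠ z j)
    (h : ∀ m, drain z s (m + δ) ≤ drain z s m) : drain z s = 0 := by
  have h1 := all_eq hδ h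
  have h2 : drain z s i = 0 := by
    have h3 := h1 i j
    simp only [drain] at h3 ⊢
    rcases le_total (z i - s) 0 with a | a
    · exact max_eq_right a
    · rcases le_total (z j - s) 0 with b | b
      · rw [h3, max_eq_right b]
      · rw [max_eq_left a, max_eq_left b] at h3
        exact absurd (by linarith) hz
  funext l
  exact (h1 l i).trans h2

namespace Model

variable (M : Model)

/-- The law `F` is used when server `m` is less loaded than server `m + δ`. -/
def Dir (F : Measure ℝ) (δ : Fin 3) : Prop :=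
  ∀ (y : St) (m : Fin 3), y m < y (m + δ) → ∀ (A : Set ℝ) (β γ : ℝ≥0∞), MeasurableSet A →
    β ≤ F A → (∀ x ∈ A, M.qq (bump y m x) + γ ≤ 1) → M.Q M.qq y + 3⁻¹ * (β * γ) ≤ 1

lemma gap_sp (h0 : M.qq 0 = 0) {F : Measure ℝ} {δ : Fin 3} (hδ : δ ≠ 0) (hD : M.Dir F δ) {μ : ℝ}
    {β : ℝ≥0∞} (hμ : 0 < μ) (hβ1 : β ≤ 1)
    (hβ : ∀ A : Set ℝ, MeasurableSet A → (∀ᵐ x : ℝ, x ∈ A) → β ≤ F (A ∩ Ici μ))
    (hG : Gd fun z => M.qq z = 0) (n : ℕ) (m : Fin 3) :
    ∀ y : St, y m < y (m + δ) → Sp y (n * μ) → M.Q M.qq y + (3⁻¹ * β) ^ (n + 1) ≤ 1 := by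
  obtain ⟨S, hS, hq⟩ := hG
  set c : ℝ≥0∞ := 3⁻¹ * β with hc
  have c1 : c ≤ 1 := mul_le_one' (by simp) hβ1
  let D : Fin 3 → Set ℝ := fun j => {d | ∀ᵐ e : ℝ, sg m j d e ∈ S}
  have mD : ∀ j, MeasurableSet (D j) := fun j => measurableSet_setOfPred.2 (mP_ae volume
    (P := fun d e => sg m j d e ∈ S) (measurableSet_setOfPred.1
      (hS.meas.preimage (measurable_sg m j measurable_fst measurable_snd))))
  have cD : ∀ j, m ≠ j → ∀ᵐ d : ℝ, d ∈ D j := fun j hj => hS.wt m j hj
  have land : ∀ (z : St) (s : ℝ) (j k : Fin 3), m ≠ j → m ≠ k → j ≠ k → z m - z k ∈ D j →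
      z m - s ∈ D j → drain z s j < drain z s (j + δ) → M.Q M.qq (drain z s) + c ≤ 1 := by
    intro z s j k n1 n2 n3 d1 d2 hlt
    have d3 : z m - s - drain z s k ∈ D j := by
      rcases le_total (z k - s) 0 with a | a
      · simpa [drain, max_eq_right a] using d2
      · simpa [drain, max_eq_left a] using d1
    have h1 := hD _ j hlt ({b | sg m j (z m - s - drain z s k) (b + (drain z s j - drain z s k))
      ∈ S} ∩ Ici μ) β 1 ((hS.meas.preimage (measurable_sg m j measurable_const
        (measurable_id.add_const _))).inter measurableSet_Ici)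
      (hβ _ (hS.meas.preimage (measurable_sg m j measurable_const (measurable_id.add_const _)))
        (ae_shift d3 _)) fun b hb => by
        have h2 := hq _ (hS.inv _ hb.1 (drain z s k))
        have e : drain (sh (sg m j (z m - s - drain z s k) (b + (drain z s j - drain z s k)))
            (drain z s k)) 0 = bump (drain z s) j b := by
          have p1 : 0 ≤ drain z s j + b := add_nonneg (drain_nonneg _ _ _) (hμ.le.trans hb.2)
          funext l
          rcases (by decide : ∀ m j k l : Fin 3, m ≠ j → m ≠ k → j ≠ k → l = m ∨ l = j ∨ l = k)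
            m j k l n1 n2 n3 with h | h | h <;> rw [h]
          · simp [drain, sh, sg, bump, n1]
          · have : drain (sh (sg m j (z m - s - drain z s k) (b + (drain z s j - drain z s k)))
                (drain z s k)) 0 j = max (drain z s j + b) 0 := by
              simp only [drain, sh, sg, Pi.add_apply, Pi.single_eq_same,
                Pi.single_eq_of_ne n1.symm]
              congr 1; ring
            rw [this, max_eq_left p1]; simp [bump]
          · simp [drain, sh, sg, bump, n2.symm, n3.symm]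
        rw [e] at h2
        simp [h2]
    rwa [mul_one] at h1
  obtain ⟨n1, n2, n3, n4⟩ : m ≠ m + δ ∧ m ≠ m + δ + δ ∧ m + δ ≠ m + δ + δ ∧ m + δ + δ + δ = m :=
    (by decide : ∀ m δ : Fin 3, δ ≠ 0 →
      m ≠ m + δ ∧ m ≠ m + δ + δ ∧ m + δ ≠ m + δ + δ ∧ m + δ + δ + δ = m) m δ hδ
  induction n with
  | zero =>
    rintro y - ⟨t, h1, h2⟩
    simp only [Nat.cast_zero, zero_mul] at h2
    linarith [h1 0, h1 1, h1 2]
  | succ n ih =>
    rintro y hy ⟨t, t1, t2⟩
    have mA : MeasurableSet {a : ℝ | a + (y m - y (m + δ + δ)) ∈ D (m + δ) ∧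
        a + (y m - y (m + δ)) ∈ D (m + δ + δ) ∧ a + (y m - y (m + δ + δ)) ≠ 0} :=
      ((mD _).preimage (measurable_id.add_const _)).inter
        (((mD _).preimage (measurable_id.add_const _)).inter
          (measurableSet_eq_fun (measurable_id.add_const _) measurable_const).compl)
    have h3 : ∀ᵐ d : ℝ, d ≠ 0 := by rw [ae_iff]; simp
    have h4 := hD y m hy _ β (c ^ (n + 1)) (mA.inter measurableSet_Ici)
      (hβ _ mA ((ae_shift (cD _ n1) _).and ((ae_shift (cD _ n2) _).and (ae_shift h3 _))))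
      fun a ⟨⟨a1, a2, a3⟩, a4⟩ => by
        have z0 : bump y m a m = y m + a := by simp [bump]
        have z1 : bump y m a (m + δ) = y (m + δ) := by simp [bump, n1.symm]
        have z2 : bump y m a (m + δ + δ) = y (m + δ + δ) := by simp [bump, n2.symm]
        have cp : c ^ (n + 1) ≤ c := by
          rw [pow_succ]; exact (mul_le_mul_left (pow_le_one' c1 n) c).trans (one_mul c).le
        refine M.qq_add_le h0 ?_
        filter_upwards [(exp_ac M.lam).ae_le ((ae_flip (cD _ n1) (bump y m a m)).and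
          (ae_flip (cD _ n2) (bump y m a m)))] with s hs
        by_cases b1 : drain (bump y m a) s (m + δ) < drain (bump y m a) s (m + δ + δ)
        · refine (add_le_add le_rfl cp).trans (land _ s _ _ n1 n2 n3 ?_ hs.1 b1)
          rw [z0, z2]; convert a1 using 1; ring
        by_cases b2 : drain (bump y m a) s (m + δ + δ) < drain (bump y m a) s (m + δ + δ + δ)
        · refine (add_le_add le_rfl cp).trans (land _ s _ _ n2 n1 n3.symm ?_ hs.2 b2)
          rw [z0, z1]; convert a2 using 1; ring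
        by_cases b0 : drain (bump y m a) s m < drain (bump y m a) s (m + δ)
        · refine ih _ b0 (Sp.drain ⟨t, fun l => ?_, ?_⟩ s)
          · by_cases hl : l = m
            · have : ¬ bump y m a (m + δ) ≤ bump y m a m := fun h =>
                not_le.2 b0 (max_le_max (by linarith) le_rfl)
              rw [hl]; linarith [not_le.1 this, t1 (m + δ)]
            · simpa [bump, hl] using t1 l
          · have : bump y m a 0 + bump y m a 1 + bump y m a 2 = y 0 + y 1 + y 2 + a := by
              clear * -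
              fin_cases m <;> simp [bump] <;> ring
            push_cast at t2
            have a5 : μ ≤ a := a4
            linarith
        · rw [drain_eq_zero hδ (i := m) (j := m + δ + δ) (by
            rw [z0, z2]; intro h; exact a3 (by linarith)) fun l => ?_, M.Q_zero_zero h0, zero_add]
          · exact cp.trans c1
          · rcases (by decide : ∀ m δ l : Fin 3, δ ≠ 0 → l = m ∨ l = m + δ ∨ l = m + δ + δ)
              m δ l hδ with h | h | h <;> rw [h]
            exacts [not_lt.1 b0, not_lt.1 b1, not_lt.1 b2]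
    rwa [← mul_assoc, ← hc, ← pow_succ'] at h4

end Model

section
variable {lam : ℝ} (hlam : 0 < lam) {Fl Fr : Measure ℝ} [IsProbabilityMeasure Fl]
  [IsProbabilityMeasure Fr] {tie : Tie} (ht : TieMeas tie)

lemma side_one (M : Model) (y : St) (c : Fin 3) (σ : Bool) : side Fl Fr M.qq y c σ ≤ 1 :=
  side_le (fun _ => Eventually.of_forall fun _ => M.qq_le_one _) c σ

lemma dir_left : (mkModel lam hlam Fl Fr tie ht).Dir Fl 1 := by
  intro y m h A β γ hA hβ h2
  refine Q_add_le_class hlam ht (Model.measurable_qq _) y m (side_one _ y) fun u => ?_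
  rw [dec_of_lt tie u h]
  exact lint_gain hA hβ (Eventually.of_forall fun _ => Model.qq_le_one _ _)
    (Eventually.of_forall h2)

lemma dir_right : (mkModel lam hlam Fl Fr tie ht).Dir Fr 2 := by
  intro y m h A β γ hA hβ h2
  obtain ⟨c, rfl⟩ : ∃ c, m = c + 1 := (by decide : ∀ m : Fin 3, ∃ c, m = c + 1) m
  rw [(by decide : ∀ c : Fin 3, c + 1 + 2 = c) c] at h
  refine Q_add_le_class hlam ht (Model.measurable_qq _) y c (side_one _ y) fun u => ?_
  rw [dec_of_gt tie u h]
  exact lint_gain hA hβ (Eventually.of_forall fun _ => Model.qq_le_one _ _)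
    (Eventually.of_forall h2)

theorem all_zero (hl : ∀ᵐ x ∂Fl, 0 < x) (hr : ∀ᵐ x ∂Fr, 0 < x)
    (il : Integrable (fun x : ℝ => x) Fl) (ir : Integrable (fun x : ℝ => x) Fr)
    (h0 : (mkModel lam hlam Fl Fr tie ht).qq 0 = 0) (hns : ¬ Fl ⟂ₘ volume ∨ ¬ Fr ⟂ₘ volume)
    (y : St) : (mkModel lam hlam Fl Fr tie ht).qq y = 0 := by
  have hG := gd_zero hlam ht hl hr il ir h0
  obtain ⟨R, ε, hε, hε', hL⟩ := lyap hlam ht hl hr il ir
  obtain ⟨δ, μ, c, hδ, hμ, c0, c1, hs⟩ : ∃ (δ : Fin 3) (μ : ℝ) (c : ℝ≥0∞), δ ≠ 0 ∧ 0 < μ ∧ c ≠ 0 ∧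
      c ≤ 1 ∧ ∀ (n : ℕ) (m : Fin 3) (y : St), y m < y (m + δ) → Sp y (n * μ) →
        (mkModel lam hlam Fl Fr tie ht).Q (mkModel lam hlam Fl Fr tie ht).qq y
          + c ^ (n + 1) ≤ 1 := by
    rcases hns with h | h
    · obtain ⟨μ, β, a1, a2, a3⟩ := ns_beta hl h
      have b1 : β ≤ 1 := (a3 univ .univ (by simp)).trans prob_le_one
      exact ⟨1, μ, 3⁻¹ * β, by decide, a1, mul_ne_zero (by simp) a2, mul_le_one' (by simp) b1,
        Model.gap_sp _ h0 (by decide) (dir_left hlam ht) a1 b1 a3 hG⟩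
    · obtain ⟨μ, β, a1, a2, a3⟩ := ns_beta hr h
      have b1 : β ≤ 1 := (a3 univ .univ (by simp)).trans prob_le_one
      exact ⟨2, μ, 3⁻¹ * β, by decide, a1, mul_ne_zero (by simp) a2, mul_le_one' (by simp) b1,
        Model.gap_sp _ h0 (by decide) (dir_right hlam ht) a1 b1 a3 hG⟩
  obtain ⟨k1, hk1⟩ := exists_sig Fl
  obtain ⟨k2, hk2⟩ := exists_sig Fr
  obtain ⟨N, hN⟩ := exists_nat_gt ((5 * |R| + 2 * (k1 + k2)) / μ)
  rw [div_lt_iff₀ hμ] at hN
  have k10 : (0 : ℝ) ≤ k1 := Nat.cast_nonneg _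
  have k20 : (0 : ℝ) ≤ k2 := Nat.cast_nonneg _
  set M := mkModel lam hlam Fl Fr tie ht with hM
  set β : ℝ≥0∞ := min (Fl (Iic (k1 : ℝ))) (Fr (Iic (k2 : ℝ))) with hβ
  have β0 : β ≠ 0 := (lt_min (pos_iff_ne_zero.2 hk1) (pos_iff_ne_zero.2 hk2)).ne'
  set γ : ℝ≥0∞ := 3⁻¹ * (β * c ^ (N + 1)) with hγ
  have γ0 : γ ≠ 0 := mul_ne_zero (by simp) (mul_ne_zero β0 (pow_ne_zero _ c0))
  have γ1 : γ ≤ c ^ (N + 1) := by
    rw [hγ, ← mul_assoc]
    exact (mul_le_mul_left (mul_le_one' (by simp) ((min_le_left _ _).trans prob_le_one)) _).trans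
      (one_mul _).le
  have γ2 : γ ≤ 1 := γ1.trans (pow_le_one' c1 _)
  have hC : ∀ y : St, psi y < R → M.Q M.qq y + γ ≤ 1 := by
    intro y hp
    by_cases h : ∃ m, y m < y (m + δ)
    · obtain ⟨m, hm⟩ := h
      exact (add_le_add le_rfl γ1).trans
        (hs N m y hm ((sp_of_psi hp).mono (by linarith [le_abs_self R])))
    push Not at h
    have he := all_eq hδ h
    have h1 : ∀ (i : Fin 3) (x : ℝ), 0 < x → x ≤ k1 + k2 → M.qq (bump y i x) + c ^ (N + 1) ≤ 1 := by
      intro i x x0 x1
      refine M.qq_add_le h0 (Eventually.of_forall fun s => ?_)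
      by_cases h : ∃ m, drain (bump y i x) s m < drain (bump y i x) s (m + δ)
      · obtain ⟨m, hm⟩ := h
        refine hs N m _ hm (Sp.drain ⟨y 0 + x, fun l => ?_, ?_⟩ s)
        · by_cases hl : l = i
          · rw [hl]; simp [bump, he i 0]
          · simp only [bump, ne_eq, hl, not_false_eq_true, update_of_ne, he l 0]; linarith
        · have : bump y i x 0 + bump y i x 1 + bump y i x 2 = y 0 + y 1 + y 2 + x := by
            clear * -
            fin_cases i <;> simp [bump] <;> ring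
          linarith [he 1 0, he 2 0, abs_nonneg R]
      · push Not at h
        rw [drain_eq_zero hδ (i := i) (j := i + 1) ?_ h, M.Q_zero_zero h0, zero_add]
        · exact pow_le_one' c1 _
        · simp only [bump, update_self, update_of_ne (f3 i).1.symm, he (i + 1) i]; linarith
    refine Q_add_le_class hlam ht M.measurable_qq y 0 (side_one _ y) fun u => ?_
    cases dec tie y 0 u
    · exact lint_gain measurableSet_Iic (min_le_right _ _)
        (Eventually.of_forall fun _ => M.qq_le_one _)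
        (hr.mono fun x x0 x1 => h1 _ x x0 (by linarith [mem_Iic.1 x1]))
    · exact lint_gain measurableSet_Iic (min_le_left _ _)
        (Eventually.of_forall fun _ => M.qq_le_one _)
        (hl.mono fun x x0 x1 => h1 _ x x0 (by linarith [mem_Iic.1 x1]))
  have hΨ : Measurable fun z => ENNReal.ofReal (psi z) := measurable_psi.ennreal_ofReal
  have ly : ∀ η : ℝ≥0∞, η ≠ ∞ → ∀ (n : ℕ) (z : St),
      M.qq z + γ ≤ 1 + η * ENNReal.ofReal (psi z) + (1 - n * (η * ε)) := by
    intro η hη n
    induction n with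
    | zero =>
      intro z
      simp only [Nat.cast_zero, zero_mul, tsub_zero]
      exact add_le_add ((M.qq_le_one z).trans le_self_add) γ2
    | succ n ih =>
      refine fun z => M.qq_add_le h0 (Eventually.of_forall fun s => ?_)
      by_cases hp : psi (drain z s) < R
      · exact (hC _ hp).trans (le_self_add.trans le_self_add)
      · have h3 : M.Q (fun z => M.qq z + γ) (drain z s) ≤ M.Q
            (fun z => 1 + η * ENNReal.ofReal (psi z) + (1 - n * (η * ε))) (drain z s) :=
          lintegral_mono fun m => ih _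
        have e1 : M.Q (fun z => M.qq z + γ) (drain z s) = M.Q M.qq (drain z s) + γ := by
          unfold Model.Q
          rw [lintegral_add_right _ measurable_const]; simp
        have e2 : M.Q (fun z => 1 + η * ENNReal.ofReal (psi z) + (1 - n * (η * ε))) (drain z s)
            = 1 + η * M.Q (fun z => ENNReal.ofReal (psi z)) (drain z s) + (1 - n * (η * ε)) := by
          unfold Model.Q
          rw [lintegral_add_right _ measurable_const, lintegral_add_left measurable_const,
            lintegral_const_mul' _ _ hη]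
          simp
        rw [e1, e2] at h3
        have h4 := (hL _ (not_lt.1 hp)).trans (ENNReal.ofReal_le_ofReal (psi_drain z s))
        refine (ENNReal.add_le_add_iff_right (ENNReal.mul_ne_top hη hε')).1 ?_
        calc _ ≤ 1 + η * M.Q (fun z => ENNReal.ofReal (psi z)) (drain z s) + (1 - n * (η * ε))
              + η * ε := add_le_add h3 le_rfl
          _ = 1 + η * (M.Q (fun z => ENNReal.ofReal (psi z)) (drain z s) + ε)
              + (1 - n * (η * ε)) := by ring
          _ ≤ 1 + η * ENNReal.ofReal (psi z) + ((1 - n * (η * ε) - η * ε) + η * ε) :=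
              add_le_add (add_le_add le_rfl (mul_le_mul_right h4 _)) le_tsub_add
          _ = _ := by
              push_cast
              rw [tsub_tsub, add_mul, one_mul, add_assoc, add_assoc, add_assoc]
  refine M.qq_zero_of_gap γ0 (fun z => ?_) y
  have h1 : Tendsto (fun j : ℕ => 1 + ((j + 1 : ℕ) : ℝ≥0∞)⁻¹ * ENNReal.ofReal (psi z)) atTop
      (𝓝 (1 + 0 * ENNReal.ofReal (psi z))) :=
    tendsto_const_nhds.add (ENNReal.Tendsto.mul_const
      (ENNReal.tendsto_inv_nat_nhds_zero.comp (tendsto_add_atTop_nat 1))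
      (Or.inr ENNReal.ofReal_ne_top))
  rw [zero_mul, add_zero] at h1
  refine ge_of_tendsto' h1 fun j => ?_
  obtain ⟨n, hn⟩ := ENNReal.exists_nat_mul_gt
    (a := ((j + 1 : ℕ) : ℝ≥0∞)⁻¹ * ε) (mul_ne_zero (by simp) hε) ENNReal.one_ne_top
  have h := ly ((j + 1 : ℕ) : ℝ≥0∞)⁻¹ (by simp) n z
  rwa [tsub_eq_zero_of_le hn.le, add_zero] at h

end

end Pool.Agent.Lib.MP_db3298_pr
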