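import Pool.Agent.Lib.MP_db3298_pr.Concrete
import Pool.Agent.Lib.MP_db3298_pr.Lattice

/-!
From a lattice certificate to stability.
-/

set_option autoImplicit false

open MeasureTheory ProbabilityTheory Filter Topology Set
open scoped ENNReal NNReal

namespace Pool.Agent.Lib.MP_db3298_pr

lemma ofReal_ite {e p1 p2 A B C : ℝ} (he : 0 ≤ e) (hp1 : 0 ≤ p1) (hp2 : 0 ≤ p2) (hB : 0 ≤ B)
    (hC : 0 ≤ C) (s : Bool) :
    (if s then ENNReal.ofReal (e * A) else ENNReal.ofReal p1 * ENNReal.ofReal (e * B)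
      + ENNReal.ofReal p2 * ENNReal.ofReal (e * C))
      = ENNReal.ofReal (e * (if s then A else p1 * B + p2 * C)) := by
  split_ifs
  · rfl
  · rw [← ENNReal.ofReal_mul hp1, ← ENNReal.ofReal_mul hp2,
      ← ENNReal.ofReal_add (by positivity) (by positivity)]
    congr 1; ring

lemma ofReal_lhs {G : ℤ → ℤ → ℤ → ℝ} (hG : ∀ x y z, 0 ≤ G x y z) {e p1 p2 : ℝ} (he : 0 ≤ e)
    (hp1 : 0 ≤ p1) (hp2 : 0 ≤ p2) (a b1 b2 n0 n1 n2 : ℤ) (s0 s1 s2 : Bool) :
    3⁻¹ * ((if s0 then ENNReal.ofReal (e * G (n0 + a) n1 n2)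
        else ENNReal.ofReal p1 * ENNReal.ofReal (e * G n0 (n1 + b1) n2)
          + ENNReal.ofReal p2 * ENNReal.ofReal (e * G n0 (n1 + b2) n2))
      + (if s1 then ENNReal.ofReal (e * G n0 (n1 + a) n2)
        else ENNReal.ofReal p1 * ENNReal.ofReal (e * G n0 n1 (n2 + b1))
          + ENNReal.ofReal p2 * ENNReal.ofReal (e * G n0 n1 (n2 + b2)))
      + (if s2 then ENNReal.ofReal (e * G n0 n1 (n2 + a))
        else ENNReal.ofReal p1 * ENNReal.ofReal (e * G (n0 + b1) n1 n2)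
          + ENNReal.ofReal p2 * ENNReal.ofReal (e * G (n0 + b2) n1 n2)))
      = ENNReal.ofReal (e * lhs G a b1 b2 p1 p2 n0 n1 n2 s0 s1 s2) := by
  have e3 : (3⁻¹ : ℝ≥0∞) = ENNReal.ofReal 3⁻¹ := by
    rw [ENNReal.ofReal_inv_of_pos (by norm_num)]; simp
  have nn : ∀ (s : Bool) x y z x' y' z' x'' y'' z'',
      0 ≤ e * (if s then G x y z else p1 * G x' y' z' + p2 * G x'' y'' z'') := by
    intro s x y z x' y' z' x'' y'' z''
    refine mul_nonneg he ?_
    split_ifs
    · exact hG _ _ _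
    · exact add_nonneg (mul_nonneg hp1 (hG _ _ _)) (mul_nonneg hp2 (hG _ _ _))
  rw [ofReal_ite he hp1 hp2 (hG _ _ _) (hG _ _ _), ofReal_ite he hp1 hp2 (hG _ _ _) (hG _ _ _),
    ofReal_ite he hp1 hp2 (hG _ _ _) (hG _ _ _), e3,
    ← ENNReal.ofReal_add (nn _ _ _ _ _ _ _ _ _ _) (nn _ _ _ _ _ _ _ _ _ _),
    ← ENNReal.ofReal_add (add_nonneg (nn _ _ _ _ _ _ _ _ _ _) (nn _ _ _ _ _ _ _ _ _ _))
      (nn _ _ _ _ _ _ _ _ _ _), ← ENNReal.ofReal_mul (by norm_num)]
  congr 1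
  unfold lhs
  ring

/-- A lattice certificate for stability. -/
structure StabCert (Γ : ℤ → ℤ → ℤ → ℝ) (θ ρ C : ℝ) (K : ℕ) (a b1 b2 : ℕ) (p1 p2 : ℝ) : Prop where
  hθ : 0 < θ
  hρ : 0 ≤ ρ
  hC : 0 ≤ C
  hp1 : 0 ≤ p1
  hp2 : 0 ≤ p2
  hp : p1 + p2 = 1
  shift : ∀ x y z, Γ (x + 1) (y + 1) (z + 1) = Real.exp θ * Γ x y z
  lower : ∀ x y z, Real.exp (θ * (max x (max y z) : ℤ)) ≤ Γ x y z
  upper : ∀ x y z, Γ x y z ≤ C * Real.exp (θ * (max x (max y z) : ℤ))
  trunc : ∀ x y z, (K : ℤ) ≤ max x (max y z) →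
    Γ (max x (-1)) (max y (-1)) (max z (-1)) = Γ x y z
  drift : ∀ (x y z : ℤ) (s0 s1 s2 : Bool), (x < y → s0 = true) → (y < x → s0 = false) →
    (y < z → s1 = true) → (z < y → s1 = false) → (z < x → s2 = true) → (x < z → s2 = false) →
    ¬ (s0 = s1 ∧ s1 = s2) → lhs Γ a b1 b2 p1 p2 x y z s0 s1 s2 ≤ ρ * Γ x y z

noncomputable def W0 (Γ : ℤ → ℤ → ℤ → ℝ) (θ : ℝ) (y : St) (u : ℝ) : ℝ≥0∞ :=
  ENNReal.ofReal (Real.exp (θ * u) * Γ ⌊y 0 - u⌋ ⌊y 1 - u⌋ ⌊y 2 - u⌋)

noncomputable def V0 (Γ : ℤ → ℤ → ℤ → ℝ) (θ : ℝ) (y : St) : ℝ≥0∞ :=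
  ∫⁻ u in Ioc (0 : ℝ) 1, W0 Γ θ y u

lemma measurable_W0 (Γ : ℤ → ℤ → ℤ → ℝ) (θ : ℝ) :
    Measurable (fun p : St × ℝ => W0 Γ θ p.1 p.2) := by
  unfold W0
  have h : Measurable (fun n : ℤ × ℤ × ℤ => Γ n.1 n.2.1 n.2.2) := measurable_of_countable _
  refine Measurable.ennreal_ofReal (Measurable.mul (by fun_prop) ?_)
  exact h.comp (f := fun p : St × ℝ => (⌊p.1 0 - p.2⌋, ⌊p.1 1 - p.2⌋, ⌊p.1 2 - p.2⌋)) (by fun_prop)

lemma measurable_W0' (Γ : ℤ → ℤ → ℤ → ℝ) (θ : ℝ) (y : St) : Measurable (W0 Γ θ y) :=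
  (measurable_W0 Γ θ).comp (f := fun u : ℝ => (y, u)) (by fun_prop)

lemma measurable_V0 (Γ : ℤ → ℤ → ℤ → ℝ) (θ : ℝ) : Measurable (V0 Γ θ) :=
  Measurable.lintegral_prod_right' (measurable_W0 Γ θ)

/-- States from which no triple tie at a positive level can be reached without idling. -/
def Good (w : St) : Prop :=
  ¬ ((∀ i, 0 < w i) ∧ (∃ k : ℤ, w 0 - w 1 = k) ∧ (∃ l : ℤ, w 1 - w 2 = l))

lemma measurableSet_Good : MeasurableSet {w : St | Good w} := by
  have : {w : St | Good w} = ((⋂ i, {w : St | 0 < w i}) ∩ ((⋃ k : ℤ, {w : St | w 0 - w 1 = k})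
      ∩ ⋃ l : ℤ, {w : St | w 1 - w 2 = l}))ᶜ := by
    ext w; simp [Good]
  rw [this]
  refine (MeasurableSet.inter (MeasurableSet.iInter fun i => ?_) (MeasurableSet.inter
    (MeasurableSet.iUnion fun k => ?_) (MeasurableSet.iUnion fun k => ?_))).compl
  · exact measurableSet_lt measurable_const (measurable_pi_apply i)
  · exact measurableSet_eq_fun (by fun_prop) measurable_const
  · exact measurableSet_eq_fun (by fun_prop) measurable_const

lemma drain_of_pos {w : St} {t : ℝ} {i : Fin 3} (h : 0 < drain w t i) : drain w t i = w i - t := by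
  simp only [drain] at h ⊢
  rcases le_total (w i - t) 0 with h1 | h1
  · rw [max_eq_right h1] at h; exact absurd h (lt_irrefl _)
  · exact max_eq_left h1

lemma Good.drain {w : St} (hw : Good w) {t : ℝ} (ht : 0 ≤ t) : Good (drain w t) := by
  rintro ⟨h0, ⟨k, hk⟩, ⟨l, hl⟩⟩
  rw [drain_of_pos (h0 0), drain_of_pos (h0 1)] at hk
  rw [drain_of_pos (h0 1), drain_of_pos (h0 2)] at hl
  refine hw ⟨fun i => ?_, ⟨k, by linarith⟩, ⟨l, by linarith⟩⟩
  have := h0 i
  rw [drain_of_pos this] at this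
  linarith

lemma Good.bump {y : St} (hy : Good y) (h0 : ∀ i, 0 ≤ y i)
    (hni : ∀ i, 0 < y i → ∀ n : ℤ, y i ≠ n) (k : Fin 3) (x : ℤ) : Good (bump y k x) := by
  rintro ⟨hp, ⟨m, hm⟩, ⟨l, hl⟩⟩
  have p0 := hp 0
  have p1 := hp 1
  have p2 := hp 2
  fin_cases k <;> simp [MP_db3298_pr.bump] at p0 p1 p2 hm hl
  · rcases (h0 0).eq_or_lt with h | h
    · exact hni 1 p1 (x - m) (by push_cast; linarith)
    · refine hy ⟨fun i => ?_, ⟨m - x, by push_cast; linarith⟩, ⟨l, hl⟩⟩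
      fin_cases i <;> assumption
  · rcases (h0 1).eq_or_lt with h | h
    · exact hni 0 p0 (x + m) (by push_cast; linarith)
    · refine hy ⟨fun i => ?_, ⟨m + x, by push_cast; linarith⟩, ⟨l - x, by push_cast; linarith⟩⟩
      fin_cases i <;> assumption
  · rcases (h0 2).eq_or_lt with h | h
    · exact hni 1 p1 (x + l) (by push_cast; linarith)
    · refine hy ⟨fun i => ?_, ⟨m, hm⟩, ⟨l + x, by push_cast; linarith⟩⟩
      fin_cases i <;> assumption

open Classical in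
noncomputable def VV (Γ : ℤ → ℤ → ℤ → ℝ) (θ : ℝ) (y : St) : ℝ≥0∞ :=
  if Good y then V0 Γ θ y else ∞

lemma measurable_VV (Γ : ℤ → ℤ → ℤ → ℝ) (θ : ℝ) : Measurable (VV Γ θ) :=
  Measurable.ite measurableSet_Good (measurable_V0 Γ θ) measurable_const

lemma floor_max_zero (y : ℝ) {u : ℝ} (hu : u ∈ Ioc (0 : ℝ) 1) :
    ⌊max y 0 - u⌋ = max ⌊y - u⌋ (-1) := by
  have h1 : ⌊(0 : ℝ) - u⌋ = -1 := by
    rw [Int.floor_eq_iff]; push_cast; constructor <;> linarith [hu.1, hu.2]
  rcases le_total y 0 with h | h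
  · rw [max_eq_right h, h1, max_eq_right]
    rw [← h1]; exact Int.floor_mono (by linarith)
  · rw [max_eq_left h, max_eq_left]
    rw [← h1]; exact Int.floor_mono (by linarith)

lemma W0_bump (Γ : ℤ → ℤ → ℤ → ℝ) (θ : ℝ) (y : St) (u : ℝ) (x : ℕ) :
    W0 Γ θ (bump y 0 x) u
      = ENNReal.ofReal (Real.exp (θ * u) * Γ (⌊y 0 - u⌋ + x) ⌊y 1 - u⌋ ⌊y 2 - u⌋) ∧
    W0 Γ θ (bump y 1 x) u
      = ENNReal.ofReal (Real.exp (θ * u) * Γ ⌊y 0 - u⌋ (⌊y 1 - u⌋ + x) ⌊y 2 - u⌋) ∧
    W0 Γ θ (bump y 2 x) u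
      = ENNReal.ofReal (Real.exp (θ * u) * Γ ⌊y 0 - u⌋ ⌊y 1 - u⌋ (⌊y 2 - u⌋ + x)) := by
  have e : ∀ z : ℝ, ⌊z + x - u⌋ = ⌊z - u⌋ + x := fun z => by
    rw [add_sub_right_comm, Int.floor_add_natCast]
  simp [W0, bump, e]

namespace StabCert

variable {Γ : ℤ → ℤ → ℤ → ℝ} {θ ρ C : ℝ} {K a b1 b2 : ℕ} {p1 p2 : ℝ}
  (H : StabCert Γ θ ρ C K a b1 b2 p1 p2)
include H

lemma pos (x y z : ℤ) : 0 < Γ x y z := (Real.exp_pos _).trans_le (H.lower x y z)

lemma V0_shift (w : St) (s : ℝ) :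
    V0 Γ θ (fun i => w i - s) = ENNReal.ofReal (Real.exp (-(θ * s))) * V0 Γ θ w := by
  have hper : Function.Periodic (W0 Γ θ w) 1 := fun u => by
    unfold W0
    have e : ∀ z : ℝ, ⌊z - u⌋ = ⌊z - (u + 1)⌋ + 1 := fun z => by
      rw [← Int.floor_add_one]; congr 1; ring
    rw [e (w 0), e (w 1), e (w 2), H.shift, mul_add, mul_one, Real.exp_add, mul_assoc]
  have h1 : ∀ u, W0 Γ θ (fun i => w i - s) u
      = ENNReal.ofReal (Real.exp (-(θ * s))) * W0 Γ θ w (u + s) := fun u => by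
    unfold W0
    rw [← ENNReal.ofReal_mul (Real.exp_pos _).le, ← mul_assoc, ← Real.exp_add]
    congr 3
    · ring
    all_goals (congr 1; ring)
  unfold V0
  simp only [h1]
  rw [lintegral_const_mul' _ _ ENNReal.ofReal_ne_top]
  congr 1
  have : VAddInvariantMeasure (AddSubgroup.zmultiples (1 : ℝ)) ℝ volume :=
    ⟨fun c s _ => measure_preimage_add _ _ _⟩
  have h2 := (isAddFundamentalDomain_Ioc one_pos s).setLIntegral_eq
    (isAddFundamentalDomain_Ioc one_pos 0) (W0 Γ θ w) hper.map_vadd_zmultiples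
  rw [zero_add] at h2
  rw [← h2, ← lintegral_indicator measurableSet_Ioc, ← lintegral_indicator measurableSet_Ioc,
    ← lintegral_add_right_eq_self ((Ioc s (s + 1)).indicator (W0 Γ θ w)) s]
  refine lintegral_congr fun u => ?_
  by_cases hu : u ∈ Ioc (0 : ℝ) 1
  · rw [indicator_of_mem hu, indicator_of_mem (by constructor <;> linarith [hu.1, hu.2])]
  · rw [indicator_of_notMem hu, indicator_of_notMem]
    exact fun h => hu ⟨by linarith [h.1], by linarith [h.2]⟩

lemma V0_drain {w : St} {s : ℝ} (h : ∃ i, (K : ℝ) + 1 ≤ w i - s) :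
    V0 Γ θ (drain w s) = ENNReal.ofReal (Real.exp (-(θ * s))) * V0 Γ θ w := by
  rw [← H.V0_shift]
  refine setLIntegral_congr_fun measurableSet_Ioc fun u hu => ?_
  simp only [W0, drain, floor_max_zero _ hu]
  rw [H.trunc]
  obtain ⟨i, hi⟩ := h
  have : (K : ℤ) ≤ ⌊w i - s - u⌋ := Int.le_floor.2 (by push_cast; linarith [hu.2])
  fin_cases i <;> simp only [Fin.zero_eta, Fin.mk_one, Fin.reduceFinMk] at this <;> omega

lemma V0_le {y : St} {N : ℕ} (h : ∀ i, y i ≤ N) :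
    V0 Γ θ y ≤ ENNReal.ofReal (Real.exp θ * (C * Real.exp (θ * N))) := by
  refine (setLIntegral_mono' measurableSet_Ioc
    (g := fun _ => ENNReal.ofReal (Real.exp θ * (C * Real.exp (θ * N)))) fun u hu => ?_).trans
    (by simp)
  refine ENNReal.ofReal_le_ofReal (mul_le_mul ?_ ((H.upper _ _ _).trans ?_) (H.pos _ _ _).le
    (Real.exp_pos _).le)
  · exact Real.exp_le_exp.2 (mul_le_of_le_one_right H.hθ.le hu.2)
  · refine mul_le_mul_of_nonneg_left (Real.exp_le_exp.2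
      (mul_le_mul_of_nonneg_left ?_ H.hθ.le)) H.hC
    have e : ∀ i, ⌊y i - u⌋ ≤ (N : ℤ) := fun i => by
      have : ((⌊y i - u⌋ : ℤ) : ℝ) ≤ ((N : ℤ) : ℝ) := by
        push_cast; linarith [Int.floor_le (y i - u), h i, hu.1]
      exact_mod_cast this
    have : max ⌊y 0 - u⌋ (max ⌊y 1 - u⌋ ⌊y 2 - u⌋) ≤ (N : ℤ) :=
      max_le (e 0) (max_le (e 1) (e 2))
    exact_mod_cast this

lemma le_V0 (y : St) (i : Fin 3) : ENNReal.ofReal (Real.exp (θ * (y i - 2))) ≤ V0 Γ θ y := by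
  refine le_trans (by simp) (setLIntegral_mono' measurableSet_Ioc
    (f := fun _ => ENNReal.ofReal (Real.exp (θ * (y i - 2)))) fun u hu => ?_)
  refine ENNReal.ofReal_le_ofReal (le_trans ?_ (le_mul_of_one_le_left (H.pos _ _ _).le
    (Real.one_le_exp (mul_nonneg H.hθ.le hu.1.le))))
  refine le_trans (Real.exp_le_exp.2 (mul_le_mul_of_nonneg_left ?_ H.hθ.le)) (H.lower _ _ _)
  have e : ⌊y i - u⌋ ≤ max ⌊y 0 - u⌋ (max ⌊y 1 - u⌋ ⌊y 2 - u⌋) := by
    fin_cases i <;> simp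
  have e' : ((⌊y i - u⌋ : ℤ) : ℝ) ≤ ((max ⌊y 0 - u⌋ (max ⌊y 1 - u⌋ ⌊y 2 - u⌋) : ℤ) : ℝ) := by
    exact_mod_cast e
  linarith [Int.lt_floor_add_one (y i - u), hu.2]

omit H in
lemma val_V0 (y : St) (c : Fin 3) (σ : Bool) :
    val a b1 b2 (ENNReal.ofReal p1) (ENNReal.ofReal p2) (V0 Γ θ) y c σ
      = ∫⁻ u in Ioc (0 : ℝ) 1,
        val a b1 b2 (ENNReal.ofReal p1) (ENNReal.ofReal p2) (fun z => W0 Γ θ z u) y c σ := by
  unfold val
  split_ifs
  · rfl
  · rw [lintegral_add_left ((measurable_W0' _ _ _).const_mul _),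
      lintegral_const_mul' _ _ ENNReal.ofReal_ne_top, lintegral_const_mul' _ _ ENNReal.ofReal_ne_top]
    rfl

lemma drift_V0 (y : St) (s0 s1 s2 : Bool) (h0 : s0 = true → y 0 ≤ y 1) (h0' : s0 = false → y 1 ≤ y 0)
    (h1 : s1 = true → y 1 ≤ y 2) (h1' : s1 = false → y 2 ≤ y 1)
    (h2 : s2 = true → y 2 ≤ y 0) (h2' : s2 = false → y 0 ≤ y 2) (hne : ¬ (s0 = s1 ∧ s1 = s2)) :
    3⁻¹ * (val a b1 b2 (ENNReal.ofReal p1) (ENNReal.ofReal p2) (V0 Γ θ) y 0 s0
      + val a b1 b2 (ENNReal.ofReal p1) (ENNReal.ofReal p2) (V0 Γ θ) y 1 s1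
      + val a b1 b2 (ENNReal.ofReal p1) (ENNReal.ofReal p2) (V0 Γ θ) y 2 s2)
      ≤ ENNReal.ofReal ρ * V0 Γ θ y := by
  have hm : ∀ c σ, Measurable fun u =>
      val a b1 b2 (ENNReal.ofReal p1) (ENNReal.ofReal p2) (fun z => W0 Γ θ z u) y c σ := by
    intro c σ
    unfold val
    split_ifs
    · exact measurable_W0' _ _ _
    · exact ((measurable_W0' _ _ _).const_mul _).add ((measurable_W0' _ _ _).const_mul _)
  rw [val_V0, val_V0, val_V0, ← lintegral_add_left (hm 0 s0),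
    ← lintegral_add_right _ (hm 2 s2), ← lintegral_const_mul' _ _ (by simp), V0,
    ← lintegral_const_mul' _ _ ENNReal.ofReal_ne_top]
  refine lintegral_mono fun u => ?_
  have mono : ∀ {i j : Fin 3}, ⌊y i - u⌋ < ⌊y j - u⌋ → ¬ y j ≤ y i := fun {i j} h h' =>
    absurd (Int.floor_mono (sub_le_sub_right h' u)) (not_le.2 h)
  have key := H.drift ⌊y 0 - u⌋ ⌊y 1 - u⌋ ⌊y 2 - u⌋ s0 s1 s2
    (fun h => by by_contra h'; exact mono h (h0' (by simpa using h')))
    (fun h => by by_contra h'; exact mono h (h0 (by simpa using h')))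
    (fun h => by by_contra h'; exact mono h (h1' (by simpa using h')))
    (fun h => by by_contra h'; exact mono h (h1 (by simpa using h')))
    (fun h => by by_contra h'; exact mono h (h2' (by simpa using h')))
    (fun h => by by_contra h'; exact mono h (h2 (by simpa using h'))) hne
  have key2 := mul_le_mul_of_nonneg_left key (Real.exp_pos (θ * u)).le
  have f1 : ((0 : Fin 3) + 1) = 1 := rfl
  have f2 : ((1 : Fin 3) + 1) = 2 := rfl
  have f3 : ((2 : Fin 3) + 1) = 0 := rfl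
  rw [W0, ← ENNReal.ofReal_mul H.hρ]
  simp only [val, f1, f2, f3, W0_bump]
  rw [ofReal_lhs (fun x y z => (H.pos x y z).le) (Real.exp_pos _).le H.hp1 H.hp2]
  exact ENNReal.ofReal_le_ofReal (by linarith)

theorem stable {lam c : ℝ} (hlam : 0 < lam) (hc : 0 < c) (hrate : lam * ρ ≤ lam + θ - c)
    {Fr : Measure ℝ} [IsProbabilityMeasure Fr]
    (hF : TwoPoint Fr b1 b2 (ENNReal.ofReal p1) (ENNReal.ofReal p2)) {tie : Tie} (h : TieMeas tie)
    {w : St} (hw : Good w) : (mkModel lam hlam (Measure.dirac (a : ℝ)) Fr tie h).Stable w := by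
  set N : ℕ := K + 1 + (a + b1 + b2) with hN
  have hθ := H.hθ
  have hC := H.hC
  refine Model.stable_of_lyapunov _ (measurable_VV Γ θ) (θ := θ)
    (C0 := Real.exp θ * (C * Real.exp (θ * N))) hc H.hρ (by positivity) hrate ?_ ?_ ?_ ?_
  · intro w t ht
    by_cases hw : Good w
    · simp only [VV, hw, hw.drain ht, if_true]
      by_cases hb : ∃ i, (K : ℝ) + 1 ≤ w i - t
      · rw [H.V0_drain hb]; exact le_self_add
      · push Not at hb
        refine le_add_left (H.V0_le fun i => max_le ?_ (by positivity))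
        have := hb i
        rw [hN]; push_cast
        have : (0 : ℝ) ≤ a + b1 + b2 := by positivity
        linarith
    · simp only [VV, hw, if_false]
      rw [ENNReal.mul_top (by simpa using Real.exp_pos _)]; simp
  · intro w hw
    have hw : Good w := by
      by_contra hc; simp [VV, hc] at hw
    have hcount : (⋃ i : Fin 3, ⋃ n : ℤ, {w i - n} : Set ℝ).Countable :=
      countable_iUnion fun i => countable_iUnion fun n => countable_singleton _
    have hnull : ∀ᵐ s ∂(expMeasure lam), s ∉ (⋃ i : Fin 3, ⋃ n : ℤ, {w i - n} : Set ℝ) :=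
      (exp_ac lam).ae_le (measure_eq_zero_iff_ae_notMem.1 (hcount.measure_zero volume))
    filter_upwards [hnull, exp_ae_pos hlam] with s hs hs0
    have hy := hw.drain hs0.le
    have hb : ∀ k (x : ℕ), VV Γ θ (bump (drain w s) k x) = V0 Γ θ (bump (drain w s) k x) := by
      intro k x
      have := hy.bump (drain_nonneg w s) (fun i hi n hn => hs (by
        rw [drain_of_pos hi] at hn
        simp only [mem_iUnion, mem_singleton_iff]
        exact ⟨i, n, by linarith⟩)) k x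
      simp only [Int.cast_natCast] at this
      simp [VV, this]
    refine Q_le hlam _ hF h (measurable_VV Γ θ) _ fun u => ?_
    have hval : ∀ c σ, val a b1 b2 (ENNReal.ofReal p1) (ENNReal.ofReal p2) (VV Γ θ) (drain w s) c σ
        = val a b1 b2 (ENNReal.ofReal p1) (ENNReal.ofReal p2) (V0 Γ θ) (drain w s) c σ := by
      intro c σ; simp only [val, hb]
    simp only [hval]
    by_cases hbig : ∃ i, (K : ℝ) + 1 ≤ w i - s
    · refine le_add_right ((H.drift_V0 _ _ _ _ le_of_dec_true le_of_dec_false le_of_dec_true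
        le_of_dec_false le_of_dec_true le_of_dec_false ?_).trans (le_of_eq ?_))
      · rintro ⟨e1, e2⟩
        have hall : drain w s 0 = drain w s 1 ∧ drain w s 1 = drain w s 2 := by
          cases hd : dec tie (drain w s) 0 u
          · have a0 := le_of_dec_false hd
            have a1 := le_of_dec_false (e1 ▸ hd)
            have a2 := le_of_dec_false (e2 ▸ e1 ▸ hd)
            exact ⟨le_antisymm (a2.trans a1) a0, le_antisymm (a0.trans a2) a1⟩
          · have a0 := le_of_dec_true hd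
            have a1 := le_of_dec_true (e1 ▸ hd)
            have a2 := le_of_dec_true (e2 ▸ e1 ▸ hd)
            exact ⟨le_antisymm a0 (a1.trans a2), le_antisymm a1 (a2.trans a0)⟩
        obtain ⟨i, hi⟩ := hbig
        have hi' : 0 < drain w s i := lt_max_of_lt_left (by
          have : (0 : ℝ) ≤ K := by positivity
          linarith)
        have h0 : 0 < drain w s 0 := by
          fin_cases i
          · exact hi'
          · exact hall.1 ▸ hi'
          · exact hall.1 ▸ hall.2 ▸ hi'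
        refine hy ⟨fun j => ?_, ⟨0, by simp [hall.1]⟩, ⟨0, by simp [hall.2]⟩⟩
        fin_cases j
        · exact h0
        · exact hall.1 ▸ h0
        · exact hall.2 ▸ hall.1 ▸ h0
      · rw [H.V0_drain hbig, ← mul_assoc, ← ENNReal.ofReal_mul H.hρ]
        simp [VV, hw]
    · push Not at hbig
      refine le_add_left ?_
      set B := ENNReal.ofReal (Real.exp θ * (C * Real.exp (θ * N))) with hB
      have hb2 : ∀ k (x : ℕ), x ≤ a + b1 + b2 → V0 Γ θ (bump (drain w s) k x) ≤ B := by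
        intro k x hx
        refine H.V0_le fun i => ?_
        have e1 : ∀ j, drain w s j ≤ K + 1 := fun j => max_le (hbig j).le (by positivity)
        have e2 : (x : ℝ) ≤ a + b1 + b2 := by exact_mod_cast hx
        have e3 : (0 : ℝ) ≤ x := by positivity
        rw [hN]; push_cast
        by_cases hik : i = k
        · subst hik; simp only [bump, Function.update_self]; linarith [e1 i]
        · simp only [bump, Function.update_of_ne hik]; linarith [e1 i]
      have hv : ∀ c σ, val a b1 b2 (ENNReal.ofReal p1) (ENNReal.ofReal p2) (V0 Γ θ) (drain w s) c σ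
          ≤ B := by
        intro c σ
        unfold val
        split_ifs
        · exact hb2 _ _ (by omega)
        · refine (add_le_add (mul_le_mul_right (hb2 _ _ (by omega)) _)
            (mul_le_mul_right (hb2 _ _ (by omega)) _)).trans (le_of_eq ?_)
          rw [← add_mul, ← ENNReal.ofReal_add H.hp1 H.hp2, H.hp]; simp
      refine (mul_le_mul_right (add_le_add (add_le_add (hv _ _) (hv _ _)) (hv _ _)) _).trans
        (le_of_eq ?_)
      rw [show B + B + B = 3 * B by ring, ← mul_assoc, ENNReal.inv_mul_cancel (by simp) (by simp),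
        one_mul]
  · intro R
    refine ⟨2 + R / θ, fun w hw i => ?_⟩
    have hg : Good w := by
      by_contra hc; simp [VV, hc] at hw
    simp only [VV, hg, if_true] at hw
    have h1 := (H.le_V0 w i).trans hw
    rw [← ENNReal.ofReal_coe_nnreal] at h1
    replace h1 := (ENNReal.ofReal_le_ofReal_iff R.2).1 h1
    have h2 := Real.add_one_le_exp (θ * (w i - 2))
    have h3 : w i - 2 ≤ R / θ := by
      rw [le_div_iff₀ hθ]
      change _ ≤ (R : ℝ) at h1
      linarith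
    linarith
  · simp only [VV, hw, if_true]
    obtain ⟨n, hn⟩ := exists_nat_gt (max (w 0) (max (w 1) (w 2)))
    simp only [max_lt_iff] at hn
    refine ne_top_of_le_ne_top ENNReal.ofReal_ne_top (H.V0_le (N := n) fun i => ?_)
    fin_cases i
    exacts [hn.1.le, hn.2.1.le, hn.2.2.le]

end StabCert

/-- The certificate attached to a checked table. -/
theorem stabCert_of_check {r : ℚ} (hr : 1 < r) {K B L : ℕ} (hL : L = K + B) {tab : ℕ}
    {a b1 b2 : ℕ} (ha : a ≤ B) (hb1 : b1 ≤ B) (hb2 : b2 ≤ B) {p1 p2 ρ : ℚ} (hp1 : 0 ≤ p1)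
    (hp2 : 0 ≤ p2) (hp : p1 + p2 = 1) (hρ : 0 ≤ ρ)
    (h : chkAll (Gam r⁻¹ K tab) (-a) (-b1) (-b2) p1 p2 ρ okLin L = true) :
    StabCert (fun x y z => (Gam r⁻¹ K tab (-x) (-y) (-z) : ℝ)) (Real.log r) ρ 4294967298 K
      a b1 b2 p1 p2 := by
  have hr0 : (0 : ℚ) < r := by linarith
  have hr0' : (0 : ℝ) < r := by exact_mod_cast hr0
  have hR : (0 : ℚ) < r⁻¹ := inv_pos.2 hr0
  have hexp : ∀ x y z : ℤ, Real.exp (Real.log r * (max x (max y z) : ℤ))
      = ((r⁻¹ ^ (min (-x) (min (-y) (-z))) : ℚ) : ℝ) := fun x y z => by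
    have : min (-x) (min (-y) (-z)) = -max x (max y z) := by omega
    rw [this, ← Real.rpow_def_of_pos hr0', Real.rpow_intCast]
    push_cast
    rw [inv_zpow', neg_neg]
  refine ⟨Real.log_pos (by exact_mod_cast hr), by exact_mod_cast hρ, by norm_num,
    by exact_mod_cast hp1, by exact_mod_cast hp2, by exact_mod_cast hp, ?_, ?_, ?_, ?_, ?_⟩
  · intro x y z
    rw [neg_add, neg_add, neg_add, Gam_shift hR.ne', Real.exp_log hr0']
    simp
  · intro x y z
    rw [hexp]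
    have h1 := Gam_lower hR K tab (-x) (-y) (-z)
    have h2 := zpow_pos hR (min (-x) (min (-y) (-z)))
    exact_mod_cast (by linarith : r⁻¹ ^ (min (-x) (min (-y) (-z))) ≤ Gam r⁻¹ K tab (-x) (-y) (-z))
  · intro x y z
    rw [hexp]
    exact_mod_cast Gam_upper hR K tab (-x) (-y) (-z)
  · intro x y z hK
    congr 1
    apply Gam_congr <;> omega
  · intro x y z s0 s1 s2 h1 h2 h3 h4 h5 h6 hne
    have key := cert_sound hR hL (a := -a) (b1 := -b1) (b2 := -b2) (by omega) (by omega) (by omega)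
      h (-x) (-y) (-z) (s0 := s0) (s1 := s1) (s2 := s2) (by
        simp only [okLin, Bool.and_eq_true]
        refine ⟨⟨⟨?_, ?_⟩, ?_⟩, ?_⟩
        · split_ifs with c1 c2
          · exact h1 (by omega)
          · simp [h2 (by omega)]
          · rfl
        · split_ifs with c1 c2
          · exact h3 (by omega)
          · simp [h4 (by omega)]
          · rfl
        · split_ifs with c1 c2
          · exact h5 (by omega)
          · simp [h6 (by omega)]
          · rfl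
        · revert hne; cases s0 <;> cases s1 <;> cases s2 <;> simp)
    have key2 : ((lhs (Gam r⁻¹ K tab) (-a) (-b1) (-b2) p1 p2 (-x) (-y) (-z) s0 s1 s2 : ℚ) : ℝ)
        ≤ ((ρ * Gam r⁻¹ K tab (-x) (-y) (-z) : ℚ) : ℝ) := by exact_mod_cast key
    rw [lhs_cast, Rat.cast_mul] at key2
    refine le_trans (le_of_eq ?_) key2
    simp only [lhs, neg_add]

end Pool.Agent.Lib.MP_db3298_pr
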