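import Pool.Agent.Lib.MP_db3298_pr.Harris

/-!
A criterion for escape to infinity with positive probability.
-/

set_option autoImplicit false

open MeasureTheory ProbabilityTheory Filter Topology Set
open scoped ENNReal NNReal

namespace Pool.Agent.Lib.MP_db3298_pr

lemma isOpen_box (K : ℝ) : IsOpen {v : St | ∀ i, v i < K} := by
  have : {v : St | ∀ i, v i < K} = ⋂ i, {v : St | v i < K} := by ext; simp
  rw [this]
  exact isOpen_iInter_of_finite fun i => isOpen_lt (continuous_apply i) continuous_const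

namespace Model

variable (M : Model)

theorem escape_bound {G : St → ℝ≥0∞} {θ c ρ : ℝ} (hc : 0 < c) (hρ : 0 ≤ ρ)
    (hrate : M.lam * ρ ≤ M.lam - θ - c)
    (T1 : ∀ w s, 0 < s → 1 ≤ ENNReal.ofReal (ρ * Real.exp (θ * s)) * G w ∨
      M.Q G (drain w s) ≤ ENNReal.ofReal (ρ * Real.exp (θ * s)) * G w)
    {K C : ℝ} (hC : 0 ≤ C)
    (T2 : ∀ w t, 0 ≤ t → (∀ i, drain w t i < K) →
      1 ≤ ENNReal.ofReal (C * Real.exp (θ * t)) * G w) (t : ℝ) (w : St) (ht : 0 ≤ t) :
    M.Pt t ({v : St | ∀ i, v i < K}.indicator 1) w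
      ≤ min 1 (ENNReal.ofReal (1 + C * Real.exp (-(c * t))) * G w) := by
  have hl := M.hlam
  refine M.Pt_le_of_super (measurable_one.indicator (isOpen_box K).measurableSet)
    ENNReal.one_ne_top (fun y => indicator_le_self' (by simp) y)
    (v := fun t w => min 1 (ENNReal.ofReal (1 + C * Real.exp (-(c * t))) * G w)) ?_ t w ht
  intro t w ht
  have hQ1 : ∀ τ y, M.Q (fun w => min 1 (ENNReal.ofReal (1 + C * Real.exp (-(c * τ))) * G w)) y
      ≤ 1 := fun τ y => (M.Q_mono (g := fun _ => 1) (fun _ => min_le_left _ _) y).trans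
        (by simp [Q])
  refine le_min ?_ ?_
  · refine (lintegral_mono (g := fun _ => 1) fun s => ?_).trans (by simp)
    split_ifs
    · exact indicator_le_self' (by simp) _
    · exact hQ1 _ _
  by_cases hw : G w = ∞
  · rw [hw, ENNReal.mul_top (by simp only [ne_eq, ENNReal.ofReal_eq_zero, not_le]; positivity)]
    exact le_top
  obtain ⟨x, hx0, hx⟩ : ∃ x : ℝ, 0 ≤ x ∧ G w = ENNReal.ofReal x :=
    ⟨(G w).toReal, ENNReal.toReal_nonneg, (ENNReal.ofReal_toReal hw).symm⟩
  rw [M.step_eq _ _ ht]
  have hI := lintegral_exp_Iic_le (r := M.lam) ht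
    (fun s => (1 + C * Real.exp (-(c * (t - s)))) * (ρ * Real.exp (θ * s) * x))
    (fun s => -(Real.exp (-(M.lam * s)) * Real.exp (θ * s) * x
      * (1 + C * Real.exp (-(c * (t - s))))))
    (fun s => Real.exp (-(M.lam * s)) * Real.exp (θ * s) * x * ((M.lam - θ)
      * (1 + C * Real.exp (-(c * (t - s)))) - c * (C * Real.exp (-(c * (t - s))))))
    ?_ (by fun_prop) ?_ ?_ hl
  · have h2 : ∫⁻ s, (Iic t).indicator (fun s => M.Q (fun w =>
          min 1 (ENNReal.ofReal (1 + C * Real.exp (-(c * (t - s)))) * G w)) (drain w s)) s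
            ∂(expMeasure M.lam)
        ≤ ∫⁻ s, (Iic t).indicator (fun s => ENNReal.ofReal
          ((1 + C * Real.exp (-(c * (t - s)))) * (ρ * Real.exp (θ * s) * x))) s
            ∂(expMeasure M.lam) := by
      refine lintegral_mono_ae ?_
      filter_upwards [exp_ae_pos hl] with s hs
      by_cases h : s ≤ t
      · rw [indicator_of_mem (by exact h), indicator_of_mem (by exact h),
          ENNReal.ofReal_mul (by positivity), ENNReal.ofReal_mul (by positivity), ← hx]
        rcases T1 w s hs with h1 | h1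
        · refine (hQ1 _ _).trans (h1.trans (le_mul_of_one_le_left' ?_))
          rw [ENNReal.one_le_ofReal]
          have : 0 ≤ C * Real.exp (-(c * (t - s))) := by positivity
          linarith
        · refine (M.Q_mono (fun _ => min_le_right _ _) _).trans ?_
          unfold Q
          rw [lintegral_const_mul' _ _ ENNReal.ofReal_ne_top]
          exact mul_le_mul_right h1 _
      · rw [indicator_of_notMem (by exact h)]; exact zero_le
    have h3 : {v : St | ∀ i, v i < K}.indicator (1 : St → ℝ≥0∞) (drain w t)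
        ≤ ENNReal.ofReal (C * Real.exp (θ * t) * x) := by
      by_cases hd : ∀ i, drain w t i < K
      · rw [indicator_of_mem (by exact hd), ENNReal.ofReal_mul (by positivity), ← hx]
        exact T2 w t ht hd
      · rw [indicator_of_notMem (by exact hd)]; exact zero_le
    refine (add_le_add (mul_le_mul_right h3 _) (h2.trans hI)).trans ?_
    have e1 : Real.exp (-(M.lam * t)) * Real.exp (θ * t) ≤ Real.exp (-(c * t)) := by
      rw [← Real.exp_add, Real.exp_le_exp]; nlinarith [mul_nonneg hl.le hρ]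
    have e2 : Real.exp (-(c * t)) ≤ 1 := by rw [Real.exp_le_one_iff]; nlinarith
    have e3 : 0 ≤ Real.exp (-(M.lam * t)) * Real.exp (θ * t) * x := by positivity
    have e4 := mul_le_mul_of_nonneg_right e1 hx0
    have e5 := mul_le_mul_of_nonneg_right e2 hx0
    have e6 := mul_le_mul_of_nonneg_right e4 hC
    simp only [sub_self, mul_zero, neg_zero, Real.exp_zero, sub_zero]
    rw [hx, ← ENNReal.ofReal_mul (Real.exp_pos _).le, ← ENNReal.ofReal_mul (by positivity),
      ← ENNReal.ofReal_add (by positivity) (by nlinarith)]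
    refine ENNReal.ofReal_le_ofReal ?_
    nlinarith
  · intro s
    have d1 : HasDerivAt (fun s => Real.exp (-(M.lam * s))) (Real.exp (-(M.lam * s)) * -M.lam) s := by
      simpa using ((hasDerivAt_id s).const_mul M.lam).neg.exp
    have d2 : HasDerivAt (fun s => Real.exp (θ * s)) (Real.exp (θ * s) * θ) s := by
      simpa using ((hasDerivAt_id s).const_mul θ).exp
    have d3 : HasDerivAt (fun s => Real.exp (-(c * (t - s)))) (Real.exp (-(c * (t - s))) * c) s := by
      simpa using (((hasDerivAt_id s).const_sub t).const_mul c).neg.exp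
    refine ((((d1.fun_mul d2).mul_const x).fun_mul
      ((d3.const_mul C).const_add 1)).fun_neg).congr_deriv ?_
    ring
  · intro s hs hst
    have e : 0 ≤ C * Real.exp (-(c * (t - s))) := by positivity
    refine mul_nonneg (by positivity) ?_
    nlinarith [mul_nonneg hl.le hρ]
  · intro s hs hst
    have e : 0 ≤ C * Real.exp (-(c * (t - s))) := by positivity
    have e' : 0 ≤ Real.exp (-(M.lam * s)) * Real.exp (θ * s) * x := by positivity
    have : M.lam * ρ * (1 + C * Real.exp (-(c * (t - s)))) ≤ (M.lam - θ)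
      * (1 + C * Real.exp (-(c * (t - s)))) - c * (C * Real.exp (-(c * (t - s)))) := by
      nlinarith
    nlinarith [mul_le_mul_of_nonneg_left this e']

theorem not_stable_of_escape {G : St → ℝ≥0∞} (hG : Measurable G) {θ c ρ : ℝ} (hc : 0 < c)
    (hρ : 0 ≤ ρ) (hrate : M.lam * ρ ≤ M.lam - θ - c)
    (T1 : ∀ w s, 0 < s → 1 ≤ ENNReal.ofReal (ρ * Real.exp (θ * s)) * G w ∨
      M.Q G (drain w s) ≤ ENNReal.ofReal (ρ * Real.exp (θ * s)) * G w)
    (T2 : ∀ K : ℝ, ∃ C : ℝ, 0 ≤ C ∧ ∀ w t, 0 ≤ t → (∀ i, drain w t i < K) →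
      1 ≤ ENNReal.ofReal (C * Real.exp (θ * t)) * G w) {w : St} {t0 : ℝ} (ht0 : 0 ≤ t0)
    (hreach : M.Pt t0 ({v | G v ≤ 1 / 2}.indicator 1) w ≠ 0) : ¬ M.Stable w := by
  rintro ⟨μ, hμ, -, hlim⟩
  set p := M.Pt t0 ({v | G v ≤ 1 / 2}.indicator 1) w with hp
  have hA : MeasurableSet {v | G v ≤ 1 / 2} := measurableSet_le hG measurable_const
  have htend : Tendsto (fun t => M.law w t) atTop (𝓝 ⟨μ, hμ⟩) :=
    ProbabilityMeasure.tendsto_iff_forall_integral_tendsto.2 fun f => by
      simp only [integral_law]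
      exact hlim f
  have hK : ∀ K : ℝ, μ {v : St | ∀ i, v i < K} ≤ 1 - 1 / 4 * p := by
    intro K
    obtain ⟨C, hC, hT2⟩ := T2 K
    have h1 := ProbabilityMeasure.le_liminf_measure_open_of_tendsto htend (isOpen_box K)
    refine le_trans h1 (liminf_le_of_frequently_le' (Eventually.frequently ?_))
    have h2 : Tendsto (fun t => C * Real.exp (-(c * (t - t0)))) atTop (𝓝 (C * 0)) := by
      refine Tendsto.const_mul C (Real.tendsto_exp_neg_atTop_nhds_zero.comp ?_)
      exact Tendsto.const_mul_atTop hc (tendsto_atTop_add_const_right _ (-t0) tendsto_id)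
    rw [mul_zero] at h2
    filter_upwards [eventually_ge_atTop t0, h2.eventually (ge_mem_nhds one_half_pos)] with t ht ht'
    rw [M.law_apply w t (isOpen_box K).measurableSet, ← add_sub_cancel t0 t,
      M.semigroup (measurable_one.indicator (isOpen_box K).measurableSet)
        (fun y => indicator_le_self' (by simp) y) (by linarith) ht0]
    refine ENNReal.le_sub_of_add_le_right (ENNReal.mul_ne_top (by simp)
      (ne_top_of_le_ne_top ENNReal.one_ne_top
        (M.Pt_le _ (fun y => indicator_le_self' (by simp) y) _))) ?_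
    rw [hp]
    unfold Pt
    rw [← lintegral_const_mul' _ _ (by simp), ← lintegral_add_right]
    · refine (lintegral_mono (g := fun _ => 1) fun ω => ?_).trans (by simp)
      have h3 := M.escape_bound hc hρ hrate T1 hC hT2 (t - t0) (workload M.J w ω t0) (by linarith)
      by_cases hω : G (workload M.J w ω t0) ≤ 1 / 2
      · rw [indicator_of_mem (by exact hω)]
        have h4 : ENNReal.ofReal (1 + C * Real.exp (-(c * (t - t0)))) * G (workload M.J w ω t0)
            ≤ ENNReal.ofReal (3 / 2) * (1 / 2) :=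
          mul_le_mul' (ENNReal.ofReal_le_ofReal (by linarith)) hω
        refine (add_le_add_left ((h3.trans (min_le_right _ _)).trans h4) _).trans (le_of_eq ?_)
        have e1 : (1 / 2 : ℝ≥0∞) = ENNReal.ofReal (1 / 2) := by
          rw [ENNReal.ofReal_div_of_pos (by norm_num)]; simp
        have e2 : (1 / 4 : ℝ≥0∞) = ENNReal.ofReal (1 / 4) := by
          rw [ENNReal.ofReal_div_of_pos (by norm_num)]; simp
        rw [Pi.one_apply, mul_one, e1, e2, ← ENNReal.ofReal_mul (by norm_num),
          ← ENNReal.ofReal_add (by norm_num) (by norm_num)]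
        norm_num
      · rw [indicator_of_notMem (by exact hω), mul_zero, add_zero]
        exact h3.trans (min_le_left _ _)
    · exact ((measurable_one.indicator hA).comp (M.measurable_workload' w t0)).const_mul _
  have hU : (⋃ n : ℕ, {v : St | ∀ i, v i < n}) = univ := by
    refine eq_univ_of_forall fun v => ?_
    obtain ⟨n, hn⟩ := exists_nat_gt (max (v 0) (max (v 1) (v 2)))
    simp only [max_lt_iff] at hn
    refine mem_iUnion.2 ⟨n, fun i => ?_⟩
    fin_cases i
    exacts [hn.1, hn.2.1, hn.2.2]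
  have hmono : Monotone fun n : ℕ => {v : St | ∀ i, v i < n} := fun a b hab v hv i =>
    (hv i).trans_le (by exact_mod_cast hab)
  have h1 : (1 : ℝ≥0∞) ≤ 1 - 1 / 4 * p := by
    have := hmono.measure_iUnion (μ := μ)
    rw [hU, measure_univ] at this
    rw [this]
    refine iSup_le fun n => ?_
    rw [← this]
    exact hK n
  have h2 : 1 - 1 / 4 * p < (1 : ℝ≥0∞) :=
    ENNReal.sub_lt_self ENNReal.one_ne_top one_ne_zero (mul_ne_zero (by simp) hreach)
  exact absurd h1 (not_le.2 h2)

lemma Pt_ne_zero_of_drain {f : St → ℝ≥0∞} (hf : Measurable f) {t : ℝ} (ht : 0 ≤ t) {w : St}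
    (h : f (drain w t) ≠ 0) : M.Pt t f w ≠ 0 := by
  rw [M.first_step hf, M.step_eq _ _ ht]
  intro h0
  have := (add_eq_zero.1 h0).1
  rcases mul_eq_zero.1 this with h1 | h1
  · exact absurd (ENNReal.ofReal_eq_zero.1 h1) (not_le.2 (Real.exp_pos _))
  · exact h h1

lemma Pt_ne_zero_of_jump {f : St → ℝ≥0∞} (hf : Measurable f) {t : ℝ} (ht : 0 < t) {w : St}
    (h : ∀ s, 0 < s → s < t → M.Q (M.Pt (t - s) f) (drain w s) ≠ 0) : M.Pt t f w ≠ 0 := by
  rw [M.first_step hf, M.step_eq _ _ ht.le]
  intro h0
  have h1 := (add_eq_zero.1 h0).2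
  have hm : Measurable fun s => M.Q (M.Pt (t - s) f) (drain w s) := by
    refine Measurable.lintegral_prod_right'
      (f := fun p : ℝ × Mk => M.Pt (t - p.1) f (M.J (drain w p.1) p.2)) ?_
    refine (M.measurable_Pt hf).comp (f := fun p : ℝ × Mk => (t - p.1, M.J (drain w p.1) p.2)) ?_
    refine (measurable_const.sub measurable_fst).prodMk (M.hJ.comp
      (f := fun p : ℝ × Mk => (drain w p.1, p.2)) (Measurable.prodMk ?_ measurable_snd))
    exact measurable_drain.comp (f := fun p : ℝ × Mk => (w, p.1))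
      (measurable_const.prodMk measurable_fst)
  rw [lintegral_eq_zero_iff (hm.indicator measurableSet_Iic)] at h1
  have h2 : ∀ᵐ s ∂(expMeasure M.lam), s ∈ Ioi (t / 2) := by
    filter_upwards [h1, exp_ae_pos M.hlam] with s hs hs0
    by_contra hc
    simp only [mem_Ioi, not_lt] at hc
    rw [indicator_of_mem (by simp only [mem_Iic]; linarith)] at hs
    exact h s hs0 (by linarith) hs
  have h3 : expMeasure M.lam (Iic (t / 2)) = 0 := by
    rw [← compl_Ioi]; exact h2
  rw [exp_Iic M.hlam (by linarith), ENNReal.ofReal_eq_zero] at h3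
  have : Real.exp (-(M.lam * (t / 2))) < 1 := by
    rw [Real.exp_lt_one_iff]; have := M.hlam; nlinarith
  linarith

end Model

end Pool.Agent.Lib.MP_db3298_pr
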